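import Pool.Agent.Lib.MP_566bac_pr.Zd.Base

/-!
# Zero-one law, infinite clusters
-/

open MeasureTheory ProbabilityTheory Finset unitInterval SimpleGraph
open scoped ENNReal symmDiff

namespace Pool.Agent.Lib.MP_566bac_pr.Zd

variable {d : ℕ}

lemma isSetRing_det : IsSetRing {A : Set (Set (Ed d)) | ∃ E : Finset (Ed d), Det E A} where
  empty_mem := ⟨∅, fun _ _ _ h => h⟩
  union_mem := by
    classical
    rintro s t ⟨E, hE⟩ ⟨F, hF⟩
    exact ⟨E ∪ F, det_union (det_mono subset_union_left hE) (det_mono subset_union_right hF)⟩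
  sdiff_mem := by
    classical
    rintro s t ⟨E, hE⟩ ⟨F, hF⟩
    exact ⟨E ∪ F, det_inter (det_mono subset_union_left hE)
      (det_compl (det_mono subset_union_right hF))⟩

lemma generate_det : (Set.instMeasurableSpace : MeasurableSpace (Set (Ed d))) =
    MeasurableSpace.generateFrom {A : Set (Set (Ed d)) | ∃ E : Finset (Ed d), Det E A} := by
  apply le_antisymm
  · refine iSup_le fun a => ?_
    rintro s ⟨t, _, rfl⟩
    apply MeasurableSpace.measurableSet_generateFrom
    refine ⟨{a}, ?_⟩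
    intro S S' h h1
    have h2 : (a ∈ S) = (a ∈ S') := propext (h a (by simp))
    change (a ∈ S') ∈ t
    rw [← h2]
    exact h1
  · apply MeasurableSpace.generateFrom_le
    rintro A ⟨E, hE⟩
    exact det_measurable hE

/-- approximation by local events -/
lemma approx (p : I) {A : Set (Set (Ed d))} (hA : MeasurableSet A) {ε : ℝ} (hε : 0 < ε) :
    ∃ B, Loc B ∧ (perc p).real (B ∆ A) < ε := by
  classical
  obtain ⟨B, ⟨E, hE⟩, hB⟩ := exists_measure_symmDiff_lt_of_generateFrom_isSetRing
    (μ := perc p) isSetRing_det ⟨{Set.univ}, Set.countable_singleton _, by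
      rintro _ rfl
      exact ⟨∅, fun _ _ _ h => h⟩, by simp⟩ generate_det hA (ε := ENNReal.ofReal ε) (by simpa using hε)
  -- the lattice part
  set B' : Set (Set (Ed d)) := {S | S ∩ (lattice d).edgeSet ∈ B} with hB'
  have hloc : Loc B' := by
    refine ⟨E.filter fun e => e ∈ (lattice d).edgeSet, ?_, ?_⟩
    · intro e he
      exact (Finset.mem_filter.mp he).2
    · intro S S' h h1
      refine hE _ _ ?_ h1
      intro e he
      simp only [Set.mem_inter_iff]
      by_cases h2 : e ∈ (lattice d).edgeSet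
      · simp only [h2, and_true]
        exact h e (Finset.mem_filter.mpr ⟨he, h2⟩)
      · simp only [h2, and_false]
  refine ⟨B', hloc, ?_⟩
  have hae : (B' ∆ A : Set (Set (Ed d))) =ᵐ[perc p] (B ∆ A : Set (Set (Ed d))) := by
    filter_upwards [setBernoulli_ae_subset (u := (lattice d).edgeSet) (p := p)] with S hS
    have h1 : S ∩ (lattice d).edgeSet = S := Set.inter_eq_left.mpr hS
    have h2 : (S ∈ B') = (S ∈ B) := by
      change (S ∩ (lattice d).edgeSet ∈ B) = (S ∈ B)
      rw [h1]
    change (S ∈ B' ∆ A) = (S ∈ B ∆ A)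
    rw [Set.mem_symmDiff, Set.mem_symmDiff, h2]
  rw [measureReal_congr hae, measureReal_def]
  have h3 := (ENNReal.toReal_lt_toReal (measure_ne_top _ _) ENNReal.ofReal_ne_top).mpr hB
  rwa [ENNReal.toReal_ofReal hε.le] at h3

lemma det_pull (φ : V d ≃ V d) {E : Finset (Ed d)} {A : Set (Set (Ed d))} (hA : Det E A) :
    Det (by classical exact E.image (Sym2.map φ)) (pull φ ⁻¹' A) := by
  classical
  intro S S' h h1
  refine hA (pull φ S) (pull φ S') ?_ h1
  intro e he
  exact h (Sym2.map φ e) (Finset.mem_image_of_mem _ he)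

lemma lat_image {φ : V d ≃ V d} (hφ : IsAuto φ) {E : Finset (Ed d)} (hE : Lat E) :
    Lat (by classical exact E.image (Sym2.map φ)) := by
  classical
  intro e he
  obtain ⟨f, hf, rfl⟩ := Finset.mem_image.mp he
  have := hE f hf
  induction f using Sym2.ind with
  | _ a b =>
    rw [Sym2.map_mk, SimpleGraph.mem_edgeSet] at *
    exact (hφ a b).mpr this

lemma Loc.pull {φ : V d ≃ V d} (hφ : IsAuto φ) {A : Set (Set (Ed d))} (hA : Loc A) :
    Loc (Pool.Agent.Lib.MP_566bac_pr.Zd.pull φ ⁻¹' A) := by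
  obtain ⟨E, hE, hA⟩ := hA
  exact ⟨_, lat_image hφ hE, det_pull φ hA⟩

lemma exists_Ein {E : Finset (Ed d)} (hE : Lat E) : ∃ n, E ⊆ Ein (Lam 0 n) := by
  classical
  induction E using Finset.induction_on with
  | empty => exact ⟨0, by simp⟩
  | insert e E _ ih =>
    obtain ⟨n, hn⟩ := ih fun f hf => hE f (Finset.mem_insert_of_mem hf)
    have he := hE e (Finset.mem_insert_self _ _)
    induction e using Sym2.ind with
    | _ a b =>
      refine ⟨max n (max (dst a 0) (dst b 0)), ?_⟩
      intro f hf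
      rw [Finset.mem_insert] at hf
      rcases hf with rfl | hf
      · rw [mem_Ein, mem_Lam, mem_Lam]
        exact ⟨(le_max_left _ _).trans (le_max_right _ _), (le_max_right _ _).trans (le_max_right _ _), he⟩
      · refine Ein_mono ?_ (hn hf)
        intro x hx
        rw [mem_Lam] at hx ⊢
        exact hx.trans (le_max_left _ _)

lemma shift_indep (p : I) {E : Finset (Ed d)} {n : ℕ} (hE : E ⊆ Ein (Lam 0 n)) (hL : Lat E)
    {B : Set (Set (Ed d))} (hB : Det E B) {c : V d} (hc : 2 * n < dst c 0) :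
    (perc p).real (B ∩ pull (transE c) ⁻¹' B) = (perc p).real B * (perc p).real B := by
  classical
  have hd : Disjoint E (E.image (Sym2.map (transE c))) := by
    rw [Finset.disjoint_left]
    intro e he he'
    obtain ⟨f, hf, hfe⟩ := Finset.mem_image.mp he'
    have h1 := hE he
    have h2 := hE hf
    induction f using Sym2.ind with
    | _ a b =>
      rw [Sym2.map_mk] at hfe
      rw [← hfe, mem_Ein, mem_Lam] at h1
      rw [mem_Ein, mem_Lam] at h2
      have h3 := dst_tri c (a + c) 0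
      have h4 : dst c (a + c) = dst a 0 := by
        unfold dst
        congr 1
        ext i
        simp only [Pi.add_apply, Pi.zero_apply, sub_zero]
        rw [show c i - (a i + c i) = -a i by ring, Int.natAbs_neg]
      have h5 : dst (transE c a) 0 ≤ n := h1.1
      rw [transE_apply] at h5
      omega
  rw [perc_indep p hL (lat_image (isAuto_transE c) hL) hd hB (det_pull _ hB),
    perc_pull (isAuto_transE c) p (det_measurable hB)]

/-- **Zero-one law.** -/
theorem zero_one (p : I) {A : Set (Set (Ed d))} (hA : MeasurableSet A)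
    (hinv : ∀ N : ℕ, ∃ c : V d, N ≤ dst c 0 ∧ pull (transE c) ⁻¹' A = A) :
    (perc p).real A = 0 ∨ (perc p).real A = 1 := by
  set a := (perc p).real A with ha
  have ha0 : 0 ≤ a := measureReal_nonneg
  have ha1 : a ≤ 1 := measureReal_le_one
  have key : ∀ ε : ℝ, 0 < ε → |a - a * a| ≤ 4 * ε := by
    intro ε hε
    obtain ⟨B, ⟨E, hL, hB⟩, hBA⟩ := approx p hA hε
    obtain ⟨n, hn⟩ := exists_Ein hL
    obtain ⟨c, hc, hinv⟩ := hinv (2 * n + 1)
    set τ := pull (transE c) with hτ
    set b := (perc p).real B with hb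
    have hBm := det_measurable hB
    have hb0 : 0 ≤ b := measureReal_nonneg
    have hb1 : b ≤ 1 := measureReal_le_one
    have hτm : Measurable τ := measurable_pull _
    have h1 : (perc p).real (B ∩ τ ⁻¹' B) = b * b := shift_indep p hn hL hB (by omega)
    have h2 : (perc p).real ((τ ⁻¹' B) ∆ A) = (perc p).real (B ∆ A) := by
      have e1 : (τ ⁻¹' B) ∆ A = τ ⁻¹' (B ∆ A) := by
        conv_lhs => rw [← hinv]
        rfl
      rw [e1]
      exact perc_pull (isAuto_transE c) p (hBm.symmDiff hA)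
    have hsub : ∀ X Y : Set (Set (Ed d)),
        (perc p).real X ≤ (perc p).real Y + (perc p).real (X ∆ Y) := by
      intro X Y
      refine (perc_mono p ?_).trans (measureReal_union_le Y (X ∆ Y))
      intro S hS
      by_cases h : S ∈ Y
      · exact Or.inl h
      · exact Or.inr (Or.inl ⟨hS, h⟩)
    have hab : |a - b| ≤ ε := by
      rw [abs_le]
      have e1 := hsub A B
      have e2 := hsub B A
      have e3 : A ∆ B = B ∆ A := symmDiff_comm A B
      rw [e3] at e1
      constructor <;> linarith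
    have hX : |a - b * b| ≤ 2 * ε := by
      have e0 : (perc p).real ((B ∩ τ ⁻¹' B) ∆ A) ≤ 2 * ε := by
        have : (B ∩ τ ⁻¹' B) ∆ A ⊆ (B ∆ A) ∪ ((τ ⁻¹' B) ∆ A) := by
          intro S hS
          rcases hS with ⟨⟨h1, h2⟩, h3⟩ | ⟨h1, h2⟩
          · exact Or.inl (Or.inl ⟨h1, h3⟩)
          · by_cases h4 : S ∈ B
            · right; right
              exact ⟨h1, fun h5 => h2 ⟨h4, h5⟩⟩
            · left; right
              exact ⟨h1, h4⟩
        refine (perc_mono p this).trans ((measureReal_union_le _ _).trans ?_)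
        rw [h2]
        linarith
      have e1 := hsub A (B ∩ τ ⁻¹' B)
      have e2 := hsub (B ∩ τ ⁻¹' B) A
      have e3 : A ∆ (B ∩ τ ⁻¹' B) = (B ∩ τ ⁻¹' B) ∆ A := symmDiff_comm _ _
      rw [e3, h1] at e1
      rw [h1] at e2
      rw [abs_le]
      constructor <;> linarith
    have hbb : |b * b - a * a| ≤ 2 * ε := by
      have e1 : b * b - a * a = (b - a) * (b + a) := by ring
      rw [e1, abs_mul, abs_sub_comm b a, abs_of_nonneg (by linarith : 0 ≤ b + a)]
      have e2 : b + a ≤ 2 := by linarith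
      have e3 : 0 ≤ |a - b| := abs_nonneg _
      nlinarith
    calc |a - a * a| = |(a - b * b) + (b * b - a * a)| := by congr 1; ring
      _ ≤ |a - b * b| + |b * b - a * a| := abs_add_le _ _
      _ ≤ 4 * ε := by linarith
  have h0 : a - a * a = 0 := by
    by_contra h
    have h1 : 0 < |a - a * a| := abs_pos.mpr h
    have h2 := key (|a - a * a| / 8) (by positivity)
    linarith
  have h1 : a * (1 - a) = 0 := by linarith
  rcases mul_eq_zero.mp h1 with h | h
  · exact Or.inl h
  · exact Or.inr (by linarith)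

/-! ### the infinite cluster -/

/-- the cluster of `x` is infinite -/
def Inf (S : Set (Ed d)) (x : V d) : Prop := {y | (openGraph S).Reachable x y}.Infinite

lemma reachable_iff (S : Set (Ed d)) (x y : V d) :
    (openGraph S).Reachable x y ↔
      ∃ l : List (Ed d), (∃ p : (lattice d).Walk x y, p.edges = l) ∧ ∀ e ∈ l, e ∈ S := by
  constructor
  · rintro ⟨p⟩
    induction p with
    | nil => exact ⟨[], ⟨Walk.nil, rfl⟩, by simp⟩
    | @cons u v w hadj p ih =>
      obtain ⟨l, ⟨q, hq⟩, hl⟩ := ih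
      refine ⟨s(u, v) :: l, ⟨Walk.cons hadj.1 q, by simp [hq]⟩, ?_⟩
      intro e he
      rw [List.mem_cons] at he
      rcases he with he | he
      · rw [he]; exact hadj.2
      · exact hl e he
  · rintro ⟨l, ⟨p, hp⟩, hl⟩
    subst hp
    induction p with
    | nil => exact Reachable.refl _
    | @cons u v w hadj p ih =>
      have h1 : (openGraph S).Adj u v := ⟨hadj, hl _ (by simp)⟩
      exact h1.reachable.trans (ih fun e he => hl e (by simp [he]))

lemma measurableSet_reachable (x y : V d) :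
    MeasurableSet {S : Set (Ed d) | (openGraph S).Reachable x y} := by
  have h1 : {S : Set (Ed d) | (openGraph S).Reachable x y} =
      ⋃ l : List (Ed d), ⋃ _ : (∃ p : (lattice d).Walk x y, p.edges = l),
        ⋂ e ∈ {e | e ∈ l}, {S | e ∈ S} := by
    ext S
    rw [Set.mem_ofPred_eq, reachable_iff]
    simp only [Set.mem_iUnion, Set.mem_iInter, Set.mem_ofPred_eq, exists_prop]
  rw [h1]
  refine MeasurableSet.iUnion fun l => MeasurableSet.iUnion fun _ => ?_
  exact MeasurableSet.biInter (Set.to_countable _) fun e _ => measurableSet_mem e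

lemma measurableSet_Inf (x : V d) : MeasurableSet {S : Set (Ed d) | Inf S x} := by
  have h1 : {S : Set (Ed d) | Inf S x} =
      ⋂ F : Finset (V d), ⋃ y : V d, ⋃ _ : y ∉ F, {S | (openGraph S).Reachable x y} := by
    ext S
    simp only [Set.mem_iInter, Set.mem_iUnion, Set.mem_ofPred_eq, exists_prop, Inf]
    constructor
    · intro h F
      obtain ⟨y, hy, hyF⟩ := Set.Infinite.exists_notMem_finset h F
      exact ⟨y, hyF, hy⟩
    · intro h hfin
      obtain ⟨y, hyF, hy⟩ := h hfin.toFinset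
      apply hyF
      rw [Set.Finite.mem_toFinset]
      exact hy
  rw [h1]
  refine MeasurableSet.iInter fun F => MeasurableSet.iUnion fun y => MeasurableSet.iUnion fun _ => ?_
  exact measurableSet_reachable x y

lemma pull_Inf {φ : V d ≃ V d} (hφ : IsAuto φ) (S : Set (Ed d)) (x : V d) :
    Inf (pull φ S) x ↔ Inf S (φ x) := by
  unfold Inf
  have h1 : {y | (openGraph S).Reachable (φ x) y} =
      φ '' {y | (openGraph (pull φ S)).Reachable x y} := by
    ext y
    simp only [Set.mem_ofPred_eq, Set.mem_image]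
    constructor
    · intro h
      refine ⟨φ.symm y, ?_, φ.apply_symm_apply y⟩
      rw [pull_reach hφ, φ.apply_symm_apply]
      exact h
    · rintro ⟨z, hz, rfl⟩
      exact (pull_reach hφ S x z).mp hz
  rw [h1, Set.infinite_image_iff φ.injective.injOn]

lemma Cn_univ {S : Set (Ed d)} {x y : V d} :
    Cn S Set.univ x y ↔ (openGraph S).Reachable x y := by
  have h1 : res (openGraph S) Set.univ = openGraph S := by
    ext a b
    exact ⟨fun h => h.1, fun h => ⟨h, trivial, trivial⟩⟩
  rw [Cn, h1]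

/-- a connection which leaves a box reaches its boundary inside the box -/
lemma reach_boundary {S : Set (Ed d)} {x z c : V d} {n : ℕ} (h : (openGraph S).Reachable x z)
    (hx : dst x c ≤ n) (hz : n ≤ dst z c) :
    ∃ y, dst y c = n ∧ Cn S (Lam c n : Set (V d)) x y := by
  rcases hx.eq_or_lt with hx | hx
  · exact ⟨x, hx, Cn.refl _ _ _⟩
  · obtain ⟨u, v, h1, h2, -, -, h3, h4, h5⟩ := Cn.exit (A := {y | dst y c ≤ n - 1}) (Cn_univ.mpr h)
      (by simp only [Set.mem_ofPred_eq]; omega) (by simp only [Set.mem_ofPred_eq]; omega)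
    simp only [Set.mem_ofPred_eq] at h1 h2
    have h6 := dst_adj h3.symm
    have h7 := dst_tri v u c
    refine ⟨v, by omega, ?_⟩
    have hu : u ∈ (Lam c n : Set (V d)) := by
      rw [Finset.mem_coe, mem_Lam]; omega
    have hv : v ∈ (Lam c n : Set (V d)) := by
      rw [Finset.mem_coe, mem_Lam]; omega
    refine (h5.mono subset_rfl ?_).trans (Cn.step h3 h4 hu hv)
    rintro y ⟨-, hy⟩
    simp only [Set.mem_ofPred_eq] at hy
    rw [Finset.mem_coe, mem_Lam]
    omega

lemma Inf.reach {S : Set (Ed d)} {x : V d} (h : Inf S x) (c : V d) (n : ℕ) :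
    ∃ z, n ≤ dst z c ∧ (openGraph S).Reachable x z := by
  by_contra hcon
  push Not at hcon
  apply h
  apply Set.Finite.subset (Finset.finite_toSet (Lam c n))
  intro z hz
  rw [Finset.mem_coe, mem_Lam]
  by_contra h1
  exact hcon z (by omega) hz

/-- the connection from the origin to distance `n` -/
def Far0 (d n : ℕ) : Set (Set (Ed d)) :=
  {S | ∃ y, dst y 0 = n ∧ Cn S (Lam (0 : V d) n : Set (V d)) 0 y}

lemma far0_loc (n : ℕ) : Loc (Far0 d n) :=
  loc_res (W := Lam 0 n) fun G => ∃ y, dst y 0 = n ∧ G.Reachable 0 y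

lemma far0_inc (n : ℕ) : Inc (Far0 d n) := by
  rintro S S' h ⟨y, h1, h2⟩
  exact ⟨y, h1, h2.mono h subset_rfl⟩

lemma far0_anti {m n : ℕ} (h : m ≤ n) : Far0 d n ⊆ Far0 d m := by
  rintro S ⟨y, h1, h2⟩
  exact reach_boundary h2.reachable (by rw [dst_self]; exact Nat.zero_le _) (by omega)

lemma inf_eq_far0 : {S : Set (Ed d) | Inf S 0} = ⋂ n, Far0 d n := by
  ext S
  simp only [Set.mem_ofPred_eq, Set.mem_iInter]
  constructor
  · intro h n
    obtain ⟨z, h1, h2⟩ := h.reach 0 n
    exact reach_boundary h2 (by rw [dst_self]; exact Nat.zero_le _) h1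
  · intro h hfin
    obtain ⟨N, hN⟩ := (hfin.image fun y => dst y (0 : V d)).bddAbove
    obtain ⟨y, h1, h2⟩ := h (N + 1)
    have h3 := hN ⟨y, h2.reachable, rfl⟩
    simp only at h3
    omega

lemma perc_inf_lim (p : I) :
    Filter.Tendsto (fun n => (perc p).real (Far0 d n)) Filter.atTop
      (nhds ((perc p).real {S : Set (Ed d) | Inf S 0})) := by
  rw [inf_eq_far0]
  have h1 := tendsto_measure_iInter_atTop (μ := perc p) (s := fun n => Far0 d n)
    (fun n => (far0_loc n).meas.nullMeasurableSet) (fun m n h => far0_anti h)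
    ⟨0, measure_ne_top _ _⟩
  exact (ENNReal.tendsto_toReal (measure_ne_top _ _)).comp h1

lemma perc_inf_mono {p q : I} (h : q ≤ p) :
    (perc q).real {S : Set (Ed d) | Inf S 0} ≤ (perc p).real {S : Set (Ed d) | Inf S 0} :=
  le_of_tendsto_of_tendsto' (perc_inf_lim q) (perc_inf_lim p)
    fun n => perc_mono_q h (far0_loc n) (far0_inc n)

lemma perc_inf_shift (p : I) (x : V d) :
    (perc p).real {S : Set (Ed d) | Inf S x} = (perc p).real {S : Set (Ed d) | Inf S 0} := by
  rw [← perc_pull (isAuto_transE x) p (measurableSet_Inf 0)]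
  congr 1
  ext S
  simp only [Set.mem_preimage, Set.mem_ofPred_eq, pull_Inf (isAuto_transE x)]
  rw [show transE x 0 = x by simp [transE_apply]]

lemma hasCluster_iff (S : Set (Ed d)) : (∃ C, IsInfiniteCluster S C) ↔ ∃ x, Inf S x := by
  constructor
  · rintro ⟨C, hC, x, rfl⟩
    exact ⟨x, hC⟩
  · rintro ⟨x, hx⟩
    exact ⟨_, hx, x, rfl⟩

/-- at parameter one all edges are open -/
lemma perc_one (hd : 0 < d) : 0 < perc (1 : I) {S : Set (Ed d) | ∃ C, IsInfiniteCluster S C} := by
  have h1 : ∀ᵐ S ∂(perc (d := d) 1), ∀ e ∈ (lattice d).edgeSet, e ∈ S := by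
    rw [MeasureTheory.ae_ball_iff (Set.to_countable _)]
    intro e he
    have h2 : Lat ({e} : Finset (Ed d)) := by
      intro f hf
      rw [mem_singleton.mp hf]
      exact he
    have h3 : Det ({e} : Finset (Ed d)) {S | e ∈ S} := by
      intro S S' h h4
      exact (h e (mem_singleton_self e)).mp h4
    have h4 : (perc (1 : I)).real {S : Set (Ed d) | e ∈ S} = 1 := by
      rw [perc_det 1 h2 h3]
      have h5 := Pr_all (fun _ : Ed d => ((1 : I) : ℝ)) (J := {e}) (U := {e}) subset_rfl
      simp only [mem_singleton, forall_eq, prod_singleton] at h5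
      rw [P0, h5]
      rfl
    have h5 : (perc (1 : I)) {S : Set (Ed d) | e ∈ S} = 1 := by
      rw [← ENNReal.toReal_eq_one_iff]
      exact h4
    have h6 : (perc (1 : I)) {S : Set (Ed d) | e ∈ S}ᶜ = 0 := by
      rw [prob_compl_eq_zero_iff (measurableSet_mem e)]
      exact h5
    exact h6
  have h2 : ∀ᵐ S ∂(perc (d := d) 1), ∃ C, IsInfiniteCluster S C := by
    filter_upwards [h1] with S hS
    rw [hasCluster_iff]
    refine ⟨0, ?_⟩
    have h3 : ∀ n : ℕ, (openGraph S).Reachable 0 ((n : ℤ) • uv ⟨0, hd⟩) := by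
      intro n
      induction n with
      | zero =>
        have : ((0 : ℕ) : ℤ) • uv (⟨0, hd⟩ : Fin d) = 0 := by simp
        rw [this]
      | succ n ih =>
        refine ih.trans (SimpleGraph.Adj.reachable ?_)
        have h4 : (lattice d).Adj ((n : ℤ) • uv ⟨0, hd⟩) (((n + 1 : ℕ) : ℤ) • uv ⟨0, hd⟩) := by
          have h5 := adj_add ((n : ℤ) • uv (⟨0, hd⟩ : Fin d)) ⟨0, hd⟩
          have h6 : ((n + 1 : ℕ) : ℤ) • uv (⟨0, hd⟩ : Fin d) =
              (n : ℤ) • uv ⟨0, hd⟩ + uv ⟨0, hd⟩ := by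
            push_cast
            rw [add_smul, one_smul]
          rw [h6]
          exact h5
        exact ⟨h4, hS _ h4⟩
    apply Set.infinite_of_injective_forall_mem (f := fun n : ℕ => (n : ℤ) • uv (⟨0, hd⟩ : Fin d))
    · intro m n h
      have h4 := congrFun h ⟨0, hd⟩
      simp only [Pi.smul_apply, uv_same, smul_eq_mul, mul_one] at h4
      exact_mod_cast h4
    · exact h3
  rw [pos_iff_ne_zero]
  intro h3
  have h4 : perc (1 : I) {S : Set (Ed d) | ∃ C, IsInfiniteCluster S C}ᶜ = 0 := h2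
  have h5 : perc (d := d) (1 : I) Set.univ ≤ 0 := by
    rw [← Set.union_compl_self {S : Set (Ed d) | ∃ C, IsInfiniteCluster S C}]
    refine (measure_union_le _ _).trans ?_
    rw [h3, h4, add_zero]
  rw [measure_univ] at h5
  exact absurd h5 (by norm_num)

/-- above the critical probability there is an infinite cluster almost surely -/
theorem exists_Inf (hd : 0 < d) {p : I} (hp : criticalProbability d < p) :
    (perc p).real {S : Set (Ed d) | ∃ x, Inf S x} = 1 := by
  -- some smaller parameter percolates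
  have hne : ({q : ℝ | ∃ hq : q ∈ Set.Icc (0 : ℝ) 1,
      0 < setBernoulli (lattice d).edgeSet ⟨q, hq⟩ {S | ∃ C, IsInfiniteCluster S C}}).Nonempty :=
    ⟨1, ⟨zero_le_one, le_rfl⟩, perc_one hd⟩
  obtain ⟨q, ⟨hq, hq'⟩, hqp⟩ := exists_lt_of_csInf_lt hne hp
  have h1 : {S : Set (Ed d) | ∃ C, IsInfiniteCluster S C} = ⋃ x, {S | Inf S x} := by
    ext S
    simp only [Set.mem_ofPred_eq, hasCluster_iff, Set.mem_iUnion]
  rw [h1] at hq'
  have h2 : 0 < (perc ⟨q, hq⟩).real {S : Set (Ed d) | Inf S 0} := by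
    by_contra hcon
    have h3 : (perc ⟨q, hq⟩).real {S : Set (Ed d) | Inf S 0} = 0 :=
      le_antisymm (not_lt.mp hcon) measureReal_nonneg
    apply hq'.ne'
    rw [measure_iUnion_null_iff]
    intro x
    have h4 := perc_inf_shift ⟨q, hq⟩ x
    rw [h3, measureReal_eq_zero_iff] at h4
    exact h4
  have h3 : 0 < (perc p).real {S : Set (Ed d) | Inf S 0} :=
    lt_of_lt_of_le h2 (perc_inf_mono (show (⟨q, hq⟩ : I) ≤ p from hqp.le))
  have h4 : MeasurableSet {S : Set (Ed d) | ∃ x, Inf S x} := by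
    have : {S : Set (Ed d) | ∃ x, Inf S x} = ⋃ x, {S | Inf S x} := by
      ext S
      simp
    rw [this]
    exact MeasurableSet.iUnion fun x => measurableSet_Inf x
  rcases zero_one p h4 (by
    intro N
    refine ⟨(N : ℤ) • uv ⟨0, hd⟩, ?_, ?_⟩
    · have h5 := le_dst ((N : ℤ) • uv ⟨0, hd⟩) (0 : V d) ⟨0, hd⟩
      rw [Pi.smul_apply, uv_same, Pi.zero_apply, sub_zero, smul_eq_mul, mul_one, Nat.abs_cast] at h5
      exact_mod_cast h5
    · ext S
      simp only [Set.mem_preimage, Set.mem_ofPred_eq, pull_Inf (isAuto_transE _)]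
      constructor
      · rintro ⟨x, hx⟩
        exact ⟨_, hx⟩
      · rintro ⟨x, hx⟩
        exact ⟨(transE _).symm x, by rw [Equiv.apply_symm_apply]; exact hx⟩) with h5 | h5
  · exfalso
    have h6 : (perc p).real {S : Set (Ed d) | Inf S 0} ≤
        (perc p).real {S : Set (Ed d) | ∃ x, Inf S x} := perc_mono p fun S hS => ⟨0, hS⟩
    linarith
  · exact h5

/-- the cluster of the box of radius `m` reaches distance `n` -/
def Out (d m n : ℕ) : Set (Set (Ed d)) :=
  {S | ∃ x ∈ Lam (0 : V d) m, ∃ y, dst y 0 = n ∧ Cn S (Lam (0 : V d) n : Set (V d)) x y}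

theorem out_prob (hd : 0 < d) {p : I} (hp : criticalProbability d < p) {ε : ℝ} (hε : 0 < ε) :
    ∃ m0, ∀ m ≥ m0, ∀ n ≥ m, 1 - ε ≤ (perc p).real (Out d m n) := by
  set A : ℕ → Set (Set (Ed d)) := fun m => {S | ∃ x ∈ Lam (0 : V d) m, Inf S x} with hA
  have hmono : Monotone A := by
    rintro m n h S ⟨x, h1, h2⟩
    exact ⟨x, Lam_mono 0 h h1, h2⟩
  have hU : ⋃ m, A m = {S : Set (Ed d) | ∃ x, Inf S x} := by
    ext S
    simp only [Set.mem_iUnion, Set.mem_ofPred_eq, hA]
    constructor
    · rintro ⟨m, x, _, h⟩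
      exact ⟨x, h⟩
    · rintro ⟨x, h⟩
      exact ⟨dst x 0, x, mem_Lam.mpr le_rfl, h⟩
  have h1 : Filter.Tendsto (fun m => (perc p).real (A m)) Filter.atTop (nhds 1) := by
    rw [← exists_Inf hd hp, ← hU]
    exact (ENNReal.tendsto_toReal (measure_ne_top _ _)).comp
      (tendsto_measure_iUnion_atTop hmono)
  have h2 := h1.eventually (lt_mem_nhds (show 1 - ε < 1 by linarith))
  obtain ⟨m0, hm0⟩ := Filter.eventually_atTop.mp h2
  refine ⟨m0, fun m hm n hn => (hm0 m hm).le.trans (perc_mono p ?_)⟩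
  rintro S ⟨x, hx, hS⟩
  obtain ⟨z, h3, h4⟩ := hS.reach 0 n
  obtain ⟨y, h5, h6⟩ := reach_boundary h4 ((mem_Lam.mp hx).trans hn) h3
  exact ⟨x, hx, y, h5, h6⟩

lemma out_loc {m n : ℕ} : Loc (Out d m n) :=
  loc_res (W := Lam 0 n) fun G => ∃ x ∈ Lam (0 : V d) m, ∃ y, dst y 0 = n ∧ G.Reachable x y

end Pool.Agent.Lib.MP_566bac_pr.Zd
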