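import Pool.Agent.Lib.MP_566bac_pr.Zd.Shell
import Pool.Agent.Lib.MP_566bac_pr.Hd.DefsC

/-!
# Good boxes have probability close to one
-/

open MeasureTheory ProbabilityTheory Finset unitInterval SimpleGraph Filter
open scoped ENNReal Topology

namespace Pool.Agent.Lib.MP_566bac_pr.Zd

variable {d : ℕ}

lemma crit_lt {p : I} (hp : Hd.criticalProbability d < p) : criticalProbability d < (p : ℝ) := by
  obtain ⟨q, hq, hqp⟩ := sInf_lt_iff.mp hp
  refine lt_of_le_of_lt (csInf_le ⟨0, fun x hx => hx.1.1⟩ ?_) (show (q : ℝ) < p from hqp)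
  exact ⟨q.2, hq⟩

lemma G_confS (S : Set (Ed d)) : Hd.G (Hd.confS S) = openGraph S := by
  ext x y
  change (∃ j, (y = x + Hd.ev j ∧ s(x, x + Hd.ev j) ∈ S) ∨ (x = y + Hd.ev j ∧ s(y, y + Hd.ev j) ∈ S)) ↔
    (lattice d).Adj x y ∧ s(x, y) ∈ S
  rw [adj_iff]
  constructor
  · rintro ⟨j, ⟨h1, h2⟩ | ⟨h1, h2⟩⟩
    · rw [← h1] at h2
      exact ⟨⟨j, Or.inl h1⟩, h2⟩
    · rw [← h1, Sym2.eq_swap] at h2
      exact ⟨⟨j, Or.inr (eq_sub_of_add_eq h1.symm)⟩, h2⟩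
  · rintro ⟨⟨j, h1 | h1⟩, h2⟩
    · refine ⟨j, Or.inl ⟨h1, ?_⟩⟩
      have h3 : x + Hd.ev j = y := h1.symm
      rw [h3]
      exact h2
    · have h3 : y + Hd.ev j = x := by
        rw [h1]
        exact sub_add_cancel x (uv j)
      refine ⟨j, Or.inr ⟨h3.symm, ?_⟩⟩
      rw [h3, Sym2.eq_swap]
      exact h2

lemma Conn_iff {S : Set (Ed d)} {W : Finset (V d)} {x y : V d} :
    Hd.Conn (Hd.confS S) W x y ↔ x ∈ W ∧ y ∈ W ∧ Cn S (W : Set (V d)) x y := by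
  have h1 : Hd.res (Hd.G (Hd.confS S)) (W : Set (V d)) = res (openGraph S) (W : Set (V d)) := by
    rw [G_confS]
    rfl
  unfold Hd.Conn Cn
  rw [h1]

lemma exists_scale {h : ℕ} (hh : 0 < h) (T : ℕ) :
    ∃ K n : ℕ, T ≤ n ∧ 4 * (n : ℤ) = (3 ^ K + 3) * h := by
  set k := 4 * T with hk
  have h1 : 4 ∣ 9 ^ k + 3 := by
    have h2 : 9 ^ k % 4 = 1 := by
      rw [Nat.pow_mod]
      simp
    omega
  obtain ⟨m, hm⟩ := h1
  have h3 : k < 9 ^ k := Nat.lt_pow_self (by norm_num)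
  refine ⟨2 * k, m * h, ?_, ?_⟩
  · have h4 : T ≤ m := by omega
    nlinarith
  · have h5 : (3 : ℤ) ^ (2 * k) + 3 = 4 * m := by
      rw [pow_mul]
      have : ((9 ^ k + 3 : ℕ) : ℤ) = ((4 * m : ℕ) : ℤ) := by rw [hm]
      push_cast at this
      norm_num
      exact this
    rw [h5]
    push_cast
    ring

/-- **Good boxes have probability close to one.** -/
theorem exists_good (hd : 3 ≤ d) {p : I} (hp : Hd.criticalProbability d < p) {ε : ℝ} (hε : 0 < ε)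
    (N : ℕ) : ∃ n, N ≤ n ∧ 1 ≤ n ∧
      (setBernoulli (Hd.lattice d).edgeSet p).real {S | ¬ Hd.Good (Hd.confS S) n 0} ≤ ε := by
  classical
  have hp' := crit_lt hp
  obtain ⟨h, hh, δ, hδ, hδ1, hs⟩ := slab (d := d) (by omega) hp'
  have hs' : SlabC d p h δ := hs
  obtain ⟨m0, hm0⟩ := out_prob (d := d) (by omega) hp' (half_pos hε)
  set θ := 1 - (δ ^ 2) ^ d * (δ ^ 2) ^ d with hθ
  have hθ0 : 0 ≤ θ := by
    have h1 : δ ^ 2 ≤ 1 := pow_le_one₀ hδ.le hδ1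
    have h2 : (δ ^ 2) ^ d ≤ 1 := pow_le_one₀ (by positivity) h1
    have h3 : 0 ≤ (δ ^ 2) ^ d := by positivity
    rw [hθ]
    nlinarith
  have hθ1 : θ < 1 := by
    have h3 : 0 < (δ ^ 2) ^ d * (δ ^ 2) ^ d := by positivity
    rw [hθ]
    linarith
  -- the number of shells
  obtain ⟨J0, hJ0⟩ : ∃ J0 : ℕ, ∀ J ≥ J0,
      (((8 * h + 5) * (J + 1) : ℕ) : ℝ) ^ (2 * d) * θ ^ J ≤ ε / 2 := by
    have h1 := (tendsto_pow_const_mul_const_pow_of_abs_lt_one (2 * d)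
      (show |θ| < 1 by rw [abs_of_nonneg hθ0]; exact hθ1)).const_mul
      ((((8 * h + 5) * 2 : ℕ) : ℝ) ^ (2 * d))
    rw [mul_zero] at h1
    have h2 := (h1.eventually (gt_mem_nhds (half_pos hε))).and (eventually_ge_atTop 1)
    obtain ⟨J0, hJ0⟩ := eventually_atTop.mp h2
    refine ⟨J0, ?_⟩
    intro J hJ
    obtain ⟨h3, h4⟩ := hJ0 J hJ
    refine le_trans ?_ h3.le
    rw [← mul_assoc, ← mul_pow]
    apply mul_le_mul_of_nonneg_right _ (pow_nonneg hθ0 _)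
    apply pow_le_pow_left₀ (by positivity)
    have h5 : (1 : ℝ) ≤ J := by exact_mod_cast h4
    push_cast
    nlinarith
  -- the scale
  obtain ⟨K, n, hT, hn⟩ := exists_scale hh (m0 + N + J0 * (4 * h + 1) + 1)
  refine ⟨n, by omega, by omega, ?_⟩
  set J := (2 * n - 1) / (4 * h + 1) with hJ
  have hJge : J0 ≤ J := by
    rw [hJ, Nat.le_div_iff_mul_le (by omega)]
    omega
  have hJ1 : J * (4 * h + 1) ≤ 2 * n - 1 := Nat.div_mul_le_self _ _
  have hJ2 : 2 * n - 1 < (J + 1) * (4 * h + 1) := by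
    rw [add_mul, one_mul]
    exact Nat.lt_div_mul_add (by omega)
  have hJ3 : 4 * n + 1 ≤ (8 * h + 5) * (J + 1) := by
    have e1 : (8 * h + 5) * (J + 1) = 2 * ((J + 1) * (4 * h + 1)) + 3 * (J + 1) := by ring
    rw [e1]
    generalize (J + 1) * (4 * h + 1) = X at hJ2 ⊢
    omega
  set r := 2 * n + J * (4 * h + 1) with hr
  have hrn : r < 4 * n := by omega
  -- inclusion
  set L := Lam (0 : V d) (2 * n) with hL
  have hsub : {S : Set (Ed d) | ¬ Hd.Good (Hd.confS S) n 0} ⊆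
      (Out d n (10 * n))ᶜ ∪ ⋃ q ∈ L ×ˢ L, BadE r q.1 q.2 := by
    intro S hS
    by_cases h1 : S ∈ Out d n (10 * n)
    · right
      obtain ⟨x, hx, y, hy, hxy⟩ := h1
      have hyL : y ∈ Lam (0 : V d) (10 * n) := by rw [mem_Lam]; exact hy.le
      have h2 : ∃ x ∈ Hd.Lam (0 : V d) n, Hd.Arm (Hd.confS S) 0 (10 * n) x :=
        ⟨x, hx, y, hy, Conn_iff.mpr ⟨Lam_mono 0 (by omega) hx, hyL, hxy⟩⟩
      have h3 : ¬ ∀ x ∈ Hd.Lam (0 : V d) (2 * n), ∀ y ∈ Hd.Lam (0 : V d) (2 * n),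
          Hd.Arm (Hd.confS S) 0 (4 * n) x → Hd.Arm (Hd.confS S) 0 (4 * n) y →
          Hd.Conn (Hd.confS S) (Hd.Lam 0 (8 * n)) x y := fun h => hS ⟨h2, h⟩
      push Not at h3
      obtain ⟨a, ha, b, hb, ⟨a', ha1, ha2⟩, ⟨b', hb1, hb2⟩, hab⟩ := h3
      have ha0 : a ∈ L := ha
      have hb0 : b ∈ L := hb
      have har : a ∈ Lam (0 : V d) r := Lam_mono 0 (by omega) ha0
      have hbr : b ∈ Lam (0 : V d) r := Lam_mono 0 (by omega) hb0
      have ha3 : dst a' 0 = 4 * n := ha1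
      have hb3 : dst b' 0 = 4 * n := hb1
      rw [Set.mem_iUnion₂]
      refine ⟨(a, b), mem_product.mpr ⟨ha0, hb0⟩, ?_, ?_, ?_⟩
      · exact exit_of hrn har ha3.ge (Conn_iff.mp ha2).2.2
      · exact exit_of hrn hbr hb3.ge (Conn_iff.mp hb2).2.2
      · intro hc
        apply hab
        apply Conn_iff.mpr
        refine ⟨Lam_mono 0 (by omega) ha0, Lam_mono 0 (by omega) hb0, ?_⟩
        exact hc.mono subset_rfl (by exact_mod_cast Lam_mono (0 : V d) (by omega : r ≤ 8 * n))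
    · exact Or.inl h1
  change (perc p).real _ ≤ ε
  refine (perc_mono p hsub).trans ((measureReal_union_le _ _).trans ?_)
  have h1 : (perc p).real (Out d n (10 * n))ᶜ ≤ ε / 2 := by
    rw [probReal_compl_eq_one_sub (out_loc (d := d)).meas]
    have := hm0 n (by omega) (10 * n) (by omega)
    linarith
  have h2 : (perc p).real (⋃ q ∈ L ×ˢ L, BadE r q.1 q.2) ≤ ε / 2 := by
    refine (measureReal_biUnion_finset_le _ _).trans ?_
    have h3 : ∀ q ∈ L ×ˢ L, (perc p).real (BadE r q.1 q.2) ≤ θ ^ J := by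
      intro q hq
      rw [mem_product] at hq
      exact BadE_prob hd hδ hδ1 hs' hn hq.1 hq.2 J hrn.le
    refine (sum_le_sum h3).trans ?_
    rw [sum_const, nsmul_eq_mul, card_product, card_Lam]
    refine le_trans ?_ (hJ0 J hJge)
    apply mul_le_mul_of_nonneg_right _ (pow_nonneg hθ0 _)
    have h4 : (2 * (2 * n) + 1) ^ d * (2 * (2 * n) + 1) ^ d ≤ ((8 * h + 5) * (J + 1)) ^ (2 * d) := by
      rw [← pow_add, ← two_mul]
      apply Nat.pow_le_pow_left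
      omega
    exact_mod_cast h4
  linarith

end Pool.Agent.Lib.MP_566bac_pr.Zd
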