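import Pool.Agent.Lib.MP_566bac_pr.Zd.Base
import Pool.Agent.Lib.MP_566bac_pr.Hd.DefsC

/-!
# The notion of positive density does not depend on the norm
-/

open Filter

namespace Pool.Agent.Lib.MP_566bac_pr.Zd

variable {d : ℕ}

/-- upper bound of a seminorm -/
lemma semi_upper (ν : Seminorm ℝ (Fin d → ℝ)) : ∃ b : ℝ, 1 ≤ b ∧ ∀ v, ν v ≤ b * ‖v‖ := by
  classical
  refine ⟨1 + ∑ i, ν (Pi.single i 1), ?_, ?_⟩
  · have : 0 ≤ ∑ i, ν (Pi.single i (1 : ℝ)) := Finset.sum_nonneg fun i _ => apply_nonneg ν _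
    linarith
  · intro v
    have h1 : v = ∑ i, v i • (Pi.single i (1 : ℝ) : Fin d → ℝ) := by
      ext j
      rw [Finset.sum_apply, Finset.sum_eq_single j]
      · simp
      · intro i _ hij
        simp [hij.symm]
      · intro h
        exact absurd (Finset.mem_univ j) h
    have h2 : ∀ s : Finset (Fin d), ν (∑ i ∈ s, v i • (Pi.single i (1 : ℝ) : Fin d → ℝ)) ≤
        ∑ i ∈ s, ‖v‖ * ν (Pi.single i 1) := by
      intro s
      induction s using Finset.induction_on with
      | empty => simp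
      | insert i s hi ih =>
        rw [Finset.sum_insert hi, Finset.sum_insert hi]
        refine (map_add_le_add ν _ _).trans (add_le_add ?_ ih)
        rw [map_smul_eq_mul]
        exact mul_le_mul_of_nonneg_right (norm_le_pi_norm v i) (apply_nonneg ν _)
    have h3 := h2 Finset.univ
    rw [← h1, ← Finset.mul_sum] at h3
    have h4 : 0 ≤ ‖v‖ := norm_nonneg v
    nlinarith

/-- lower bound of a norm -/
lemma semi_lower (hd : 0 < d) (ν : Seminorm ℝ (Fin d → ℝ)) (hν : ∀ v, ν v = 0 → v = 0) :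
    ∃ a : ℝ, 0 < a ∧ a ≤ 1 ∧ ∀ v, a * ‖v‖ ≤ ν v := by
  classical
  obtain ⟨b, hb1, hb⟩ := semi_upper ν
  have hcont : Continuous ν := by
    have hlip : LipschitzWith ⟨b, by linarith⟩ ν := by
      apply LipschitzWith.of_dist_le_mul
      intro x y
      rw [Real.dist_eq, dist_eq_norm]
      refine (abs_sub_map_le_sub ν x y).trans ?_
      exact hb (x - y)
    exact hlip.continuous
  have hcomp : IsCompact (Metric.sphere (0 : Fin d → ℝ) 1) := isCompact_sphere 0 1
  have hne : (Metric.sphere (0 : Fin d → ℝ) 1).Nonempty := by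
    refine ⟨fun _ => 1, ?_⟩
    rw [mem_sphere_zero_iff_norm]
    have : Nonempty (Fin d) := ⟨⟨0, hd⟩⟩
    rw [pi_norm_const]
    simp
  obtain ⟨v0, hv0, hmin⟩ := hcomp.exists_isMinOn hne hcont.continuousOn
  rw [mem_sphere_zero_iff_norm] at hv0
  have hpos : 0 < ν v0 := by
    rcases lt_or_eq_of_le (apply_nonneg ν v0) with h | h
    · exact h
    · have := hν v0 h.symm
      rw [this, norm_zero] at hv0
      exact absurd hv0 (by norm_num)
  refine ⟨min (ν v0) 1, lt_min hpos one_pos, min_le_right _ _, ?_⟩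
  intro v
  rcases eq_or_ne v 0 with rfl | hv
  · simp
  have hn : 0 < ‖v‖ := norm_pos_iff.mpr hv
  have h1 : ‖v‖⁻¹ • v ∈ Metric.sphere (0 : Fin d → ℝ) 1 := by
    rw [mem_sphere_zero_iff_norm, norm_smul, norm_inv, norm_norm, inv_mul_cancel₀ hn.ne']
  have h2 : ν v0 ≤ ν (‖v‖⁻¹ • v) := hmin h1
  rw [map_smul_eq_mul, norm_inv, norm_norm] at h2
  have h3 : min (ν v0) 1 ≤ ‖v‖⁻¹ * ν v := (min_le_left _ _).trans h2
  rw [← div_eq_inv_mul, le_div_iff₀ hn] at h3
  exact h3

lemma hball_eq (N : ℕ) : Hd.ball d N = (Lam (0 : V d) N : Set (V d)) := by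
  ext x
  rw [Finset.mem_coe, mem_Lam, dst_le]
  simp only [Hd.ball, Set.mem_ofPred_eq, Pi.zero_apply, sub_zero]

lemma hball_ncard (N : ℕ) : (Hd.ball d N).ncard = (2 * N + 1) ^ d := by
  rw [hball_eq, Set.ncard_coe_finset, card_Lam]

lemma hball_finite (N : ℕ) : (Hd.ball d N).Finite := by
  rw [hball_eq]
  exact Finset.finite_toSet _

lemma norm_cast_le {x : V d} {t : ℝ} (ht : 0 ≤ t) :
    ‖(fun i => (x i : ℝ))‖ ≤ t ↔ ∀ i, |(x i : ℝ)| ≤ t := by
  rw [pi_norm_le_iff_of_nonneg ht]
  simp only [Real.norm_eq_abs]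

/-- **Independence of the norm.** -/
theorem dens_of (hd : 0 < d) {A : Set (V d)} (hA : Hd.HasPositiveDensity A) :
    HasPositiveDensity A := by
  intro ν hν
  obtain ⟨b, hb1, hb⟩ := semi_upper ν
  obtain ⟨a, ha, ha1, ha'⟩ := semi_lower hd ν hν
  have hb0 : 0 < b := by linarith
  -- the density for the cubes
  unfold Hd.HasPositiveDensity at hA
  have hbd : IsBoundedUnder (· ≥ ·) atTop
      (fun N : ℕ => ((A ∩ Hd.ball d N).ncard : ℝ) / ((Hd.ball d N).ncard : ℝ)) :=
    isBoundedUnder_of ⟨0, fun N => by positivity⟩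
  set c := liminf (fun N : ℕ => ((A ∩ Hd.ball d N).ncard : ℝ) / ((Hd.ball d N).ncard : ℝ)) atTop / 2
    with hc
  have hc0 : 0 < c := by rw [hc]; linarith
  have h1 := eventually_lt_of_lt_liminf (show c < _ by rw [hc]; exact half_lt_self hA) hbd
  obtain ⟨N0, hN0⟩ := eventually_atTop.mp h1
  set κ := a / (3 * b) with hκ
  have hκ0 : 0 < κ := by positivity
  -- the bound
  have key : ∀ᶠ N : ℕ in atTop, c * κ ^ d ≤
      ((A ∩ ball ν N).ncard : ℝ) / ((ball ν N).ncard : ℝ) := by
    have h2 : ∀ᶠ N : ℕ in atTop, b * (N0 + 2) ≤ N :=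
      tendsto_natCast_atTop_atTop.eventually_ge_atTop _
    filter_upwards [h2] with N hN
    have hN1 : (1 : ℝ) ≤ N := by nlinarith [show (0 : ℝ) ≤ N0 by positivity]
    set m := ⌊(N : ℝ) / b⌋₊ with hm
    set M := ⌊(N : ℝ) / a⌋₊ with hM
    have hm1 : (m : ℝ) ≤ N / b := Nat.floor_le (by positivity)
    have hm2 : (N : ℝ) / b < m + 1 := Nat.lt_floor_add_one _
    have hM1 : (M : ℝ) ≤ N / a := Nat.floor_le (by positivity)
    have hNb : (N0 : ℝ) + 2 ≤ N / b := by
      rw [le_div_iff₀ hb0]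
      linarith
    have hmN0 : N0 ≤ m := by
      have : (N0 : ℝ) < m := by linarith
      exact_mod_cast this.le
    have hsub1 : Hd.ball d m ⊆ ball ν N := by
      intro x hx
      change ν (fun i => (x i : ℝ)) ≤ N
      refine (hb _).trans ?_
      have h3 : ‖(fun i => (x i : ℝ))‖ ≤ m := by
        rw [norm_cast_le (by positivity)]
        intro i
        have := hx i
        exact_mod_cast this
      calc b * ‖(fun i => (x i : ℝ))‖ ≤ b * (N / b) :=
            mul_le_mul_of_nonneg_left (h3.trans hm1) hb0.le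
        _ = N := by field_simp
    have hsub2 : ball ν N ⊆ Hd.ball d M := by
      intro x hx i
      have h3 : a * ‖(fun i => (x i : ℝ))‖ ≤ N := (ha' _).trans hx
      have h4 : ‖(fun i => (x i : ℝ))‖ ≤ N / a := by
        rw [le_div_iff₀ ha]
        linarith
      have h5 := (norm_cast_le (by positivity)).mp h4 i
      have h6 : (((x i).natAbs : ℕ) : ℝ) ≤ N / a := by
        rw [Nat.cast_natAbs]
        push_cast
        exact h5
      have h7 : (x i).natAbs ≤ M := Nat.le_floor h6
      rw [Int.abs_eq_natAbs]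
      exact_mod_cast h7
    have hfin : (ball ν N).Finite := (hball_finite M).subset hsub2
    have hcard1 : ((A ∩ Hd.ball d m).ncard : ℝ) ≤ ((A ∩ ball ν N).ncard : ℝ) := by
      exact_mod_cast Set.ncard_le_ncard (Set.inter_subset_inter_right A hsub1)
        (hfin.subset Set.inter_subset_right)
    have hcard2 : ((ball ν N).ncard : ℝ) ≤ (2 * M + 1) ^ d := by
      have h3 := Set.ncard_le_ncard hsub2 (hball_finite M)
      rw [hball_ncard] at h3
      exact_mod_cast h3
    have hcard3 : 0 < ((ball ν N).ncard : ℝ) := by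
      have : 0 < (ball ν N).ncard := by
        rw [Set.ncard_pos hfin]
        refine ⟨0, ?_⟩
        change ν (fun i => (((0 : V d) i : ℤ) : ℝ)) ≤ N
        have h3 : (fun i => (((0 : V d) i : ℤ) : ℝ)) = (0 : Fin d → ℝ) := by
          ext i
          simp
        rw [h3, map_zero]
        positivity
      exact_mod_cast this
    have h3 := hN0 m hmN0
    rw [hball_ncard, lt_div_iff₀ (by positivity)] at h3
    push_cast at h3
    have h4 : κ * (2 * M + 1) ≤ 2 * m + 1 := by
      have e1 : 2 * (M : ℝ) + 1 ≤ 3 * N / a := by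
        have : (1 : ℝ) ≤ N / a := by
          rw [le_div_iff₀ ha]
          linarith
        calc 2 * (M : ℝ) + 1 ≤ 2 * (N / a) + N / a := by linarith
          _ = 3 * N / a := by ring
      have e2 : (N : ℝ) / b ≤ 2 * m + 1 := by linarith
      calc κ * (2 * M + 1) ≤ κ * (3 * N / a) := mul_le_mul_of_nonneg_left e1 hκ0.le
        _ = N / b := by
            rw [hκ]
            field_simp
        _ ≤ 2 * m + 1 := e2
    rw [le_div_iff₀ hcard3]
    calc c * κ ^ d * ((ball ν N).ncard : ℝ) ≤ c * κ ^ d * (2 * M + 1) ^ d :=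
          mul_le_mul_of_nonneg_left hcard2 (by positivity)
      _ = c * (κ * (2 * M + 1)) ^ d := by rw [mul_pow]; ring
      _ ≤ c * (2 * m + 1) ^ d := by
          apply mul_le_mul_of_nonneg_left _ hc0.le
          exact pow_le_pow_left₀ (by positivity) h4 d
      _ ≤ ((A ∩ Hd.ball d m).ncard : ℝ) := h3.le
      _ ≤ _ := hcard1
  refine lt_of_lt_of_le (show 0 < c * κ ^ d by positivity) ?_
  refine le_liminf_of_le ?_ key
  have hle : ∀ N : ℕ, ((A ∩ ball ν N).ncard : ℝ) / ((ball ν N).ncard : ℝ) ≤ 1 := by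
    intro N
    by_cases hfin : (ball ν N).Finite
    · apply div_le_one_of_le₀ _ (by positivity)
      exact_mod_cast Set.ncard_le_ncard Set.inter_subset_right hfin
    · rw [Set.Infinite.ncard hfin]
      simp
  exact IsBoundedUnder.isCoboundedUnder_ge (isBoundedUnder_of ⟨1, hle⟩)

end Pool.Agent.Lib.MP_566bac_pr.Zd
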