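import Pool.Agent.Lib.MP_566bac_pr.Zd.Planar
import Pool.Agent.Lib.MP_566bac_pr.Zd.Bridge
import Pool.Agent.Lib.MP_566bac_pr.Zd.Dens
import Pool.Agent.Lib.MP_566bac_pr.Hd.R3
import Pool.Agent.Lib.MP_566bac_pr.Hd.LW
import Pool.Agent.Lib.MP_566bac_pr.Hd.MAIN

/-!
# The theorem for all dimensions
-/

open MeasureTheory ProbabilityTheory unitInterval SimpleGraph Filter

namespace Pool.Agent.Lib.MP_566bac_pr.Zd

lemma crit_lt' {d : ℕ} (hd : 0 < d) {p : I} (hp : criticalProbability d < (p : ℝ)) :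
    Hd.criticalProbability d < p := by
  have hne : ({q : ℝ | ∃ hq : q ∈ Set.Icc (0 : ℝ) 1,
      0 < setBernoulli (lattice d).edgeSet ⟨q, hq⟩ {S | ∃ C, IsInfiniteCluster S C}}).Nonempty :=
    ⟨1, ⟨zero_le_one, le_rfl⟩, perc_one hd⟩
  obtain ⟨q, ⟨hq, hq'⟩, hqp⟩ := exists_lt_of_csInf_lt hne hp
  have h1 : Hd.criticalProbability d ≤ ⟨q, hq⟩ := sInf_le hq'
  exact lt_of_le_of_lt h1 hqp

/-- **The theorem for all dimensions**, in terms of the definitions in `Hd`. -/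
theorem main_all' {d : ℕ} (hd : 2 ≤ d) {p : I} (hp : Hd.criticalProbability d < p) (hp1 : p < 1) :
    ∀ᵐ S ∂(setBernoulli (Hd.lattice d).edgeSet p),
      ∃ C : Set (Fin d → ℤ), Hd.IsInfiniteCluster S C ∧
        (∀ C' : Set (Fin d → ℤ), Hd.IsInfiniteCluster S C' → C' = C) ∧
        ∃ h : (Fin d → ℤ) → ℝ, Hd.IsHarmonicOn S C h ∧ (∃ x ∈ C, ∃ y ∈ C, h x ≠ h y) ∧
          Hd.HasPositiveDensity {x | x ∈ C ∧ |h x| ≤ 1} := by
  rcases Nat.eq_or_lt_of_le hd with rfl | hd3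
  · exact planar hp
  · have h0 : (0 : ℝ) < p := by
      have h1 : (0 : I) < p := lt_of_le_of_lt bot_le hp
      exact h1
    have h1 : (p : ℝ) < 1 := hp1
    have heps : 0 < Hd.eps0 d := by
      unfold Hd.eps0
      positivity
    obtain ⟨n, -, hn1, hn2⟩ := exists_good hd3 hp heps 1
    rw [Hd.good_law] at hn2
    exact Hd.main_decay d hd3 p h0 h1 (Hd.decay_of_eps0 hd p.2.1 p.2.2 hn1 hn2)

/-- **The theorem for all dimensions.** -/
theorem main_all {d : ℕ} (hd : 2 ≤ d) {p : I} (hp : criticalProbability d < (p : ℝ))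
    (hp1 : (p : ℝ) < 1) :
    ∀ᵐ S ∂(setBernoulli (lattice d).edgeSet p),
      ∃ C : Set (V d), IsInfiniteCluster S C ∧
        (∀ C' : Set (V d), IsInfiniteCluster S C' → C' = C) ∧
        ∃ h : V d → ℝ, IsHarmonicOn S C h ∧ (∃ x ∈ C, ∃ y ∈ C, h x ≠ h y) ∧
          HasPositiveDensity {x | x ∈ C ∧ |h x| ≤ 1} := by
  have h1 := main_all' hd (crit_lt' (by omega) hp) hp1
  have h2 : ∀ᵐ S ∂(setBernoulli (lattice d).edgeSet p),
      ∃ C : Set (Fin d → ℤ), Hd.IsInfiniteCluster S C ∧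
        (∀ C' : Set (Fin d → ℤ), Hd.IsInfiniteCluster S C' → C' = C) ∧
        ∃ h : (Fin d → ℤ) → ℝ, Hd.IsHarmonicOn S C h ∧ (∃ x ∈ C, ∃ y ∈ C, h x ≠ h y) ∧
          Hd.HasPositiveDensity {x | x ∈ C ∧ |h x| ≤ 1} := h1
  filter_upwards [h2] with S hS
  obtain ⟨C, hC, hu, h, hh, hne, hpos⟩ := hS
  exact ⟨C, hC, hu, h, hh, hne, dens_of (by omega) hpos⟩

end Pool.Agent.Lib.MP_566bac_pr.Zd
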