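import Mathlib

/-!
# Finite products of Bernoulli measures with arbitrary weights

Events are sets of sets of coordinates; `Pr w E A` is the probability of the event `A` for the
random subset of the finite set `E` in which the coordinate `e` is present with probability `w e`.
-/

open Finset

namespace Pool.Agent.Lib.MP_566bac_pr.Zd

variable {ι : Type*}

/-- the event `A` is determined by the coordinates in `E` -/
def Det (E : Finset ι) (A : Set (Set ι)) : Prop :=
  ∀ S S' : Set ι, (∀ e ∈ E, (e ∈ S ↔ e ∈ S')) → S ∈ A → S' ∈ A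

/-- increasing events -/
def Inc (A : Set (Set ι)) : Prop := ∀ S S' : Set ι, S ⊆ S' → S ∈ A → S' ∈ A

lemma det_iff {E : Finset ι} {A : Set (Set ι)} (hA : Det E A) {S S' : Set ι}
    (h : ∀ e ∈ E, (e ∈ S ↔ e ∈ S')) : S ∈ A ↔ S' ∈ A :=
  ⟨hA S S' h, hA S' S fun e he => (h e he).symm⟩

lemma det_mono {E F : Finset ι} {A : Set (Set ι)} (hEF : E ⊆ F) (hA : Det E A) : Det F A :=
  fun S S' h => hA S S' fun e he => h e (hEF he)

lemma det_compl {E : Finset ι} {A : Set (Set ι)} (hA : Det E A) : Det E Aᶜ := by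
  intro S S' h h1 h2
  exact h1 (hA S' S (fun e he => (h e he).symm) h2)

lemma det_inter {E : Finset ι} {A B : Set (Set ι)} (hA : Det E A) (hB : Det E B) :
    Det E (A ∩ B) := fun S S' h h1 => ⟨hA S S' h h1.1, hB S S' h h1.2⟩

lemma det_union {E : Finset ι} {A B : Set (Set ι)} (hA : Det E A) (hB : Det E B) :
    Det E (A ∪ B) := fun S S' h h1 => h1.imp (hA S S' h) (hB S S' h)

lemma det_of {E : Finset ι} {A : Set (Set ι)}
    (h : ∀ S S' : Set ι, (∀ e ∈ E, (e ∈ S ↔ e ∈ S')) → (S ∈ A ↔ S' ∈ A)) : Det E A :=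
  fun S S' h1 h2 => (h S S' h1).mp h2

lemma Inc.inter {A B : Set (Set ι)} (hA : Inc A) (hB : Inc B) : Inc (A ∩ B) :=
  fun S S' h h1 => ⟨hA S S' h h1.1, hB S S' h h1.2⟩

lemma Inc.union {A B : Set (Set ι)} (hA : Inc A) (hB : Inc B) : Inc (A ∪ B) :=
  fun S S' h h1 => h1.imp (hA S S' h) (hB S S' h)

section
open Classical

/-- the weight of a configuration -/
noncomputable def wt (w : ι → ℝ) (E ω : Finset ι) : ℝ := (∏ e ∈ ω, w e) * ∏ e ∈ E \ ω, (1 - w e)

/-- the probability of an event in finite volume -/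
noncomputable def Pr (w : ι → ℝ) (E : Finset ι) (A : Set (Set ι)) : ℝ :=
  ∑ ω ∈ E.powerset, if (ω : Set ι) ∈ A then wt w E ω else 0

/-- admissible weights -/
def Wt (w : ι → ℝ) : Prop := ∀ e, 0 ≤ w e ∧ w e ≤ 1

lemma wt_nonneg {w : ι → ℝ} (hw : Wt w) (E ω : Finset ι) : 0 ≤ wt w E ω := by
  unfold wt
  apply mul_nonneg
  · exact prod_nonneg fun e _ => (hw e).1
  · exact prod_nonneg fun e _ => by linarith [(hw e).2]

lemma sum_wt (w : ι → ℝ) (E : Finset ι) : ∑ ω ∈ E.powerset, wt w E ω = 1 := by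
  have h := (Finset.prod_add (fun e => w e) (fun e => 1 - w e) E).symm
  unfold wt
  rw [h]
  simp

lemma Pr_eq (w : ι → ℝ) (E : Finset ι) (A : Set (Set ι)) :
    Pr w E A = ∑ ω ∈ E.powerset.filter (fun ω : Finset ι => (ω : Set ι) ∈ A), wt w E ω := by
  rw [Finset.sum_filter]
  rfl

lemma Pr_nonneg {w : ι → ℝ} (hw : Wt w) (E : Finset ι) (A : Set (Set ι)) : 0 ≤ Pr w E A := by
  rw [Pr_eq]
  exact sum_nonneg fun ω _ => wt_nonneg hw E ω

lemma Pr_univ (w : ι → ℝ) (E : Finset ι) : Pr w E Set.univ = 1 := by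
  rw [Pr_eq, ← sum_wt w E]
  congr 1
  ext ω
  simp

lemma Pr_empty_set (w : ι → ℝ) (E : Finset ι) : Pr w E ∅ = 0 := by
  rw [Pr_eq]
  simp

lemma Pr_mono' {w : ι → ℝ} (hw : Wt w) {E : Finset ι} {A B : Set (Set ι)}
    (hAB : ∀ ω : Finset ι, ω ⊆ E → (ω : Set ι) ∈ A → (ω : Set ι) ∈ B) :
    Pr w E A ≤ Pr w E B := by
  rw [Pr_eq, Pr_eq]
  apply sum_le_sum_of_subset_of_nonneg
  · intro ω hω
    rw [mem_filter, mem_powerset] at hω ⊢
    exact ⟨hω.1, hAB ω hω.1 hω.2⟩
  · intro ω _ _
    exact wt_nonneg hw E ω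

lemma Pr_mono {w : ι → ℝ} (hw : Wt w) {E : Finset ι} {A B : Set (Set ι)} (hAB : A ⊆ B) :
    Pr w E A ≤ Pr w E B := Pr_mono' hw fun _ _ h => hAB h

lemma Pr_le_one {w : ι → ℝ} (hw : Wt w) (E : Finset ι) (A : Set (Set ι)) : Pr w E A ≤ 1 := by
  rw [← Pr_univ w E]
  exact Pr_mono hw (Set.subset_univ _)

lemma Pr_congr {w : ι → ℝ} {E : Finset ι} {A B : Set (Set ι)}
    (hAB : ∀ ω : Finset ι, ω ⊆ E → ((ω : Set ι) ∈ A ↔ (ω : Set ι) ∈ B)) :
    Pr w E A = Pr w E B := by
  unfold Pr
  apply sum_congr rfl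
  intro ω hω
  rw [mem_powerset] at hω
  simp only [hAB ω hω]

lemma Pr_congr_w {w w' : ι → ℝ} {E : Finset ι} (h : ∀ e ∈ E, w e = w' e) (A : Set (Set ι)) :
    Pr w E A = Pr w' E A := by
  unfold Pr
  apply sum_congr rfl
  intro ω hω
  rw [mem_powerset] at hω
  have h1 : wt w E ω = wt w' E ω := by
    unfold wt
    congr 1
    · exact prod_congr rfl fun e he => h e (hω he)
    · exact prod_congr rfl fun e he => by rw [h e (mem_sdiff.mp he).1]
  rw [h1]

lemma Pr_add (w : ι → ℝ) (E : Finset ι) {A B : Set (Set ι)} (h : Disjoint A B) :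
    Pr w E (A ∪ B) = Pr w E A + Pr w E B := by
  unfold Pr
  rw [← sum_add_distrib]
  apply sum_congr rfl
  intro ω _
  by_cases h1 : (ω : Set ι) ∈ A
  · have h2 : (ω : Set ι) ∉ B := fun h2 => Set.disjoint_left.mp h h1 h2
    simp [h1, h2]
  · simp [h1]

lemma Pr_union_le {w : ι → ℝ} (hw : Wt w) (E : Finset ι) (A B : Set (Set ι)) :
    Pr w E (A ∪ B) ≤ Pr w E A + Pr w E B := by
  have h1 : A ∪ B = A ∪ (B \ A) := by rw [Set.union_sdiff_self]
  rw [h1, Pr_add w E Set.disjoint_sdiff_right]
  have := Pr_mono hw (E := E) (Set.sdiff_subset : B \ A ⊆ B)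
  linarith

lemma Pr_compl (w : ι → ℝ) (E : Finset ι) (A : Set (Set ι)) : Pr w E Aᶜ = 1 - Pr w E A := by
  have h := Pr_add w E (disjoint_compl_right : Disjoint A Aᶜ)
  rw [Set.union_compl_self, Pr_univ] at h
  linarith

lemma Pr_biUnion_le {w : ι → ℝ} (hw : Wt w) (E : Finset ι) {κ : Type*} (s : Finset κ)
    (A : κ → Set (Set ι)) : Pr w E (⋃ k ∈ s, A k) ≤ ∑ k ∈ s, Pr w E (A k) := by
  induction s using Finset.induction_on with
  | empty => simp [Pr_empty_set]
  | insert k s hk ih =>
    rw [Finset.set_biUnion_insert, sum_insert hk]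
    exact (Pr_union_le hw E _ _).trans (by linarith)

/-- the values of a function partition the space -/
lemma Pr_partition (w : ι → ℝ) (E : Finset ι) {κ : Type*} (s : Finset κ) (f : Set ι → κ)
    (A : Set (Set ι)) (hf : ∀ ω : Finset ι, ω ⊆ E → (ω : Set ι) ∈ A → f ω ∈ s) :
    Pr w E A = ∑ k ∈ s, Pr w E (A ∩ {S | f S = k}) := by
  unfold Pr
  rw [sum_comm]
  apply sum_congr rfl
  intro ω hω
  rw [mem_powerset] at hω
  by_cases h1 : (ω : Set ι) ∈ A
  · have h2 := hf ω hω h1
    simp only [h1, if_true, Set.mem_inter_iff, true_and, Set.mem_ofPred_eq]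
    rw [Finset.sum_ite_eq s (f ω) (fun _ => wt w E ω), if_pos h2]
  · simp [h1]

/-- sums over disjoint events -/
lemma Pr_sum_le {w : ι → ℝ} (hw : Wt w) (E : Finset ι) {κ : Type*} (s : Finset κ)
    (A : κ → Set (Set ι)) (B : Set (Set ι)) (hAB : ∀ k ∈ s, A k ⊆ B)
    (hd : ∀ k ∈ s, ∀ l ∈ s, k ≠ l → Disjoint (A k) (A l)) :
    ∑ k ∈ s, Pr w E (A k) ≤ Pr w E B := by
  have h1 : Pr w E (⋃ k ∈ s, A k) = ∑ k ∈ s, Pr w E (A k) := by
    induction s using Finset.induction_on with
    | empty => simp [Pr_empty_set]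
    | insert k s hk ih =>
      rw [Finset.set_biUnion_insert, sum_insert hk, Pr_add, ih]
      · exact fun l hl => hAB l (mem_insert_of_mem hl)
      · exact fun l hl m hm => hd l (mem_insert_of_mem hl) m (mem_insert_of_mem hm)
      · rw [Set.disjoint_iUnion₂_right]
        intro l hl
        refine hd k (mem_insert_self _ _) l (mem_insert_of_mem hl) ?_
        rintro rfl
        exact hk hl
  rw [← h1]
  exact Pr_mono hw (Set.iUnion₂_subset hAB)

lemma Pr_insert {w : ι → ℝ} {E : Finset ι} {e : ι} (he : e ∉ E) (A : Set (Set ι)) :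
    Pr w (insert e E) A =
      w e * Pr w E {S | insert e S ∈ A} + (1 - w e) * Pr w E {S | S \ {e} ∈ A} := by
  unfold Pr
  rw [Finset.sum_powerset_insert he, mul_sum, mul_sum, add_comm]
  congr 1
  · apply sum_congr rfl
    intro ω hω
    rw [mem_powerset] at hω
    have h1 : e ∉ ω := fun h => he (hω h)
    have h2 : wt w (insert e E) (insert e ω) = w e * wt w E ω := by
      unfold wt
      rw [prod_insert h1, mul_assoc]
      congr 3
      ext x
      simp only [mem_sdiff, mem_insert]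
      constructor
      · rintro ⟨h3 | h3, h4⟩
        · exact absurd (Or.inl h3) h4
        · exact ⟨h3, fun h5 => h4 (Or.inr h5)⟩
      · rintro ⟨h3, h4⟩
        refine ⟨Or.inr h3, ?_⟩
        rintro (rfl | h5)
        · exact he h3
        · exact h4 h5
    rw [Finset.coe_insert, h2]
    simp only [Set.mem_ofPred_eq]
    split_ifs <;> ring
  · apply sum_congr rfl
    intro ω hω
    rw [mem_powerset] at hω
    have h1 : e ∉ ω := fun h => he (hω h)
    have h2 : (ω : Set ι) \ {e} = ω := by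
      ext x
      simp only [Set.mem_sdiff, Finset.mem_coe, Set.mem_singleton_iff]
      refine ⟨fun h => h.1, fun h => ⟨h, ?_⟩⟩
      rintro rfl
      exact h1 h
    have h3 : wt w (insert e E) ω = (1 - w e) * wt w E ω := by
      unfold wt
      rw [Finset.insert_sdiff_of_notMem _ h1, prod_insert (by simp [he])]
      ring
    rw [h3]
    simp only [Set.mem_ofPred_eq, h2]
    split_ifs <;> ring

lemma Pr_empty (w : ι → ℝ) (A : Set (Set ι)) : Pr w ∅ A = if (∅ : Set ι) ∈ A then 1 else 0 := by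
  simp [Pr, wt]

/-- conditioning on the configuration in a part of the volume -/
lemma Pr_union {w : ι → ℝ} {E F : Finset ι} (hEF : Disjoint E F) (A : Set (Set ι)) :
    Pr w (E ∪ F) A = ∑ η ∈ E.powerset, wt w E η * Pr w F {S | (η : Set ι) ∪ (S \ E) ∈ A} := by
  have hd1 : ∀ x ∈ E.powerset ×ˢ F.powerset, (x.1 ∪ x.2) ∩ E = x.1 := by
    intro x hx
    rw [mem_product, mem_powerset, mem_powerset] at hx
    ext e
    simp only [mem_inter, mem_union]
    constructor
    · rintro ⟨h1 | h1, h2⟩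
      · exact h1
      · exact absurd (hx.2 h1) (Finset.disjoint_left.mp hEF h2)
    · intro h
      exact ⟨Or.inl h, hx.1 h⟩
  have hd2 : ∀ x ∈ E.powerset ×ˢ F.powerset, (x.1 ∪ x.2) ∩ F = x.2 := by
    intro x hx
    rw [mem_product, mem_powerset, mem_powerset] at hx
    ext e
    simp only [mem_inter, mem_union]
    constructor
    · rintro ⟨h1 | h1, h2⟩
      · exact absurd h2 (Finset.disjoint_left.mp hEF (hx.1 h1))
      · exact h1
    · intro h
      exact ⟨Or.inr h, hx.2 h⟩
  unfold Pr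
  simp_rw [mul_sum]
  rw [← Finset.sum_product']
  symm
  refine Finset.sum_nbij' (fun x => x.1 ∪ x.2) (fun ω => (ω ∩ E, ω ∩ F)) ?_ ?_ ?_ ?_ ?_
  · intro x hx
    rw [mem_product, mem_powerset, mem_powerset] at hx
    rw [mem_powerset]
    exact Finset.union_subset_union hx.1 hx.2
  · intro ω _
    rw [mem_product, mem_powerset, mem_powerset]
    exact ⟨Finset.inter_subset_right, Finset.inter_subset_right⟩
  · intro x hx
    exact Prod.ext (hd1 x hx) (hd2 x hx)
  · intro ω hω
    rw [mem_powerset] at hω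
    rw [← Finset.inter_union_distrib_left]
    exact Finset.inter_eq_left.mpr hω
  · intro x hx
    rw [mem_product, mem_powerset, mem_powerset] at hx
    have h0 : (x.2 : Set ι) \ E = x.2 := by
      ext e
      simp only [Set.mem_sdiff, Finset.mem_coe]
      exact ⟨fun h => h.1, fun h => ⟨h, fun h1 => Finset.disjoint_left.mp hEF h1 (hx.2 h)⟩⟩
    have h1 : wt w (E ∪ F) (x.1 ∪ x.2) = wt w E x.1 * wt w F x.2 := by
      unfold wt
      have hx12 : Disjoint x.1 x.2 := Finset.disjoint_of_subset_left hx.1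
        (Finset.disjoint_of_subset_right hx.2 hEF)
      have e1 : (E ∪ F) \ (x.1 ∪ x.2) = (E \ x.1) ∪ (F \ x.2) := by
        ext e
        simp only [mem_sdiff, mem_union]
        constructor
        · rintro ⟨h1 | h1, h2⟩
          · exact Or.inl ⟨h1, fun h => h2 (Or.inl h)⟩
          · exact Or.inr ⟨h1, fun h => h2 (Or.inr h)⟩
        · rintro (⟨h1, h2⟩ | ⟨h1, h2⟩)
          · exact ⟨Or.inl h1, fun h => h.elim h2 fun h3 =>
              Finset.disjoint_left.mp hEF h1 (hx.2 h3)⟩
          · exact ⟨Or.inr h1, fun h => h.elim (fun h3 =>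
              Finset.disjoint_left.mp hEF (hx.1 h3) h1) h2⟩
      have e2 : Disjoint (E \ x.1) (F \ x.2) := Finset.disjoint_of_subset_left sdiff_subset
        (Finset.disjoint_of_subset_right sdiff_subset hEF)
      rw [prod_union hx12, e1, prod_union e2]
      ring
    simp only [Set.mem_ofPred_eq, h0, h1, Finset.coe_union]
    split_ifs <;> ring

/-- more coordinates do not change the probability of an event -/
lemma Pr_extend {w : ι → ℝ} {E F : Finset ι} (hEF : E ⊆ F) {A : Set (Set ι)} (hA : Det E A) :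
    Pr w F A = Pr w E A := by
  have h1 : F = (F \ E) ∪ E := (Finset.sdiff_union_of_subset hEF).symm
  rw [h1, Pr_union sdiff_disjoint]
  have h2 : ∀ η ∈ (F \ E).powerset,
      Pr w E {S | (η : Set ι) ∪ (S \ ((F \ E : Finset ι) : Set ι)) ∈ A} = Pr w E A := by
    intro η hη
    rw [mem_powerset] at hη
    apply Pr_congr
    intro ω hω
    simp only [Set.mem_ofPred_eq]
    apply det_iff hA
    intro e he
    simp only [Set.mem_union, Finset.mem_coe, Set.mem_sdiff, mem_sdiff]
    constructor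
    · rintro (h3 | h3)
      · exact absurd he (mem_sdiff.mp (hη h3)).2
      · exact h3.1
    · intro h3
      exact Or.inr ⟨h3, fun h4 => h4.2 he⟩
  rw [sum_congr rfl fun η hη => by rw [h2 η hη], ← sum_mul, sum_wt, one_mul]

/-- **Independence.** -/
lemma Pr_indep {w : ι → ℝ} {E F U : Finset ι} (hE : E ⊆ U) (hF : F ⊆ U) (hEF : Disjoint E F)
    {A B : Set (Set ι)} (hA : Det E A) (hB : Det F B) :
    Pr w U (A ∩ B) = Pr w U A * Pr w U B := by
  have hA' := det_mono (Finset.subset_union_left : E ⊆ E ∪ F) hA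
  have hB' := det_mono (Finset.subset_union_right : F ⊆ E ∪ F) hB
  rw [Pr_extend (Finset.union_subset hE hF) (det_inter hA' hB'), Pr_extend hE hA, Pr_extend hF hB,
    Pr_union hEF]
  have h1 : ∀ η ∈ E.powerset, wt w E η * Pr w F {S | (η : Set ι) ∪ (S \ (E : Set ι)) ∈ A ∩ B} =
      (if (η : Set ι) ∈ A then wt w E η else 0) * Pr w F B := by
    intro η hη
    rw [mem_powerset] at hη
    have h2 : Pr w F {S | (η : Set ι) ∪ (S \ (E : Set ι)) ∈ A ∩ B} =
        if (η : Set ι) ∈ A then Pr w F B else 0 := by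
      have e1 : ∀ S : Set ι, ((η : Set ι) ∪ (S \ (E : Set ι)) ∈ A ↔ (η : Set ι) ∈ A) := by
        intro S
        apply det_iff hA
        intro e he
        simp [he]
      have e2 : ∀ S : Set ι, ((η : Set ι) ∪ (S \ (E : Set ι)) ∈ B ↔ S ∈ B) := by
        intro S
        apply det_iff hB
        intro e he
        have h3 : e ∉ E := fun h => Finset.disjoint_left.mp hEF h he
        have h4 : e ∉ η := fun h => h3 (hη h)
        simp [h3, h4]
      split_ifs with h
      · apply Pr_congr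
        intro ω _
        simp only [Set.mem_ofPred_eq, Set.mem_inter_iff, e1, e2, h, true_and]
      · rw [← Pr_empty_set w F]
        apply Pr_congr
        intro ω _
        simp only [Set.mem_ofPred_eq, Set.mem_inter_iff, e1, h, false_and, Set.mem_empty_iff_false]
    rw [h2]
    split_ifs <;> ring
  rw [sum_congr rfl h1, ← sum_mul]
  rfl

lemma inc_one {A : Set (Set ι)} (hA : Inc A) (e : ι) : Inc {S | insert e S ∈ A} := by
  intro S S' h h1
  exact hA _ _ (Set.insert_subset_insert h) h1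

lemma inc_zero {A : Set (Set ι)} (hA : Inc A) (e : ι) : Inc {S | S \ {e} ∈ A} := by
  intro S S' h h1
  exact hA _ _ (Set.sdiff_subset_sdiff_left h) h1

lemma inc_zero_one {A : Set (Set ι)} (hA : Inc A) (e : ι) :
    {S | S \ {e} ∈ A} ⊆ {S | insert e S ∈ A} := by
  intro S h
  exact hA _ _ (Set.sdiff_subset.trans (Set.subset_insert e S)) h

/-- **Positive association.** -/
lemma Pr_fkg {w : ι → ℝ} (hw : Wt w) (E : Finset ι) :
    ∀ {A B : Set (Set ι)}, Inc A → Inc B → Pr w E A * Pr w E B ≤ Pr w E (A ∩ B) := by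
  induction E using Finset.induction_on with
  | empty =>
    intro A B _ _
    rw [Pr_empty, Pr_empty, Pr_empty]
    by_cases ha : (∅ : Set ι) ∈ A <;> by_cases hb : (∅ : Set ι) ∈ B <;> simp [ha, hb]
  | insert e E he ih =>
    intro A B hA hB
    rw [Pr_insert he, Pr_insert he, Pr_insert he]
    have i1 := ih (inc_one hA e) (inc_one hB e)
    have i0 := ih (inc_zero hA e) (inc_zero hB e)
    have m1 := Pr_mono hw (E := E) (inc_zero_one hA e)
    have m2 := Pr_mono hw (E := E) (inc_zero_one hB e)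
    have e1 : {S : Set ι | insert e S ∈ A ∩ B} = {S | insert e S ∈ A} ∩ {S | insert e S ∈ B} := rfl
    have e2 : {S : Set ι | S \ {e} ∈ A ∩ B} = {S | S \ {e} ∈ A} ∩ {S | S \ {e} ∈ B} := rfl
    rw [e1, e2]
    obtain ⟨h0, h1⟩ := hw e
    set q := w e
    set a1 := Pr w E {S | insert e S ∈ A}
    set a0 := Pr w E {S | S \ {e} ∈ A}
    set b1 := Pr w E {S | insert e S ∈ B}
    set b0 := Pr w E {S | S \ {e} ∈ B}
    have k1 : 0 ≤ q * (1 - q) * ((a1 - a0) * (b1 - b0)) := by
      have : 0 ≤ 1 - q := by linarith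
      have t1 : 0 ≤ a1 - a0 := by linarith
      have t2 : 0 ≤ b1 - b0 := by linarith
      positivity
    have k2 : q * (a1 * b1) ≤ q * Pr w E ({S | insert e S ∈ A} ∩ {S | insert e S ∈ B}) :=
      mul_le_mul_of_nonneg_left i1 h0
    have k3 : (1 - q) * (a0 * b0) ≤ (1 - q) * Pr w E ({S | S \ {e} ∈ A} ∩ {S | S \ {e} ∈ B}) :=
      mul_le_mul_of_nonneg_left i0 (by linarith)
    nlinarith

/-- decreasing events are positively correlated -/
lemma Pr_fkg_dec {w : ι → ℝ} (hw : Wt w) (E : Finset ι) {A B : Set (Set ι)} (hA : Inc Aᶜ)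
    (hB : Inc Bᶜ) : Pr w E A * Pr w E B ≤ Pr w E (A ∩ B) := by
  have h := Pr_fkg hw E hA hB
  rw [Pr_compl, Pr_compl] at h
  have h2 : Pr w E (Aᶜ ∩ Bᶜ) = 1 - Pr w E (A ∪ B) := by
    rw [← Pr_compl, Set.compl_union]
  have h3 : Pr w E (A ∪ B) + Pr w E (A ∩ B) = Pr w E A + Pr w E B := by
    have e1 := Pr_add w E (A := A) (B := B \ A) Set.disjoint_sdiff_right
    rw [Set.union_sdiff_self] at e1
    have e2 := Pr_add w E (A := A ∩ B) (B := B \ A)
      (Set.disjoint_of_subset_left Set.inter_subset_left Set.disjoint_sdiff_right)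
    have e3 : A ∩ B ∪ B \ A = B := by
      ext x
      simp only [Set.mem_union, Set.mem_inter_iff, Set.mem_sdiff]
      tauto
    rw [e3] at e2
    linarith
  rw [h2] at h
  nlinarith

/-- positive association for several increasing events -/
lemma Pr_fkg_prod {w : ι → ℝ} (hw : Wt w) (E : Finset ι) {κ : Type*} (s : Finset κ)
    (A : κ → Set (Set ι)) (hA : ∀ k ∈ s, Inc (A k)) :
    ∏ k ∈ s, Pr w E (A k) ≤ Pr w E {S | ∀ k ∈ s, S ∈ A k} := by
  induction s using Finset.induction_on with
  | empty =>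
    simp only [prod_empty, notMem_empty, false_imp_iff, implies_true]
    rw [show {S : Set ι | True} = Set.univ from rfl, Pr_univ]
  | insert k s hk ih =>
    rw [prod_insert hk]
    have i1 := ih fun l hl => hA l (mem_insert_of_mem hl)
    have e1 : {S : Set ι | ∀ l ∈ insert k s, S ∈ A l} = A k ∩ {S | ∀ l ∈ s, S ∈ A l} := by
      ext S
      simp
    have i2 : Inc {S : Set ι | ∀ l ∈ s, S ∈ A l} :=
      fun S S' h h1 l hl => hA l (mem_insert_of_mem hl) S S' h (h1 l hl)
    rw [e1]
    refine le_trans ?_ (Pr_fkg hw E (hA k (mem_insert_self _ _)) i2)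
    exact mul_le_mul_of_nonneg_left i1 (Pr_nonneg hw E _)

/-- positive association for several decreasing events -/
lemma Pr_fkg_dec_prod {w : ι → ℝ} (hw : Wt w) (E : Finset ι) {κ : Type*} (s : Finset κ)
    (A : κ → Set (Set ι)) (hA : ∀ k ∈ s, Inc (A k)ᶜ) :
    ∏ k ∈ s, Pr w E (A k) ≤ Pr w E {S | ∀ k ∈ s, S ∈ A k} := by
  induction s using Finset.induction_on with
  | empty =>
    simp only [prod_empty, notMem_empty, false_imp_iff, implies_true]
    rw [show {S : Set ι | True} = Set.univ from rfl, Pr_univ]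
  | insert k s hk ih =>
    rw [prod_insert hk]
    have i1 := ih fun l hl => hA l (mem_insert_of_mem hl)
    have e1 : {S : Set ι | ∀ l ∈ insert k s, S ∈ A l} = A k ∩ {S | ∀ l ∈ s, S ∈ A l} := by
      ext S
      simp
    have i2 : Inc {S : Set ι | ∀ l ∈ s, S ∈ A l}ᶜ := by
      intro S S' h h1 h2
      apply h1
      intro l hl
      by_contra h3
      exact hA l (mem_insert_of_mem hl) S S' h h3 (h2 l hl)
    rw [e1]
    refine le_trans ?_ (Pr_fkg_dec hw E (hA k (mem_insert_self _ _)) i2)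
    exact mul_le_mul_of_nonneg_left i1 (Pr_nonneg hw E _)

/-- monotonicity in the weights -/
lemma Pr_mono_w {w w' : ι → ℝ} (hw : Wt w) (hw' : Wt w') (h : ∀ e, w e ≤ w' e) (E : Finset ι) :
    ∀ {A : Set (Set ι)}, Inc A → Pr w E A ≤ Pr w' E A := by
  induction E using Finset.induction_on with
  | empty =>
    intro A _
    rw [Pr_empty, Pr_empty]
  | insert e E he ih =>
    intro A hA
    rw [Pr_insert he, Pr_insert he]
    have i1 := ih (inc_one hA e)
    have i0 := ih (inc_zero hA e)
    have m1 := Pr_mono hw (E := E) (inc_zero_one hA e)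
    have k1 := mul_le_mul_of_nonneg_left i1 (hw' e).1
    have k2 := mul_le_mul_of_nonneg_left i0 (by linarith [(hw' e).2] : 0 ≤ 1 - w' e)
    nlinarith [h e]

/-- all the coordinates of `J` are present -/
lemma Pr_all (w : ι → ℝ) {J U : Finset ι} (hJ : J ⊆ U) :
    Pr w U {S | ∀ e ∈ J, e ∈ S} = ∏ e ∈ J, w e := by
  have hd : Det J {S : Set ι | ∀ e ∈ J, e ∈ S} := by
    intro S S' h h1 e he
    exact (h e he).mp (h1 e he)
  rw [Pr_extend hJ hd]
  have h1 : Pr w J {S | ∀ e ∈ J, e ∈ S} = ∑ ω ∈ J.powerset, if ω = J then wt w J ω else 0 := by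
    unfold Pr
    apply sum_congr rfl
    intro ω hω
    rw [mem_powerset] at hω
    have h2 : ((ω : Set ι) ∈ {S : Set ι | ∀ e ∈ J, e ∈ S}) ↔ ω = J := by
      simp only [Set.mem_ofPred_eq, mem_coe]
      exact ⟨fun h => subset_antisymm hω h, fun h => h ▸ fun _ he => he⟩
    simp only [h2]
  rw [h1, Finset.sum_ite_eq' J.powerset J, if_pos (mem_powerset_self J)]
  simp [wt]

/-- all the coordinates of `J` are absent -/
lemma Pr_none (w : ι → ℝ) {J U : Finset ι} (hJ : J ⊆ U) :
    Pr w U {S | ∀ e ∈ J, e ∉ S} = ∏ e ∈ J, (1 - w e) := by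
  have hd : Det J {S : Set ι | ∀ e ∈ J, e ∉ S} := by
    intro S S' h h1 e he h2
    exact h1 e he ((h e he).mpr h2)
  rw [Pr_extend hJ hd]
  have h1 : Pr w J {S | ∀ e ∈ J, e ∉ S} = ∑ ω ∈ J.powerset, if ω = ∅ then wt w J ω else 0 := by
    unfold Pr
    apply sum_congr rfl
    intro ω hω
    rw [mem_powerset] at hω
    have h2 : ((ω : Set ι) ∈ {S : Set ι | ∀ e ∈ J, e ∉ S}) ↔ ω = ∅ := by
      simp only [Set.mem_ofPred_eq, mem_coe]
      constructor
      · intro h
        rw [Finset.eq_empty_iff_forall_notMem]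
        intro e he
        exact h e (hω he) he
      · rintro rfl
        simp
    simp only [h2]
  rw [h1, Finset.sum_ite_eq' J.powerset ∅, if_pos (empty_mem_powerset J)]
  simp [wt]

/-- **Coupling.** If the coordinate `e` of the second model is present when one of the coordinates
in `J e` of the first model is, then increasing events are more likely in the second model, if its
weights are large enough. -/
lemma Pr_image_le {κ : Type*} {w : ι → ℝ} {v : κ → ℝ} (hw : Wt w) (hv : Wt v) (F : Finset κ)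
    (J : κ → Finset ι) (hJ : ∀ e ∈ F, ∀ f ∈ F, e ≠ f → Disjoint (J e) (J f))
    (hq : ∀ e ∈ F, 1 - v e ≤ ∏ i ∈ J e, (1 - w i)) :
    ∀ {A : Set (Set κ)}, Inc A →
      Pr w (F.biUnion J) {S | {e | e ∈ F ∧ ∃ i ∈ J e, i ∈ S} ∈ A} ≤ Pr v F A := by
  induction F using Finset.induction_on with
  | empty =>
    intro A _
    rw [biUnion_empty, Pr_empty, Pr_empty]
    simp
  | insert e F he ih =>
    intro A hA
    have hJ' : Disjoint (J e) (F.biUnion J) := by
      rw [Finset.disjoint_biUnion_right]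
      intro f hf
      refine hJ e (mem_insert_self _ _) f (mem_insert_of_mem hf) ?_
      rintro rfl
      exact he hf
    have ih' := @ih (fun f hf g hg => hJ f (mem_insert_of_mem hf) g (mem_insert_of_mem hg))
      (fun f hf => hq f (mem_insert_of_mem hf))
    rw [biUnion_insert, Pr_union hJ', Pr_insert he]
    set W := F.biUnion J with hW
    have h1 : ∀ η ∈ (J e).powerset,
        wt w (J e) η * Pr w W {S | (η : Set ι) ∪ (S \ (J e : Set ι)) ∈
          {S | {f | f ∈ insert e F ∧ ∃ i ∈ J f, i ∈ S} ∈ A}} ≤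
        wt w (J e) η * (if η = ∅ then Pr v F {S | S \ {e} ∈ A} else Pr v F {S | insert e S ∈ A}) := by
      intro η hη
      rw [mem_powerset] at hη
      apply mul_le_mul_of_nonneg_left _ (wt_nonneg hw _ _)
      have h2 : ∀ ω : Finset ι, ω ⊆ W →
          {f | f ∈ insert e F ∧ ∃ i ∈ J f, i ∈ (η : Set ι) ∪ ((ω : Set ι) \ (J e : Set ι))} =
          {f | (f = e ∧ η ≠ ∅) ∨ (f ∈ F ∧ ∃ i ∈ J f, i ∈ (ω : Set ι))} := by
        intro ω hω
        ext f
        simp only [Set.mem_ofPred_eq, mem_insert, Set.mem_union, Finset.mem_coe, Set.mem_sdiff]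
        constructor
        · rintro ⟨h3 | h3, i, h4, h5⟩
          · left
            subst h3
            refine ⟨rfl, ?_⟩
            rcases h5 with h5 | h5
            · rintro rfl
              exact absurd h5 (notMem_empty _)
            · exact absurd h4 h5.2
          · right
            refine ⟨h3, i, h4, ?_⟩
            rcases h5 with h5 | h5
            · exfalso
              exact Finset.disjoint_left.mp hJ' (hη h5) (mem_biUnion.mpr ⟨f, h3, h4⟩)
            · exact h5.1
        · rintro (⟨rfl, h3⟩ | ⟨h3, i, h4, h5⟩)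
          · obtain ⟨i, hi⟩ := Finset.nonempty_iff_ne_empty.mpr h3
            exact ⟨Or.inl rfl, i, hη hi, Or.inl hi⟩
          · refine ⟨Or.inr h3, i, h4, Or.inr ⟨h5, ?_⟩⟩
            intro h6
            exact Finset.disjoint_left.mp hJ' h6 (mem_biUnion.mpr ⟨f, h3, h4⟩)
      split_ifs with h
      · refine le_trans (Pr_mono' hw ?_) (ih' (inc_zero hA e))
        intro ω hω h3
        simp only [Set.mem_ofPred_eq] at h3 ⊢
        rw [h2 ω hω] at h3
        convert h3 using 1
        ext f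
        simp only [Set.mem_sdiff, Set.mem_ofPred_eq, Set.mem_singleton_iff, h, ne_eq, not_true,
          and_false, false_or]
        constructor
        · rintro ⟨h4, h5⟩
          exact h4
        · intro h4
          refine ⟨h4, ?_⟩
          rintro rfl
          exact he h4.1
      · refine le_trans (Pr_mono' hw ?_) (ih' (inc_one hA e))
        intro ω hω h3
        simp only [Set.mem_ofPred_eq] at h3 ⊢
        rw [h2 ω hω] at h3
        convert h3 using 1
        ext f
        simp [h]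
    refine (sum_le_sum h1).trans ?_
    have h3 : ∑ η ∈ (J e).powerset, wt w (J e) η *
        (if η = ∅ then Pr v F {S | S \ {e} ∈ A} else Pr v F {S | insert e S ∈ A}) =
        wt w (J e) ∅ * Pr v F {S | S \ {e} ∈ A} +
        (1 - wt w (J e) ∅) * Pr v F {S | insert e S ∈ A} := by
      have e1 := sum_wt w (J e)
      have e0 : ∅ ∈ (J e).powerset := empty_mem_powerset _
      rw [← Finset.add_sum_erase _ _ e0] at e1
      rw [← Finset.add_sum_erase _ _ e0, if_pos rfl]
      congr 1
      rw [show 1 - wt w (J e) ∅ = ∑ x ∈ (J e).powerset.erase ∅, wt w (J e) x by linarith, sum_mul]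
      apply sum_congr rfl
      intro η hη
      rw [if_neg (ne_of_mem_erase hη)]
    rw [h3]
    have h4 : wt w (J e) ∅ = ∏ i ∈ J e, (1 - w i) := by simp [wt]
    have h5 := hq e (mem_insert_self _ _)
    rw [← h4] at h5
    have h6 := Pr_mono hv (E := F) (inc_zero_one hA e)
    nlinarith

end

end Pool.Agent.Lib.MP_566bac_pr.Zd
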