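import Pool.Agent.Lib.MP_566bac_pr.Zd.Defs
import Pool.Agent.Lib.MP_566bac_pr.Zd.Prod

/-!
# The cubic lattice: geometry, restricted connectivity, the percolation measure
-/

open MeasureTheory ProbabilityTheory Finset unitInterval SimpleGraph
open scoped ENNReal symmDiff

namespace Pool.Agent.Lib.MP_566bac_pr.Zd

variable {d : ℕ}

/-- unordered pairs of vertices -/
abbrev Ed (d : ℕ) : Type := Sym2 (V d)

/-! ### geometry -/

/-- unit vectors -/
def uv (i : Fin d) : V d := Pi.single i 1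

lemma uv_same (i : Fin d) : uv i i = 1 := by simp [uv]

lemma uv_ne {i j : Fin d} (h : j ≠ i) : uv i j = 0 := by simp [uv, h]

lemma lattice_adj {x y : V d} : (lattice d).Adj x y ↔ ∑ i, |x i - y i| = 1 := Iff.rfl

lemma adj_iff {x y : V d} :
    (lattice d).Adj x y ↔ ∃ i, y = x + uv i ∨ y = x - uv i := by
  rw [lattice_adj]
  constructor
  · intro h
    have h1 : ∃ i, x i - y i ≠ 0 := by
      by_contra hcon
      push Not at hcon
      rw [sum_congr rfl fun i _ => by rw [hcon i, abs_zero]] at h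
      simp at h
    obtain ⟨i, hi⟩ := h1
    have h2 : |x i - y i| + ∑ j ∈ univ.erase i, |x j - y j| = ∑ j, |x j - y j| :=
      Finset.add_sum_erase univ (fun j => |x j - y j|) (mem_univ i)
    rw [h] at h2
    have h3 : 0 ≤ ∑ j ∈ univ.erase i, |x j - y j| := sum_nonneg fun _ _ => abs_nonneg _
    have h4 : 1 ≤ |x i - y i| := Int.one_le_abs hi
    have h5 : ∑ j ∈ univ.erase i, |x j - y j| = 0 := by omega
    have h6 : ∀ j, j ≠ i → x j = y j := by
      intro j hj
      have := (sum_eq_zero_iff_of_nonneg fun _ _ => abs_nonneg _).mp h5 j (by simp [hj])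
      rw [abs_eq_zero] at this
      linarith
    have h7 : |x i - y i| = 1 := by omega
    refine ⟨i, ?_⟩
    rcases (abs_eq (by norm_num : (0 : ℤ) ≤ 1)).mp h7 with h8 | h8
    · right
      ext j
      rcases eq_or_ne j i with rfl | hj
      · rw [Pi.sub_apply, uv_same]; omega
      · rw [Pi.sub_apply, uv_ne hj, h6 j hj, sub_zero]
    · left
      ext j
      rcases eq_or_ne j i with rfl | hj
      · rw [Pi.add_apply, uv_same]; omega
      · rw [Pi.add_apply, uv_ne hj, h6 j hj, add_zero]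
  · have key : ∀ i : Fin d, ∑ j, |uv i j| = 1 := by
      intro i
      rw [sum_eq_single i]
      · rw [uv_same]; rfl
      · intro j _ hj
        rw [uv_ne hj, abs_zero]
      · intro h; exact absurd (mem_univ i) h
    rintro ⟨i, rfl | rfl⟩
    · rw [← key i]
      apply sum_congr rfl
      intro j _
      rw [Pi.add_apply, show x j - (x j + uv i j) = -uv i j by ring, abs_neg]
    · rw [← key i]
      apply sum_congr rfl
      intro j _
      rw [Pi.sub_apply, show x j - (x j - uv i j) = uv i j by ring]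

lemma adj_add (x : V d) (i : Fin d) : (lattice d).Adj x (x + uv i) := adj_iff.mpr ⟨i, Or.inl rfl⟩

lemma adj_sub (x : V d) (i : Fin d) : (lattice d).Adj x (x - uv i) := adj_iff.mpr ⟨i, Or.inr rfl⟩

/-- the neighbours of a vertex -/
noncomputable def nbr (x : V d) : Finset (V d) := by
  classical
  exact (univ : Finset (Fin d)).image (fun i => x + uv i) ∪
    (univ : Finset (Fin d)).image (fun i => x - uv i)

lemma mem_nbr {x y : V d} : y ∈ nbr x ↔ (lattice d).Adj x y := by
  classical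
  rw [adj_iff]
  simp only [nbr, mem_union, mem_image, mem_univ, true_and]
  constructor
  · rintro (⟨i, rfl⟩ | ⟨i, rfl⟩)
    · exact ⟨i, Or.inl rfl⟩
    · exact ⟨i, Or.inr rfl⟩
  · rintro ⟨i, rfl | rfl⟩
    · exact Or.inl ⟨i, rfl⟩
    · exact Or.inr ⟨i, rfl⟩

lemma card_nbr (x : V d) : (nbr x).card ≤ 2 * d := by
  classical
  unfold nbr
  refine (card_union_le _ _).trans ?_
  have h1 := card_image_le (s := (univ : Finset (Fin d))) (f := fun i => x + uv i)
  have h2 := card_image_le (s := (univ : Finset (Fin d))) (f := fun i => x - uv i)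
  rw [card_univ, Fintype.card_fin] at h1 h2
  omega

/-- distance in the maximum norm -/
def dst (x y : V d) : ℕ := univ.sup fun i => (x i - y i).natAbs

lemma dst_le {x y : V d} {n : ℕ} : dst x y ≤ n ↔ ∀ i, |x i - y i| ≤ n := by
  rw [dst, Finset.sup_le_iff]
  simp only [mem_univ, true_imp_iff]
  refine forall_congr' fun i => ?_
  rw [Int.abs_eq_natAbs]
  norm_cast

lemma le_dst (x y : V d) (i : Fin d) : |x i - y i| ≤ dst x y := dst_le.mp le_rfl i

lemma dst_self (x : V d) : dst x x = 0 := by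
  apply Nat.le_zero.mp
  rw [dst_le]
  simp

lemma dst_comm (x y : V d) : dst x y = dst y x := by
  apply le_antisymm <;> rw [dst_le] <;> intro i <;> rw [abs_sub_comm] <;> exact le_dst _ _ i

lemma dst_tri (x y z : V d) : dst x z ≤ dst x y + dst y z := by
  rw [dst_le]
  intro i
  have h1 := le_dst x y i
  have h2 := le_dst y z i
  have h3 := abs_sub_le (x i) (y i) (z i)
  push_cast
  linarith

lemma dst_adj {x y : V d} (h : (lattice d).Adj x y) : dst x y ≤ 1 := by
  rw [dst_le]
  intro i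
  have h1 : |x i - y i| ≤ ∑ i, |x i - y i| :=
    single_le_sum (f := fun i => |x i - y i|) (fun _ _ => abs_nonneg _) (mem_univ i)
  rw [lattice_adj.mp h] at h1
  exact_mod_cast h1

lemma exists_dst (hd : 0 < d) (x y : V d) : ∃ i, (dst x y : ℤ) = |x i - y i| := by
  have hne : (univ : Finset (Fin d)).Nonempty := ⟨⟨0, hd⟩, mem_univ _⟩
  obtain ⟨i, _, hi⟩ := exists_mem_eq_sup univ hne fun i => (x i - y i).natAbs
  refine ⟨i, ?_⟩
  rw [dst, hi, Int.abs_eq_natAbs]

/-- boxes -/
noncomputable def Lam (y : V d) (n : ℕ) : Finset (V d) := Fintype.piFinset fun i => Finset.Icc (y i - n) (y i + n)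

lemma mem_Lam' {x y : V d} {n : ℕ} : x ∈ Lam y n ↔ ∀ i, y i - n ≤ x i ∧ x i ≤ y i + n := by
  rw [Lam, Fintype.mem_piFinset]
  simp only [Finset.mem_Icc]

lemma mem_Lam {x y : V d} {n : ℕ} : x ∈ Lam y n ↔ dst x y ≤ n := by
  rw [mem_Lam', dst_le]
  refine forall_congr' fun i => ?_
  rw [abs_le]
  omega

lemma self_mem_Lam (x : V d) (n : ℕ) : x ∈ Lam x n := by
  rw [mem_Lam, dst_self]
  exact Nat.zero_le _

lemma Lam_mono (x : V d) {m n : ℕ} (h : m ≤ n) : Lam x m ⊆ Lam x n := by
  intro y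
  rw [mem_Lam, mem_Lam]
  exact fun h1 => h1.trans h

lemma card_Lam (x : V d) (n : ℕ) : (Lam x n).card = (2 * n + 1) ^ d := by
  rw [Lam, Fintype.card_piFinset]
  simp only [Int.card_Icc]
  rw [prod_congr rfl fun i _ => show (x i + n + 1 - (x i - n)).toNat = 2 * n + 1 by omega]
  simp

/-! ### restricted connectivity -/

/-- the graph restricted to the vertices of `W` -/
def res (G : SimpleGraph (V d)) (W : Set (V d)) : SimpleGraph (V d) where
  Adj x y := G.Adj x y ∧ x ∈ W ∧ y ∈ W
  symm := ⟨fun _ _ h => ⟨h.1.symm, h.2.2, h.2.1⟩⟩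
  loopless := ⟨fun x h => G.loopless.irrefl x h.1⟩

/-- `x` and `y` are connected by open edges inside `W` -/
def Cn (S : Set (Ed d)) (W : Set (V d)) (x y : V d) : Prop := (res (openGraph S) W).Reachable x y

lemma res_le (G : SimpleGraph (V d)) (W : Set (V d)) : res G W ≤ G := fun _ _ h => h.1

lemma res_mono {G G' : SimpleGraph (V d)} {W W' : Set (V d)} (hG : G ≤ G') (hW : W ⊆ W') :
    res G W ≤ res G' W' := fun _ _ h => ⟨hG h.1, hW h.2.1, hW h.2.2⟩

lemma openGraph_mono {S S' : Set (Ed d)} (h : S ⊆ S') : openGraph S ≤ openGraph S' :=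
  fun _ _ h1 => ⟨h1.1, h h1.2⟩

lemma Cn.refl (S : Set (Ed d)) (W : Set (V d)) (x : V d) : Cn S W x x := Reachable.refl _

lemma Cn.symm {S : Set (Ed d)} {W : Set (V d)} {x y : V d} (h : Cn S W x y) : Cn S W y x :=
  Reachable.symm h

lemma Cn.trans {S : Set (Ed d)} {W : Set (V d)} {x y z : V d} (h : Cn S W x y) (h' : Cn S W y z) :
    Cn S W x z := Reachable.trans h h'

lemma Cn.mono {S S' : Set (Ed d)} {W W' : Set (V d)} (hS : S ⊆ S') (hW : W ⊆ W') {x y : V d}
    (h : Cn S W x y) : Cn S' W' x y := Reachable.mono (res_mono (openGraph_mono hS) hW) h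

lemma Cn.reachable {S : Set (Ed d)} {W : Set (V d)} {x y : V d} (h : Cn S W x y) :
    (openGraph S).Reachable x y := Reachable.mono (res_le _ _) h

lemma Cn.step {S : Set (Ed d)} {W : Set (V d)} {x y : V d} (h : (lattice d).Adj x y)
    (hS : s(x, y) ∈ S) (hx : x ∈ W) (hy : y ∈ W) : Cn S W x y :=
  SimpleGraph.Adj.reachable (G := res (openGraph S) W) ⟨⟨h, hS⟩, hx, hy⟩

lemma reach_mem {G : SimpleGraph (V d)} {W : Set (V d)} {a b : V d}
    (h : (res G W).Reachable a b) (ha : a ∈ W) : b ∈ W := by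
  obtain ⟨p⟩ := h
  induction p with
  | nil => exact ha
  | cons hadj p ih => exact ih hadj.2.2

lemma Cn.mem {S : Set (Ed d)} {W : Set (V d)} {x y : V d} (h : Cn S W x y) (hx : x ∈ W) : y ∈ W :=
  reach_mem h hx

/-- induction along a connection -/
lemma Cn.induct {S : Set (Ed d)} {W : Set (V d)} {x y : V d} (h : Cn S W x y) (P : V d → Prop)
    (hx : P x) (hstep : ∀ a b, P a → a ∈ W → b ∈ W → (lattice d).Adj a b → s(a, b) ∈ S → P b) :
    P y := by
  obtain ⟨p⟩ := h
  induction p with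
  | nil => exact hx
  | @cons u v w hadj p ih => exact ih (hstep u v hx hadj.2.1 hadj.2.2 hadj.1.1 hadj.1.2)

/-- a connection is a connection among the points connected to the starting point -/
lemma Cn.restrict {S : Set (Ed d)} {W : Set (V d)} {x y : V d} (h : Cn S W x y) :
    Cn S {z | z ∈ W ∧ Cn S W x z} x y ∨ x = y := by
  rcases eq_or_ne x y with rfl | hne
  · exact Or.inr rfl
  left
  have hxW : x ∈ W := by
    obtain ⟨p⟩ := h
    cases p with
    | nil => exact absurd rfl hne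
    | cons hadj _ => exact hadj.2.1
  have key : Cn S W x y ∧ Cn S {z | z ∈ W ∧ Cn S W x z} x y := by
    refine h.induct (fun b => Cn S W x b ∧ Cn S {z | z ∈ W ∧ Cn S W x z} x b)
      ⟨Cn.refl _ _ _, Cn.refl _ _ _⟩ ?_
    rintro a b ⟨h1, h2⟩ ha hb hab hS
    have h3 : Cn S W x b := h1.trans (Cn.step hab hS ha hb)
    have h4 : a ∈ {z | z ∈ W ∧ Cn S W x z} := ⟨ha, h1⟩
    have h5 : b ∈ {z | z ∈ W ∧ Cn S W x z} := ⟨hb, h3⟩
    exact ⟨h3, h2.trans (Cn.step hab hS h4 h5)⟩
  exact key.2

/-- first exit from a set, for a restricted connection -/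
lemma Cn.exit {S : Set (Ed d)} {W A : Set (V d)} {a b : V d} (h : Cn S W a b) (ha : a ∈ A)
    (hb : b ∉ A) : ∃ u v, u ∈ A ∧ v ∉ A ∧ u ∈ W ∧ v ∈ W ∧ (lattice d).Adj u v ∧ s(u, v) ∈ S ∧
      Cn S (W ∩ A) a u := by
  obtain ⟨p⟩ := h
  induction p with
  | nil => exact absurd ha hb
  | @cons u v w hadj p ih =>
    by_cases hv : v ∈ A
    · obtain ⟨u', v', h1, h2, h3, h4, h5, h6, h7⟩ := ih hv hb
      exact ⟨u', v', h1, h2, h3, h4, h5, h6,
        (Cn.step (W := W ∩ A) hadj.1.1 hadj.1.2 ⟨hadj.2.1, ha⟩ ⟨hadj.2.2, hv⟩).trans h7⟩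
    · exact ⟨u, v, ha, hv, hadj.2.1, hadj.2.2, hadj.1.1, hadj.1.2, Cn.refl _ _ _⟩

/-- last exit from a set, for a restricted connection -/
lemma Cn.exit_last {S : Set (Ed d)} {W A : Set (V d)} {a b : V d} (h : Cn S W a b) (ha : a ∈ A)
    (hb : b ∉ A) : ∃ u v, u ∈ A ∧ v ∉ A ∧ u ∈ W ∧ v ∈ W ∧ (lattice d).Adj u v ∧ s(u, v) ∈ S ∧
      Cn S (W ∩ Aᶜ) v b := by
  obtain ⟨v, u, h1, h2, h3, h4, h5, h6, h7⟩ := Cn.exit (A := Aᶜ) h.symm hb (by simpa using ha)
  exact ⟨u, v, by simpa using h2, h1, h4, h3, h5.symm, by rwa [Sym2.eq_swap], h7.symm⟩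

open Classical in
/-- the lattice edges inside a finite set of vertices -/
noncomputable def Ein (W : Finset (V d)) : Finset (Ed d) :=
  ((W ×ˢ W).image fun q => s(q.1, q.2)).filter fun e => e ∈ (lattice d).edgeSet

lemma mem_Ein {W : Finset (V d)} {x y : V d} :
    s(x, y) ∈ Ein W ↔ x ∈ W ∧ y ∈ W ∧ (lattice d).Adj x y := by
  classical
  rw [Ein, Finset.mem_filter, SimpleGraph.mem_edgeSet, Finset.mem_image]
  constructor
  · rintro ⟨⟨⟨a, b⟩, hab, he⟩, hadj⟩
    rw [Finset.mem_product] at hab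
    simp only [Sym2.eq_iff] at he
    rcases he with ⟨rfl, rfl⟩ | ⟨rfl, rfl⟩
    · exact ⟨hab.1, hab.2, hadj⟩
    · exact ⟨hab.2, hab.1, hadj⟩
  · rintro ⟨h1, h2, h3⟩
    exact ⟨⟨(x, y), Finset.mem_product.mpr ⟨h1, h2⟩, rfl⟩, h3⟩

lemma Ein_mono {W W' : Finset (V d)} (h : W ⊆ W') : Ein W ⊆ Ein W' := by
  intro e
  induction e using Sym2.ind with
  | _ x y =>
    rw [mem_Ein, mem_Ein]
    exact fun ⟨h1, h2, h3⟩ => ⟨h h1, h h2, h3⟩

/-- the edges of `E` are edges of the lattice -/
def Lat (E : Finset (Ed d)) : Prop := ∀ e ∈ E, e ∈ (lattice d).edgeSet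

lemma lat_Ein (W : Finset (V d)) : Lat (Ein W) := by
  classical
  intro e he
  rw [Ein, Finset.mem_filter] at he
  exact he.2

lemma lat_union [DecidableEq (Ed d)] {E F : Finset (Ed d)} (hE : Lat E) (hF : Lat F) :
    Lat (E ∪ F) := by
  intro e he
  rcases Finset.mem_union.mp he with h | h
  · exact hE e h
  · exact hF e h

/-- configurations which agree on the edges with ends in `W` -/
lemma res_congr {W : Set (V d)} {S S' : Set (Ed d)}
    (h : ∀ x ∈ W, ∀ y ∈ W, (lattice d).Adj x y → (s(x, y) ∈ S ↔ s(x, y) ∈ S')) :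
    res (openGraph S) W = res (openGraph S') W := by
  ext x y
  constructor
  · rintro ⟨⟨h1, h2⟩, h3, h4⟩
    exact ⟨⟨h1, (h x h3 y h4 h1).mp h2⟩, h3, h4⟩
  · rintro ⟨⟨h1, h2⟩, h3, h4⟩
    exact ⟨⟨h1, (h x h3 y h4 h1).mpr h2⟩, h3, h4⟩

lemma res_congr_Ein {W : Finset (V d)} {S S' : Set (Ed d)}
    (h : ∀ e ∈ Ein W, (e ∈ S ↔ e ∈ S')) :
    res (openGraph S) W = res (openGraph S') W :=
  res_congr fun _ hx _ hy hxy => h _ (mem_Ein.mpr ⟨hx, hy, hxy⟩)

lemma Cn_congr {W : Set (V d)} {S S' : Set (Ed d)}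
    (h : ∀ x ∈ W, ∀ y ∈ W, (lattice d).Adj x y → (s(x, y) ∈ S ↔ s(x, y) ∈ S')) (x y : V d) :
    Cn S W x y ↔ Cn S' W x y := by
  unfold Cn
  rw [res_congr h]

/-- an event about the restricted graph is local -/
lemma det_res {W : Finset (V d)} (P : SimpleGraph (V d) → Prop) :
    Det (Ein W) {S | P (res (openGraph S) W)} := by
  intro S S' h h1
  rw [Set.mem_ofPred_eq] at h1 ⊢
  rwa [← res_congr_Ein h]

lemma det_Cn (W : Finset (V d)) (x y : V d) : Det (Ein W) {S | Cn S W x y} :=
  det_res fun G => G.Reachable x y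

lemma inc_Cn (W : Set (V d)) (x y : V d) : Inc {S : Set (Ed d) | Cn S W x y} :=
  fun _ _ h h1 => h1.mono h subset_rfl

/-! ### the percolation measure -/

/-- Bernoulli bond percolation: the law of the set of open edges. -/
noncomputable abbrev perc (p : I) : Measure (Set (Ed d)) := setBernoulli (lattice d).edgeSet p

lemma measurableSet_mem (e : Ed d) : MeasurableSet {S : Set (Ed d) | e ∈ S} :=
  measurableSet_setOfPred.mpr (measurable_set_mem e)

/-- cylinder events -/
def cyl (E ω : Finset (Ed d)) : Set (Set (Ed d)) := {S | ∀ e ∈ E, (e ∈ S ↔ e ∈ ω)}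

lemma measurableSet_cyl (E ω : Finset (Ed d)) : MeasurableSet (cyl E ω) := by
  have : cyl E ω = ⋂ e ∈ E, {S : Set (Ed d) | e ∈ S ↔ e ∈ ω} := by
    ext S
    simp [cyl]
  rw [this]
  refine Finset.measurableSet_biInter _ fun e _ => ?_
  by_cases h : e ∈ ω
  · simp only [h, iff_true]
    exact measurableSet_mem e
  · simp only [h, iff_false]
    exact (measurableSet_mem e).compl

lemma cyl_prob (p : I) {E : Finset (Ed d)} (hE : Lat E) {ω : Finset (Ed d)} (hω : ω ⊆ E) :
    (perc p).real (cyl E ω) = wt (fun _ => (p : ℝ)) E ω := by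
  classical
  rw [measureReal_def, perc, setBernoulli_apply']
  have h1 : ((fun P : Ed d → Prop ↦ {i | P i}) ⁻¹' cyl E ω) =
      Set.pi E (fun e => if e ∈ ω then {True} else {False}) := by
    ext P
    simp only [cyl, Set.mem_preimage, Set.mem_ofPred_eq, Set.mem_pi, Finset.mem_coe]
    refine forall₂_congr fun e _ => ?_
    split_ifs with h <;> simp [h]
  rw [h1, Measure.infinitePi_pi _ (by intro i _; exact MeasurableSet.of_discrete)]
  have h2 : ∀ e ∈ E, ((toNNReal p • Measure.dirac (e ∈ (lattice d).edgeSet) +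
      toNNReal (σ p) • Measure.dirac False : Measure Prop) (if e ∈ ω then {True} else {False}) : ℝ≥0∞) =
      if e ∈ ω then (toNNReal p : ℝ≥0∞) else (toNNReal (σ p) : ℝ≥0∞) := by
    intro e he
    have := hE e he
    split_ifs with h
    · simp [this]
    · simp [this]
  rw [prod_congr rfl h2, Finset.prod_ite, prod_const, prod_const, wt, prod_const, prod_const]
  rw [ENNReal.toReal_mul, ENNReal.toReal_pow, ENNReal.toReal_pow]
  have e1 : E.filter (fun e => e ∈ ω) = ω := by
    ext e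
    simp only [Finset.mem_filter]
    exact ⟨fun h => h.2, fun h => ⟨hω h, h⟩⟩
  have e2 : E.filter (fun e => e ∉ ω) = E \ ω := by
    ext e
    simp
  have e3 : ((toNNReal (σ p) : ℝ≥0∞)).toReal = 1 - (p : ℝ) := by
    rw [ENNReal.coe_toReal]
    rfl
  have e4 : ((toNNReal p : ℝ≥0∞)).toReal = (p : ℝ) := by
    rw [ENNReal.coe_toReal]
    rfl
  rw [e1, e2, e3, e4]
  have e5 : ∀ i1 i2 : DecidableEq (Ed d), @sdiff _ (@Finset.instSDiff _ i1) E ω =
      @sdiff _ (@Finset.instSDiff _ i2) E ω := by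
    intro i1 i2
    rw [Subsingleton.elim i1 i2]
  rw [e5 _ (fun a b => Classical.propDecidable (a = b))]

open Classical in
lemma det_eq_iUnion {E : Finset (Ed d)} {A : Set (Set (Ed d))} (hA : Det E A) :
    A = ⋃ ω ∈ E.powerset.filter (fun ω : Finset (Ed d) => (ω : Set (Ed d)) ∈ A), cyl E ω := by
  classical
  ext S
  simp only [Set.mem_iUnion, Finset.mem_filter, Finset.mem_powerset, exists_prop]
  constructor
  · intro hS
    refine ⟨E.filter (fun e => e ∈ S), ⟨Finset.filter_subset _ _, ?_⟩, ?_⟩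
    · refine hA S _ ?_ hS
      intro e he
      simp [he]
    · intro e he
      simp [he]
  · rintro ⟨ω, ⟨_, h2⟩, h3⟩
    refine hA _ S ?_ h2
    intro e he
    exact (h3 e he).symm

lemma det_measurable {E : Finset (Ed d)} {A : Set (Set (Ed d))} (hA : Det E A) :
    MeasurableSet A := by
  classical
  rw [det_eq_iUnion hA]
  exact Finset.measurableSet_biUnion _ fun ω _ => measurableSet_cyl E ω

/-- finite volume probabilities -/
noncomputable abbrev P0 (q : ℝ) (E : Finset (Ed d)) (A : Set (Set (Ed d))) : ℝ :=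
  Pr (fun _ => q) E A

lemma perc_det (p : I) {E : Finset (Ed d)} (hE : Lat E) {A : Set (Set (Ed d))} (hA : Det E A) :
    (perc p).real A = P0 p E A := by
  classical
  have h1 : (perc p).real A =
      ∑ ω ∈ E.powerset.filter (fun ω : Finset (Ed d) => (ω : Set (Ed d)) ∈ A),
        (perc p).real (cyl E ω) := by
    conv_lhs => rw [det_eq_iUnion hA]
    rw [measureReal_biUnion_finset]
    · intro ω hω ω' hω' hne
      simp only [Finset.coe_filter, Finset.mem_powerset, Set.mem_ofPred_eq] at hω hω'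
      rw [Function.onFun, Set.disjoint_left]
      intro S h1 h2
      apply hne
      ext e
      by_cases he : e ∈ E
      · rw [← h1 e he, ← h2 e he]
      · exact ⟨fun h => absurd (hω.1 h) he, fun h => absurd (hω'.1 h) he⟩
    · intro ω _
      exact measurableSet_cyl E ω
  rw [h1, P0, Pr_eq]
  apply sum_congr rfl
  intro ω hω
  rw [mem_filter, mem_powerset] at hω
  exact cyl_prob p hE hω.1

/-- local events -/
def Loc (A : Set (Set (Ed d))) : Prop := ∃ E : Finset (Ed d), Lat E ∧ Det E A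

lemma Loc.inter {A B : Set (Set (Ed d))} (hA : Loc A) (hB : Loc B) : Loc (A ∩ B) := by
  classical
  obtain ⟨E, hE, hA⟩ := hA
  obtain ⟨F, hF, hB⟩ := hB
  exact ⟨E ∪ F, lat_union hE hF, det_inter (det_mono subset_union_left hA)
    (det_mono subset_union_right hB)⟩

lemma Loc.union {A B : Set (Set (Ed d))} (hA : Loc A) (hB : Loc B) : Loc (A ∪ B) := by
  classical
  obtain ⟨E, hE, hA⟩ := hA
  obtain ⟨F, hF, hB⟩ := hB
  exact ⟨E ∪ F, lat_union hE hF, det_union (det_mono subset_union_left hA)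
    (det_mono subset_union_right hB)⟩

lemma Loc.compl {A : Set (Set (Ed d))} (hA : Loc A) : Loc Aᶜ := by
  obtain ⟨E, hE, hA⟩ := hA
  exact ⟨E, hE, det_compl hA⟩

lemma Loc.meas {A : Set (Set (Ed d))} (hA : Loc A) : MeasurableSet A := by
  obtain ⟨E, hE, hA⟩ := hA
  exact det_measurable hA

lemma loc_res {W : Finset (V d)} (P : SimpleGraph (V d) → Prop) :
    Loc {S | P (res (openGraph S) W)} := ⟨_, lat_Ein W, det_res P⟩

lemma Loc.two {A B : Set (Set (Ed d))} (hA : Loc A) (hB : Loc B) :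
    ∃ E : Finset (Ed d), Lat E ∧ Det E A ∧ Det E B := by
  classical
  obtain ⟨E, hE, hA⟩ := hA
  obtain ⟨F, hF, hB⟩ := hB
  exact ⟨E ∪ F, lat_union hE hF, det_mono subset_union_left hA, det_mono subset_union_right hB⟩

lemma wt_const (p : I) : Wt (fun _ : Ed d => (p : ℝ)) := fun _ => ⟨p.2.1, p.2.2⟩

/-- **Independence.** -/
lemma perc_indep (p : I) {E F : Finset (Ed d)} (hE : Lat E) (hF : Lat F) (hEF : Disjoint E F)
    {A B : Set (Set (Ed d))} (hA : Det E A) (hB : Det F B) :
    (perc p).real (A ∩ B) = (perc p).real A * (perc p).real B := by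
  classical
  rw [perc_det p hE hA, perc_det p hF hB, perc_det p (lat_union hE hF)
    (det_inter (det_mono subset_union_left hA) (det_mono subset_union_right hB))]
  rw [P0, P0, P0, Pr_indep subset_union_left subset_union_right hEF hA hB,
    Pr_extend subset_union_left hA, Pr_extend subset_union_right hB]

lemma perc_fkg (p : I) {A B : Set (Set (Ed d))} (hA : Loc A) (hB : Loc B) (hA' : Inc A)
    (hB' : Inc B) : (perc p).real A * (perc p).real B ≤ (perc p).real (A ∩ B) := by
  obtain ⟨E, hE, hA, hB⟩ := hA.two hB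
  rw [perc_det p hE hA, perc_det p hE hB, perc_det p hE (det_inter hA hB)]
  exact Pr_fkg (wt_const p) E hA' hB'

lemma perc_fkg_dec (p : I) {A B : Set (Set (Ed d))} (hA : Loc A) (hB : Loc B) (hA' : Inc Aᶜ)
    (hB' : Inc Bᶜ) : (perc p).real A * (perc p).real B ≤ (perc p).real (A ∩ B) := by
  obtain ⟨E, hE, hA, hB⟩ := hA.two hB
  rw [perc_det p hE hA, perc_det p hE hB, perc_det p hE (det_inter hA hB)]
  exact Pr_fkg_dec (wt_const p) E hA' hB'

lemma perc_mono_q {p p' : I} (h : p ≤ p') {A : Set (Set (Ed d))} (hA : Loc A) (hA' : Inc A) :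
    (perc p).real A ≤ (perc p').real A := by
  obtain ⟨E, hE, hA⟩ := hA
  rw [perc_det p hE hA, perc_det p' hE hA]
  exact Pr_mono_w (wt_const p) (wt_const p') (fun _ => h) E hA'

lemma perc_mono (p : I) {A B : Set (Set (Ed d))} (h : A ⊆ B) :
    (perc p).real A ≤ (perc p).real B := measureReal_mono h

/-! ### symmetries -/

/-- an automorphism of the lattice -/
def IsAuto (φ : V d ≃ V d) : Prop := ∀ x y, (lattice d).Adj (φ x) (φ y) ↔ (lattice d).Adj x y

/-- the configuration seen through an automorphism -/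
def pull (φ : V d ≃ V d) (S : Set (Ed d)) : Set (Ed d) := (Sym2.map φ) ⁻¹' S

lemma pull_adj {φ : V d ≃ V d} (hφ : IsAuto φ) (S : Set (Ed d)) (x y : V d) :
    (openGraph (pull φ S)).Adj x y ↔ (openGraph S).Adj (φ x) (φ y) := by
  change (lattice d).Adj x y ∧ Sym2.map φ s(x, y) ∈ S ↔ (lattice d).Adj (φ x) (φ y) ∧
    s(φ x, φ y) ∈ S
  rw [hφ, Sym2.map_mk]

lemma measurable_pull (φ : V d ≃ V d) : Measurable (pull φ) := by
  rw [measurable_set_iff]
  intro e
  exact measurable_set_mem (Sym2.map φ e)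

lemma pull_measurePreserving {φ : V d ≃ V d} (hφ : IsAuto φ) (p : I) :
    MeasurePreserving (pull φ) (perc p) (perc p) := by
  classical
  -- the permutation of the edges
  let τ : Ed d ≃ Ed d :=
    { toFun := Sym2.map φ
      invFun := Sym2.map φ.symm
      left_inv := by intro e; rw [Sym2.map_map]; simp
      right_inv := by intro e; rw [Sym2.map_map]; simp }
  have hτ : ∀ e, τ e = Sym2.map φ e := fun e => rfl
  have hmem : ∀ e, (τ e ∈ (lattice d).edgeSet) = (e ∈ (lattice d).edgeSet) := by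
    intro e
    rw [hτ]
    induction e using Sym2.ind with
    | _ a b =>
      rw [Sym2.map_mk, SimpleGraph.mem_edgeSet, SimpleGraph.mem_edgeSet]
      exact propext (hφ a b)
  have hmem' : ∀ e, (τ.symm e ∈ (lattice d).edgeSet) = (e ∈ (lattice d).edgeSet) := by
    intro e
    rw [← hmem, τ.apply_symm_apply]
  refine ⟨measurable_pull φ, ?_⟩
  set ν : Ed d → Measure Prop := fun i =>
    toNNReal p • Measure.dirac (i ∈ (lattice d).edgeSet) + toNNReal (unitInterval.symm p) •
      Measure.dirac False with hν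
  have hperc : perc p = (Measure.infinitePi ν).map (fun P : Ed d → Prop ↦ {i | P i}) :=
    setBernoulli_eq_map _ _
  have hmeas : Measurable (fun P : Ed d → Prop ↦ {i | P i}) :=
    MeasurableEquiv.setOfPred.measurable
  have hprob : ∀ i, IsProbabilityMeasure (ν i) := by
    intro i
    rw [hν]
    infer_instance
  have hre : (Measure.infinitePi ν).map (fun P e => P (τ e)) = Measure.infinitePi ν := by
    have h1 := Measure.infinitePi_map_piCongrLeft ν τ.symm
    have h2 : (fun i => ν (τ.symm i)) = ν := by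
      ext1 i
      simp only [hν, hmem']
    rw [h2] at h1
    conv_rhs => rw [← h1]
    congr 1
    ext P e
    have h3 := MeasurableEquiv.piCongrLeft_apply_apply (β := fun _ => Prop) τ.symm P (τ e)
    rw [τ.symm_apply_apply] at h3
    exact iff_of_eq h3.symm
  have hre_meas : Measurable (fun (P : Ed d → Prop) e => P (τ e)) := by
    fun_prop
  rw [hperc, Measure.map_map (measurable_pull φ) hmeas]
  conv_rhs => rw [← hre, Measure.map_map hmeas hre_meas]
  rfl

lemma perc_pull {φ : V d ≃ V d} (hφ : IsAuto φ) (p : I) {A : Set (Set (Ed d))}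
    (hA : MeasurableSet A) : (perc p).real (pull φ ⁻¹' A) = (perc p).real A := by
  rw [measureReal_def, measureReal_def,
    (pull_measurePreserving hφ p).measure_preimage hA.nullMeasurableSet]

lemma pull_reach {φ : V d ≃ V d} (hφ : IsAuto φ) (S : Set (Ed d)) (x y : V d) :
    (openGraph (pull φ S)).Reachable x y ↔ (openGraph S).Reachable (φ x) (φ y) := by
  let f : openGraph (pull φ S) ≃g openGraph S := ⟨φ, by
    intro a b
    exact (pull_adj hφ S a b).symm⟩
  exact (SimpleGraph.Iso.reachable_iff (φ := f)).symm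

lemma pull_Cn {φ : V d ≃ V d} (hφ : IsAuto φ) (S : Set (Ed d)) (W : Set (V d)) (x y : V d) :
    Cn (pull φ S) W x y ↔ Cn S (φ '' W) (φ x) (φ y) := by
  let f : res (openGraph (pull φ S)) W ≃g res (openGraph S) (φ '' W) := ⟨φ, by
    intro a b
    change ((openGraph S).Adj (φ a) (φ b) ∧ φ a ∈ φ '' W ∧ φ b ∈ φ '' W) ↔
      ((openGraph (pull φ S)).Adj a b ∧ a ∈ W ∧ b ∈ W)
    rw [pull_adj hφ, φ.injective.mem_set_image, φ.injective.mem_set_image]⟩
  exact (SimpleGraph.Iso.reachable_iff (φ := f)).symm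

/-- translation -/
def transE (c : V d) : V d ≃ V d := Equiv.addRight c

lemma transE_apply (c v : V d) : transE c v = v + c := rfl

lemma isAuto_transE (c : V d) : IsAuto (transE c) := by
  intro x y
  rw [lattice_adj, lattice_adj]
  simp only [transE_apply, Pi.add_apply, add_sub_add_right_eq_sub]

/-- permutations of the coordinates with changes of signs -/
def symE (π : Equiv.Perm (Fin d)) (ε : Fin d → ℤˣ) : V d ≃ V d where
  toFun x i := ε i * x (π i)
  invFun y i := ε (π.symm i) * y (π.symm i)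
  left_inv x := by
    ext i
    simp only [Equiv.apply_symm_apply]
    rw [← mul_assoc, ← Units.val_mul, Int.units_mul_self, Units.val_one, one_mul]
  right_inv y := by
    ext i
    simp only [Equiv.symm_apply_apply]
    rw [← mul_assoc, ← Units.val_mul, Int.units_mul_self, Units.val_one, one_mul]

lemma symE_apply (π : Equiv.Perm (Fin d)) (ε : Fin d → ℤˣ) (x : V d) (i : Fin d) :
    symE π ε x i = ε i * x (π i) := rfl

lemma abs_unit_mul (u : ℤˣ) (z : ℤ) : |(u : ℤ) * z| = |z| := by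
  rw [abs_mul]
  rcases Int.units_eq_one_or u with rfl | rfl <;> simp

lemma isAuto_symE (π : Equiv.Perm (Fin d)) (ε : Fin d → ℤˣ) : IsAuto (symE π ε) := by
  intro x y
  rw [lattice_adj, lattice_adj]
  have h1 : ∑ i, |symE π ε x i - symE π ε y i| = ∑ i, |x i - y i| := by
    rw [← Equiv.sum_comp π (fun i => |x i - y i|)]
    apply sum_congr rfl
    intro i _
    rw [symE_apply, symE_apply, ← mul_sub, abs_unit_mul]
  rw [h1]

end Pool.Agent.Lib.MP_566bac_pr.Zd
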