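import Pool.Agent.Lib.MP_566bac_pr.Zd.Base

/-!
# Boxes are connected; general boxes
-/

open Finset SimpleGraph

namespace Pool.Agent.Lib.MP_566bac_pr.Zd

variable {d : ℕ}

/-- the box with corners `lo` and `hi` -/
noncomputable def Bx (lo hi : V d) : Finset (V d) := Fintype.piFinset fun i => Finset.Icc (lo i) (hi i)

lemma mem_Bx {lo hi x : V d} : x ∈ Bx lo hi ↔ ∀ i, lo i ≤ x i ∧ x i ≤ hi i := by
  rw [Bx, Fintype.mem_piFinset]
  simp only [Finset.mem_Icc]

lemma Lam_eq_Bx (c : V d) (m : ℕ) : Lam c m = Bx (fun i => c i - m) (fun i => c i + m) := rfl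

/-- if all the edges of a box are open, then the box is connected -/
lemma bx_conn {S : Set (Ed d)} {lo hi : V d} (hS : ∀ e ∈ Ein (Bx lo hi), e ∈ S) :
    ∀ (k : ℕ) (x y : V d), x ∈ Bx lo hi → y ∈ Bx lo hi → (∑ i, (x i - y i).natAbs) = k →
      Cn S (Bx lo hi : Set (V d)) x y := by
  intro k
  induction k with
  | zero =>
    intro x y _ _ hk
    have h1 : x = y := by
      ext i
      have h2 := (sum_eq_zero_iff.mp hk) i (mem_univ i)
      omega
    rw [h1]
    exact Cn.refl _ _ _
  | succ k ih =>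
    intro x y hx hy hk
    have h1 : ∃ i, x i ≠ y i := by
      by_contra hcon
      push Not at hcon
      rw [sum_eq_zero (fun i _ => by rw [hcon i, sub_self]; rfl)] at hk
      omega
    obtain ⟨i, hi'⟩ := h1
    rw [mem_Bx] at hx hy
    -- the next vertex
    obtain ⟨x', hadj, hother, hmove⟩ : ∃ x' : V d, (lattice d).Adj x x' ∧ (∀ j, j ≠ i → x' j = x j) ∧
        ((x i < y i ∧ x' i = x i + 1) ∨ (y i < x i ∧ x' i = x i - 1)) := by
      rcases lt_or_gt_of_ne hi' with h | h
      · refine ⟨x + uv i, adj_add x i, ?_, Or.inl ⟨h, ?_⟩⟩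
        · intro j hj
          rw [Pi.add_apply, uv_ne hj, add_zero]
        · rw [Pi.add_apply, uv_same]
      · refine ⟨x - uv i, adj_sub x i, ?_, Or.inr ⟨h, ?_⟩⟩
        · intro j hj
          rw [Pi.sub_apply, uv_ne hj, sub_zero]
        · rw [Pi.sub_apply, uv_same]
    have hx' : x' ∈ Bx lo hi := by
      rw [mem_Bx]
      intro j
      rcases eq_or_ne j i with rfl | hj
      · have := hx j
        have := hy j
        omega
      · rw [hother j hj]
        exact hx j
    have hsum : ∑ j, (x' j - y j).natAbs = k := by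
      have e1 : ∑ j, (x j - y j).natAbs =
          (x i - y i).natAbs + ∑ j ∈ univ.erase i, (x j - y j).natAbs :=
        (Finset.add_sum_erase univ (fun j => (x j - y j).natAbs) (mem_univ i)).symm
      have e2 : ∑ j, (x' j - y j).natAbs =
          (x' i - y i).natAbs + ∑ j ∈ univ.erase i, (x' j - y j).natAbs :=
        (Finset.add_sum_erase univ (fun j => (x' j - y j).natAbs) (mem_univ i)).symm
      have e3 : ∑ j ∈ univ.erase i, (x' j - y j).natAbs = ∑ j ∈ univ.erase i, (x j - y j).natAbs := by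
        apply sum_congr rfl
        intro j hj
        rw [hother j (ne_of_mem_erase hj)]
      rw [e1] at hk
      rw [e2, e3]
      omega
    have hxB : x ∈ Bx lo hi := mem_Bx.mpr hx
    exact (Cn.step hadj (hS _ (mem_Ein.mpr ⟨hxB, hx', hadj⟩)) (by exact_mod_cast hxB)
      (by exact_mod_cast hx')).trans (ih x' y hx' (mem_Bx.mpr hy) hsum)

lemma bx_conn' {S : Set (Ed d)} {lo hi : V d} (hS : ∀ e ∈ Ein (Bx lo hi), e ∈ S) {x y : V d}
    (hx : x ∈ Bx lo hi) (hy : y ∈ Bx lo hi) : Cn S (Bx lo hi : Set (V d)) x y :=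
  bx_conn hS _ x y hx hy rfl

lemma lam_conn {S : Set (Ed d)} {c : V d} {m : ℕ} (hS : ∀ e ∈ Ein (Lam c m), e ∈ S) {x y : V d}
    (hx : x ∈ Lam c m) (hy : y ∈ Lam c m) : Cn S (Lam c m : Set (V d)) x y :=
  bx_conn' hS hx hy

end Pool.Agent.Lib.MP_566bac_pr.Zd
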