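import Pool.Agent.Lib.MP_566bac_pr.Zd.Prod

/-!
# Closing random finite sets of coordinates
-/

open Finset

namespace Pool.Agent.Lib.MP_566bac_pr.Zd

variable {ι κ : Type*}

section
open Classical

/-- the basic identity: closing a set of coordinates which depends on the value of `f` -/
lemma Pr_closed_eq {w : ι → ℝ} {K U : Finset ι} (hK : K ⊆ U) (f : Set ι → κ)
    (s : Finset κ) (G : Set (Set ι)) (hf : ∀ ω : Finset ι, ω ⊆ U → (ω : Set ι) ∈ G → f ω ∈ s)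
    (hdet : ∀ k ∈ s, Det K (G ∩ {S | f S = k})) (J : κ → Finset ι)
    (hJ : ∀ k ∈ s, J k ⊆ U ∧ Disjoint K (J k)) :
    Pr w U (G ∩ {S | ∀ e ∈ J (f S), e ∉ S}) =
      ∑ k ∈ s, Pr w U (G ∩ {S | f S = k}) * ∏ e ∈ J k, (1 - w e) := by
  rw [Pr_partition w U s f (G ∩ {S | ∀ e ∈ J (f S), e ∉ S}) fun ω h1 h2 => hf ω h1 h2.1]
  apply sum_congr rfl
  intro k hk
  obtain ⟨h1, h2⟩ := hJ k hk
  rw [← Pr_none w h1]
  have hd : Det (J k) {S : Set ι | ∀ e ∈ J k, e ∉ S} := by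
    intro S S' h h1 e he h2
    exact h1 e he ((h e he).mpr h2)
  rw [← Pr_indep hK h1 h2 (hdet k hk) hd]
  congr 1
  ext S
  simp only [Set.mem_inter_iff, Set.mem_ofPred_eq]
  constructor
  · rintro ⟨⟨h3, h4⟩, h5⟩
    subst h5
    exact ⟨⟨h3, rfl⟩, h4⟩
  · rintro ⟨⟨h3, h5⟩, h4⟩
    subst h5
    exact ⟨⟨h3, h4⟩, rfl⟩

lemma Pr_closed_ge {w : ι → ℝ} (hw : Wt w) {K U : Finset ι} (hK : K ⊆ U) (f : Set ι → κ)
    (s : Finset κ) (G : Set (Set ι)) (hf : ∀ ω : Finset ι, ω ⊆ U → (ω : Set ι) ∈ G → f ω ∈ s)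
    (hdet : ∀ k ∈ s, Det K (G ∩ {S | f S = k})) (J : κ → Finset ι)
    (hJ : ∀ k ∈ s, J k ⊆ U ∧ Disjoint K (J k)) {c : ℝ}
    (hc : ∀ k ∈ s, c ≤ ∏ e ∈ J k, (1 - w e)) :
    c * Pr w U G ≤ Pr w U (G ∩ {S | ∀ e ∈ J (f S), e ∉ S}) := by
  rw [Pr_closed_eq hK f s G hf hdet J hJ, Pr_partition w U s f G hf, mul_sum]
  apply sum_le_sum
  intro k hk
  rw [mul_comm]
  exact mul_le_mul_of_nonneg_left (hc k hk) (Pr_nonneg hw _ _)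

lemma Pr_closed_le {w : ι → ℝ} (hw : Wt w) {K U : Finset ι} (hK : K ⊆ U) (f : Set ι → κ)
    (s : Finset κ) (G : Set (Set ι)) (hf : ∀ ω : Finset ι, ω ⊆ U → (ω : Set ι) ∈ G → f ω ∈ s)
    (hdet : ∀ k ∈ s, Det K (G ∩ {S | f S = k})) (J : κ → Finset ι)
    (hJ : ∀ k ∈ s, J k ⊆ U ∧ Disjoint K (J k)) {c : ℝ}
    (hc : ∀ k ∈ s, ∏ e ∈ J k, (1 - w e) ≤ c) :
    Pr w U (G ∩ {S | ∀ e ∈ J (f S), e ∉ S}) ≤ c * Pr w U G := by
  rw [Pr_closed_eq hK f s G hf hdet J hJ, Pr_partition w U s f G hf, mul_sum]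
  apply sum_le_sum
  intro k hk
  rw [mul_comm c]
  exact mul_le_mul_of_nonneg_left (hc k hk) (Pr_nonneg hw _ _)

/-- conditioning on the value of `f`, general form -/
lemma Pr_cond_eq {w : ι → ℝ} {K U : Finset ι} (hK : K ⊆ U) (f : Set ι → κ)
    (s : Finset κ) (G : Set (Set ι)) (hf : ∀ ω : Finset ι, ω ⊆ U → (ω : Set ι) ∈ G → f ω ∈ s)
    (hdet : ∀ k ∈ s, Det K (G ∩ {S | f S = k})) (B : κ → Set (Set ι)) (J : κ → Finset ι)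
    (hJ : ∀ k ∈ s, J k ⊆ U ∧ Disjoint K (J k)) (hB : ∀ k ∈ s, Det (J k) (B k)) :
    Pr w U (G ∩ {S | S ∈ B (f S)}) = ∑ k ∈ s, Pr w U (G ∩ {S | f S = k}) * Pr w U (B k) := by
  rw [Pr_partition w U s f (G ∩ {S | S ∈ B (f S)}) fun ω h1 h2 => hf ω h1 h2.1]
  apply sum_congr rfl
  intro k hk
  obtain ⟨h1, h2⟩ := hJ k hk
  rw [← Pr_indep hK h1 h2 (hdet k hk) (hB k hk)]
  congr 1
  ext S
  simp only [Set.mem_inter_iff, Set.mem_ofPred_eq]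
  constructor
  · rintro ⟨⟨h3, h4⟩, h5⟩
    subst h5
    exact ⟨⟨h3, rfl⟩, h4⟩
  · rintro ⟨⟨h3, h5⟩, h4⟩
    subst h5
    exact ⟨⟨h3, h4⟩, rfl⟩

/-- conditioning on the value of `f`, upper bound -/
lemma Pr_cond_le {w : ι → ℝ} (hw : Wt w) {K U : Finset ι} (hK : K ⊆ U) (f : Set ι → κ)
    (s : Finset κ) (G : Set (Set ι)) (hf : ∀ ω : Finset ι, ω ⊆ U → (ω : Set ι) ∈ G → f ω ∈ s)
    (hdet : ∀ k ∈ s, Det K (G ∩ {S | f S = k})) (B : κ → Set (Set ι)) (J : κ → Finset ι)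
    (hJ : ∀ k ∈ s, J k ⊆ U ∧ Disjoint K (J k)) (hB : ∀ k ∈ s, Det (J k) (B k)) {c : ℝ}
    (hc : ∀ k ∈ s, Pr w U (B k) ≤ c) :
    Pr w U (G ∩ {S | S ∈ B (f S)}) ≤ c * Pr w U G := by
  rw [Pr_cond_eq hK f s G hf hdet B J hJ hB, Pr_partition w U s f G hf, mul_sum]
  apply sum_le_sum
  intro k hk
  rw [mul_comm c]
  exact mul_le_mul_of_nonneg_left (hc k hk) (Pr_nonneg hw _ _)

end

end Pool.Agent.Lib.MP_566bac_pr.Zd
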