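import Mathlib

/-!
# Bond percolation on the cubic lattice: definitions
-/

open MeasureTheory ProbabilityTheory Filter

namespace Pool.Agent.Lib.MP_566bac_pr.Zd

/-- the vertices of the cubic lattice -/
abbrev V (d : ℕ) : Type := Fin d → ℤ

/-- The cubic lattice: the graph on `ℤ^d` whose edges join nearest neighbours. -/
def lattice (d : ℕ) : SimpleGraph (V d) where
  Adj x y := ∑ i, |x i - y i| = 1
  symm := ⟨fun x y h => by
    rw [← h]
    exact Finset.sum_congr rfl fun i _ => abs_sub_comm _ _⟩
  loopless := ⟨fun x h => by simp at h⟩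

/-- The graph of the open edges, when `S` is the set of open edges. -/
def openGraph {d : ℕ} (S : Set (Sym2 (V d))) : SimpleGraph (V d) where
  Adj x y := (lattice d).Adj x y ∧ s(x, y) ∈ S
  symm := ⟨fun x y h => ⟨h.1.symm, by rw [Sym2.eq_swap]; exact h.2⟩⟩
  loopless := ⟨fun x h => (lattice d).loopless.irrefl x h.1⟩

/-- `C` is an infinite open cluster: an infinite connected component of the open graph. -/
def IsInfiniteCluster {d : ℕ} (S : Set (Sym2 (V d))) (C : Set (V d)) : Prop :=
  C.Infinite ∧ ∃ x, C = {y | (openGraph S).Reachable x y}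

/-- `h` is harmonic on `C`: at every site of `C` its value is the average of its values over the
neighbours of the site in the open graph. -/
def IsHarmonicOn {d : ℕ} (S : Set (Sym2 (V d))) (C : Set (V d)) (h : V d → ℝ) : Prop :=
  ∀ x ∈ C, h x = (∑ᶠ y ∈ (openGraph S).neighborSet x, h y) /
    ((openGraph S).neighborSet x).ncard

/-- The ball of radius `N` centred at the origin, for the norm `ν` on `ℝ^d`. -/
def ball {d : ℕ} (ν : Seminorm ℝ (Fin d → ℝ)) (N : ℕ) : Set (V d) :=
  {x | ν (fun i => (x i : ℝ)) ≤ N}

/-- The set `A` has positive density: `liminf |A ∩ B_N| / |B_N| > 0`, where `B_N` is the ball of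
radius `N` centred at the origin, for every norm `ν` on `ℝ^d`. -/
def HasPositiveDensity {d : ℕ} (A : Set (V d)) : Prop :=
  ∀ ν : Seminorm ℝ (Fin d → ℝ), (∀ v, ν v = 0 → v = 0) →
    0 < liminf (fun N : ℕ => ((A ∩ ball ν N).ncard : ℝ) / ((ball ν N).ncard : ℝ)) atTop

/-- The critical probability of bond percolation on `ℤ^d`: the infimum of the parameters `q`
for which there is an infinite open cluster with positive probability. -/
noncomputable def criticalProbability (d : ℕ) : ℝ :=
  sInf {q : ℝ | ∃ hq : q ∈ Set.Icc (0 : ℝ) 1,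
    0 < setBernoulli (lattice d).edgeSet ⟨q, hq⟩ {S | ∃ C, IsInfiniteCluster S C}}

end Pool.Agent.Lib.MP_566bac_pr.Zd
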