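import Pool.Agent.Lib.MP_566bac_pr.Zd.ExplB

/-!
# Long connections in slabs
-/

open MeasureTheory ProbabilityTheory Finset unitInterval SimpleGraph
open scoped ENNReal

namespace Pool.Agent.Lib.MP_566bac_pr.Zd

variable {d : ℕ}

section
open Classical

/-- the square of side `3 ^ K` -/
noncomputable def Gk (K : ℕ) : Finset (ℤ × ℤ) := Finset.Ico 0 (3 ^ K : ℤ) ×ˢ Finset.Ico 0 (3 ^ K : ℤ)

lemma zero_mem_Gk (K : ℕ) : (0, 0) ∈ Gk K := by
  rw [Gk, mem_product, Finset.mem_Ico]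
  have : (0 : ℤ) < 3 ^ K := by positivity
  exact ⟨⟨le_rfl, this⟩, ⟨le_rfl, this⟩⟩

lemma Zc_apply1 {i1 i2 : Fin d} (h12 : i1 ≠ i2) (h : ℕ) (z : ℤ × ℤ) :
    Zc i1 i2 h z i1 = z.1 * h := by
  rw [Zc, Pi.add_apply, smul_uv_apply, smul_uv_apply, if_pos rfl, if_neg h12, add_zero]

lemma Zc_apply2 {i1 i2 : Fin d} (h12 : i1 ≠ i2) (h : ℕ) (z : ℤ × ℤ) :
    Zc i1 i2 h z i2 = z.2 * h := by
  rw [Zc, Pi.add_apply, smul_uv_apply, smul_uv_apply, if_pos rfl, if_neg h12.symm, zero_add]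

lemma Zc_apply_ne {i1 i2 j : Fin d} (h1 : j ≠ i1) (h2 : j ≠ i2) (h : ℕ) (z : ℤ × ℤ) :
    Zc i1 i2 h z j = 0 := by
  rw [Zc, Pi.add_apply, smul_uv_apply, smul_uv_apply, if_neg h1, if_neg h2, add_zero]

lemma Zc_zero {i1 i2 : Fin d} (h : ℕ) : Zc i1 i2 h (0, 0) = 0 := by
  rw [Zc]
  simp

/-- few labels can be used for an edge -/
lemma card_labels {i1 i2 : Fin d} (h12 : i1 ≠ i2) {h : ℕ} (hh : 0 < h) (G : Finset (ℤ × ℤ))
    (e : Ed d) : (G.filter fun z => e ∈ Ein (Lam (Zc i1 i2 h z) (3 * h))).card ≤ 49 := by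
  induction e using Sym2.ind with
  | _ x y =>
    set A : Finset (ℤ × ℤ) := Finset.Icc (x i1 / h - 3) (x i1 / h + 3) ×ˢ
      Finset.Icc (x i2 / h - 3) (x i2 / h + 3) with hA
    have hcard : A.card = 49 := by
      rw [hA, card_product, Int.card_Icc, Int.card_Icc,
        show x i1 / h + 3 + 1 - (x i1 / h - 3) = 7 by ring,
        show x i2 / h + 3 + 1 - (x i2 / h - 3) = 7 by ring]
      rfl
    have hpos : (0 : ℤ) < h := by exact_mod_cast hh
    have key : ∀ (t u : ℤ), |t - u * h| ≤ 3 * h → t / h - 3 ≤ u ∧ u ≤ t / h + 3 := by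
      intro t u htu
      rw [abs_le] at htu
      constructor
      · have h1 : t / h < u + 4 := by
          apply Int.ediv_lt_of_lt_mul hpos
          nlinarith
        omega
      · have h1 : u - 3 ≤ t / h := by
          rw [Int.le_ediv_iff_mul_le hpos]
          nlinarith
        omega
    rw [← hcard]
    apply card_le_card
    intro z hz
    rw [mem_filter, mem_Ein, mem_Lam, dst_le] at hz
    have h1 := hz.2.1 i1
    have h2 := hz.2.1 i2
    rw [Zc_apply1 h12] at h1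
    rw [Zc_apply2 h12] at h2
    push_cast at h1 h2
    rw [hA, mem_product, Finset.mem_Icc, Finset.mem_Icc]
    exact ⟨key _ _ h1, key _ _ h2⟩

lemma prod_Jc {i1 i2 : Fin d} (h12 : i1 ≠ i2) {h : ℕ} (hh : 0 < h) (G : Finset (ℤ × ℤ))
    (e : Ed d) {q δ : ℝ} (hq : q ≤ 1) (hδ0 : 0 ≤ δ) (hδ1 : δ ≤ 1) :
    (1 - q) * (1 - δ) ^ 98 ≤ ∏ c ∈ Jc G (Zc i1 i2 h) h e, (1 - cw q δ c) := by
  unfold Jc
  rw [prod_insert]
  · have h1 : cw q δ (bc e) = q := by simp [cw, bc]
    rw [h1]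
    apply mul_le_mul_of_nonneg_left _ (by linarith)
    have h2 : ∀ c ∈ (((G.filter fun z => e ∈ Ein (Lam (Zc i1 i2 h z) (3 * h))) ×ˢ
        (univ : Finset Bool)).image fun q => lc q.1 q.2 e), 1 - cw q δ c = 1 - δ := by
      intro c hc
      obtain ⟨p, _, rfl⟩ := mem_image.mp hc
      simp [cw, lc]
    rw [prod_congr rfl h2, prod_const]
    apply pow_le_pow_of_le_one (by linarith) (by linarith)
    refine card_image_le.trans ?_
    rw [card_product, card_univ, Fintype.card_bool]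
    have := card_labels h12 hh G e
    omega
  · intro hcon
    obtain ⟨p, _, hp⟩ := mem_image.mp hcon
    simp [lc, bc] at hp

lemma Jc_fst {G : Finset (ℤ × ℤ)} {Z : ℤ × ℤ → V d} {h : ℕ} {e : Ed d} {q : Co d}
    (hq : q ∈ Jc G Z h e) : q.1 = e := by
  rcases mem_Jc.mp hq with rfl | ⟨z, _, _, b, rfl⟩ <;> rfl

/-- **Long connections in slabs.** -/
theorem expl_slab (hd : 0 < d) {p : I}
    (hp : criticalProbability d < p) {γ : ℝ} (hγ0 : 0 ≤ γ) (hγ1 : γ < 1)
    (hstat : ∀ K, ∀ z ∈ Gk K, 1 / 2 ≤ Pr (fun _ => γ) (Gk K) {ω | RS ω (0, 0) z}) :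
    ∃ h : ℕ, 0 < h ∧ ∃ β : ℝ, 0 < β ∧ ∀ {i1 i2 : Fin d}, i1 ≠ i2 → ∀ K, ∀ W : Finset (V d),
      (∀ z ∈ Gk K, Lam (Zc i1 i2 h z) (2 * h) ⊆ W) → ∀ zt ∈ Gk K,
      β ≤ (perc p).real {S | ∃ y ∈ Lam (Zc i1 i2 h zt) h, Cn S (W : Set (V d)) 0 y} := by
  -- the parameters
  have hpc : 0 ≤ criticalProbability d := Real.sInf_nonneg fun x hx => hx.1.1
  set q : ℝ := (criticalProbability d + p) / 2 with hqdef
  have hp1 : (p : ℝ) ≤ 1 := p.2.2
  have hq1 : criticalProbability d < q := by rw [hqdef]; linarith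
  have hq2 : q < p := by rw [hqdef]; linarith
  have hq3 : q < 1 := by linarith
  have hq0 : 0 ≤ q := by linarith
  set qI : I := ⟨q, hq0, hq3.le⟩ with hqI
  have hqpos : 0 < q := by linarith
  set ρ : ℝ := (1 - p) / (1 - q) with hρ
  have h1q : 0 < 1 - q := by linarith
  have hρ0 : 0 ≤ ρ := div_nonneg (by linarith) h1q.le
  have hρ1 : ρ < 1 := by rw [hρ, div_lt_one h1q]; linarith
  set δ : ℝ := (1 - ρ) / 98 with hδ
  have hδ0 : 0 < δ := by rw [hδ]; linarith
  have hδ1 : δ ≤ 1 := by rw [hδ]; linarith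
  have hδρ : 1 - p ≤ (1 - q) * (1 - δ) ^ 98 := by
    have e1 : 1 + (98 : ℕ) * (-δ) ≤ (1 + -δ) ^ 98 :=
      one_add_mul_le_pow (by linarith) 98
    have e2 : (1 : ℝ) + (98 : ℕ) * (-δ) = ρ := by
      rw [hδ]; push_cast; ring
    rw [e2, ← sub_eq_add_neg] at e1
    have e3 : (1 - q) * ρ = 1 - p := by
      rw [hρ]; field_simp
    rw [← e3]
    exact mul_le_mul_of_nonneg_left e1 h1q.le
  obtain ⟨m, n, hmn, hstep⟩ := step_prob hd (p := qI) hq1 hq3 hδ0 hδ1 (ε := 1 - γ) (by linarith)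
  set h : ℕ := n + m + 1 with hh
  have hhpos : 0 < h := by omega
  set E0 := Ein (Lam (0 : V d) m) with hE0
  refine ⟨h, hhpos, q ^ E0.card * (1 / 2), by positivity, ?_⟩
  intro i1 i2 h12 K W hW zt hzt
  set G := Gk K with hG
  set Z := Zc i1 i2 h with hZ
  set U := UU G Z h W with hU
  have hw : Wt (cw (d := d) q δ) := wt_cw hq0 hq3.le hδ0.le hδ1
  have hgeo : ∀ a ∈ G, ∀ b ∈ G, L2.Adj a b → ∀ c : V d, dst c (Z a) ≤ h →
      ∃ (i : Fin d) (τ : Fin d → ℤˣ), StepOk G Z h m n W c b i τ := by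
    intro a ha b hb hab c hc
    obtain ⟨i, τ, hτ'⟩ := geo (i1 := i1) (i2 := i2) hab hc
    have hτ : ∀ x ∈ Fc c i τ n, dst (seedC x i (τ i) m) (Z b) ≤ h := hτ'
    have hnear : dst (Z a) (Z b) ≤ h := Zc_near hab
    refine ⟨i, τ, hb, ?_, ?_, hτ, ?_, ?_⟩
    · refine subset_trans ?_ (hW a ha)
      intro x hx
      rw [mem_Lam] at hx ⊢
      have := dst_tri x c (Z a)
      omega
    · intro x hx
      rw [mem_Lam] at hx ⊢
      have := dst_tri x c (Z a)
      have := dst_tri x (Z a) (Z b)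
      omega
    · intro x hx
      refine subset_trans ?_ (hW b hb)
      intro y hy
      rw [mem_Lam] at hy ⊢
      have h1 := hτ x hx
      have := dst_tri y (seedC x i (τ i) m) (Z b)
      omega
    · intro x hx y hy
      rw [mem_Lam] at hy ⊢
      have h1 := hτ x hx
      have := dst_tri y (seedC x i (τ i) m) (Z b)
      omega
  have h00 : (0, 0) ∈ G := zero_mem_Gk K
  have hZ0 : Z (0, 0) = 0 := Zc_zero h
  have hL0 : Lam (0 : V d) m ⊆ W := by
    refine subset_trans ?_ (hW (0, 0) h00)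
    rw [hZ0]
    exact Lam_mono 0 (by omega)
  set B : Set (Set (Co d)) := {ω | ∀ q ∈ E0.image bc, q ∈ ω} with hB
  have hEU : E0.image bc ⊆ U := by
    intro x hx
    obtain ⟨e, he, rfl⟩ := mem_image.mp hx
    exact bc_mem_UU (Ein_mono hL0 he)
  have hPB : Pr (cw q δ) U B = q ^ E0.card := by
    rw [hB, Pr_all _ hEU, prod_image (fun a _ b _ hab => bc_inj hab)]
    rw [prod_congr rfl (fun e _ => show cw (d := d) q δ (bc e) = q by simp [cw, bc]), prod_const]
  have hex := explore (Z := Z) (h := h) (m := m) (n := n) (W := W) (G := G) (p := q) (δ := δ) (γ := γ) hq0 hq3.le hδ0.le hδ1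
    hγ0 hγ1.le (by
      intro C c z i τ U' h1 h2 h3 h4
      have := hstep C c z i τ U' h1 h2 h3 h4
      linarith) hgeo zt 0 _ {(0, 0)} ∅ (by simpa using h00) (empty_subset _) rfl (Lam 0 m)
    (fun _ => 0) B hL0 (by
      intro z hz
      rw [mem_singleton] at hz
      subst hz
      rw [hZ0, dst_self]
      exact ⟨Nat.zero_le _, subset_rfl⟩) (by
      apply det_mono (E := E0.image bc)
      · intro x hx
        rw [kn, mem_filter]
        refine ⟨hEU hx, Or.inl ?_⟩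
        obtain ⟨e, he, rfl⟩ := mem_image.mp hx
        refine ⟨rfl, ?_⟩
        induction e using Sym2.ind with
        | _ u v => exact ⟨u, (mem_Ein.mp he).1, Sym2.mem_mk_left u v⟩
      · intro ω ω' h1 h2 x hx
        exact (h1 x hx).mp (h2 x hx)) (by
      intro ω hω x hx
      have h1 : Cn (fin G Z h W ω) (Lam (0 : V d) m : Set (V d)) 0 x := by
        apply lam_conn _ (self_mem_Lam 0 m) hx
        intro e he
        exact fin_of_bs (Ein_mono hL0 he) (hω (bc e) (mem_image_of_mem _ he))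
      exact h1.mono subset_rfl (by exact_mod_cast hL0))
  rw [← hU, hPB] at hex
  have hsv : 1 / 2 ≤ sv γ G {(0, 0)} ∅ zt := (hstat K zt hzt).trans (sv_start hγ0 hγ1.le h00)
  have h1 : q ^ E0.card * (1 / 2) ≤ Pr (cw q δ) U (Tg G Z h W 0 zt) := by
    refine le_trans (mul_le_mul_of_nonneg_left hsv (by positivity)) (hex.trans ?_)
    exact Pr_mono hw Set.inter_subset_right
  -- the coupling
  set T : Set (Set (Ed d)) := {S | ∃ y ∈ Lam (Z zt) h, Cn S (W : Set (V d)) 0 y} with hT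
  have hTinc : Inc T := by
    rintro S S' hSS ⟨y, hy, hc⟩
    exact ⟨y, hy, hc.mono hSS subset_rfl⟩
  have hTdet : Det (Ein W) T :=
    det_res (W := W) fun G => ∃ y ∈ Lam (Z zt) h, G.Reachable 0 y
  have h2 := Pr_image_le (w := cw (d := d) q δ) (v := fun _ : Ed d => (p : ℝ)) hw (wt_const p)
    (Ein W) (Jc G Z h) (by
      intro e _ f _ hef
      rw [Finset.disjoint_left]
      intro x hx hx'
      exact hef ((Jc_fst hx).symm.trans (Jc_fst hx'))) (by
      intro e _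
      exact hδρ.trans (prod_Jc h12 hhpos G e hq3.le hδ0.le hδ1)) hTinc
  rw [perc_det p (lat_Ein W) hTdet, P0]
  refine h1.trans (le_trans (le_of_eq ?_) h2)
  rw [hU, UU]
  have e5 : ∀ i1 i2 : DecidableEq (Co d), @Finset.biUnion _ _ i1 (Ein W) (Jc G Z h) =
      @Finset.biUnion _ _ i2 (Ein W) (Jc G Z h) := by
    intro i1 i2
    rw [Subsingleton.elim i1 i2]
  exact congrArg (fun X => Pr (cw q δ) X (Tg G Z h W 0 zt)) (e5 _ _)

end

end Pool.Agent.Lib.MP_566bac_pr.Zd
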