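import Pool.Agent.Lib.MP_566bac_pr.Zd.Prod
import Pool.Agent.Lib.MP_566bac_pr.Crossing

/-!
# Site percolation on finite parts of the square lattice: the value function of an exploration
-/

open Finset SimpleGraph

namespace Pool.Agent.Lib.MP_566bac_pr.Zd

lemma Pr_ins {ι : Type*} [hdec : DecidableEq ι] {w : ι → ℝ} {E : Finset ι} {e : ι} (he : e ∉ E)
    (A : Set (Set ι)) : Pr w (insert e E) A =
      w e * Pr w E {S | insert e S ∈ A} + (1 - w e) * Pr w E {S | S \ {e} ∈ A} := by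
  have hi : hdec = fun a b => Classical.propDecidable (a = b) := Subsingleton.elim _ _
  subst hi
  exact Pr_insert (w := w) he A

/-- the square lattice -/
abbrev L2 : SimpleGraph (ℤ × ℤ) := Pool.Agent.Lib.MP_566bac_pr.lattice

/-- `a` and `b` are connected by a walk in `X` -/
def RS (X : Set (ℤ × ℤ)) (a b : ℤ × ℤ) : Prop := ∃ p : L2.Walk a b, ∀ v ∈ p.support, v ∈ X

lemma RS.mono {X Y : Set (ℤ × ℤ)} (h : X ⊆ Y) {a b : ℤ × ℤ} (h1 : RS X a b) : RS Y a b := by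
  obtain ⟨p, hp⟩ := h1
  exact ⟨p, fun v hv => h (hp v hv)⟩

lemma RS.symm {X : Set (ℤ × ℤ)} {a b : ℤ × ℤ} (h1 : RS X a b) : RS X b a := by
  obtain ⟨p, hp⟩ := h1
  exact ⟨p.reverse, fun v hv => hp v (by simpa using hv)⟩

lemma RS.trans {X : Set (ℤ × ℤ)} {a b c : ℤ × ℤ} (h1 : RS X a b) (h2 : RS X b c) : RS X a c := by
  obtain ⟨p, hp⟩ := h1
  obtain ⟨q, hq⟩ := h2
  refine ⟨p.append q, ?_⟩
  intro v hv
  rw [Walk.mem_support_append_iff] at hv
  exact hv.elim (hp v) (hq v)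

lemma RS.refl {X : Set (ℤ × ℤ)} {a : ℤ × ℤ} (h : a ∈ X) : RS X a a :=
  ⟨Walk.nil, fun v hv => by
    rw [Walk.support_nil, List.mem_singleton] at hv
    rw [hv]
    exact h⟩

lemma RS.step {X : Set (ℤ × ℤ)} {a b : ℤ × ℤ} (h : L2.Adj a b) (ha : a ∈ X) (hb : b ∈ X) :
    RS X a b := ⟨Walk.cons h Walk.nil, fun v hv => by
    rw [Walk.support_cons, Walk.support_nil, List.mem_cons, List.mem_singleton] at hv
    rcases hv with rfl | rfl
    · exact ha
    · exact hb⟩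

lemma RS.left {X : Set (ℤ × ℤ)} {a b : ℤ × ℤ} (h : RS X a b) : a ∈ X := by
  obtain ⟨p, hp⟩ := h
  exact hp a p.start_mem_support

lemma RS.right {X : Set (ℤ × ℤ)} {a b : ℤ × ℤ} (h : RS X a b) : b ∈ X := by
  obtain ⟨p, hp⟩ := h
  exact hp b p.end_mem_support

/-- exit from a set -/
lemma RS.exit {X A : Set (ℤ × ℤ)} {a b : ℤ × ℤ} (h : RS X a b) (ha : a ∈ A) (hb : b ∉ A) :
    ∃ u v, u ∈ A ∧ v ∉ A ∧ v ∈ X ∧ L2.Adj u v := by
  obtain ⟨p, hp⟩ := h
  induction p with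
  | nil => exact absurd ha hb
  | @cons u v w hadj p ih =>
    by_cases hv : v ∈ A
    · exact ih hv hb fun x hx => hp x (by simp [hx])
    · exact ⟨u, v, ha, hv, hp v (by simp), hadj⟩

section
open Classical

/-- the set `A` is connected to `z` by sites of `A` and of the configuration -/
def Ev (A : Finset (ℤ × ℤ)) (z : ℤ × ℤ) : Set (Set (ℤ × ℤ)) :=
  {ω | ∃ a ∈ A, RS ((A : Set (ℤ × ℤ)) ∪ ω) a z}

/-- the value of the state with accepted sites `A` and rejected sites `R` -/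
noncomputable def sv (γ : ℝ) (G A R : Finset (ℤ × ℤ)) (z : ℤ × ℤ) : ℝ :=
  Pr (fun _ => γ) (G \ (A ∪ R)) (Ev A z)

lemma wt_g {γ : ℝ} (h0 : 0 ≤ γ) (h1 : γ ≤ 1) : Wt (fun _ : ℤ × ℤ => γ) := fun _ => ⟨h0, h1⟩

lemma sv_nonneg {γ : ℝ} (h0 : 0 ≤ γ) (h1 : γ ≤ 1) (G A R : Finset (ℤ × ℤ)) (z : ℤ × ℤ) :
    0 ≤ sv γ G A R z := Pr_nonneg (wt_g h0 h1) _ _

lemma sv_le_one {γ : ℝ} (h0 : 0 ≤ γ) (h1 : γ ≤ 1) (G A R : Finset (ℤ × ℤ)) (z : ℤ × ℤ) :
    sv γ G A R z ≤ 1 := Pr_le_one (wt_g h0 h1) _ _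

lemma Ev_mono {A A' : Finset (ℤ × ℤ)} (h : A ⊆ A') (z : ℤ × ℤ) : Ev A z ⊆ Ev A' z := by
  rintro ω ⟨a, ha, h1⟩
  refine ⟨a, h ha, h1.mono ?_⟩
  exact Set.union_subset_union_left _ (by exact_mod_cast h)

lemma sv_zero {γ : ℝ} {G A R : Finset (ℤ × ℤ)} {z : ℤ × ℤ} (hz : z ∉ A)
    (h : ∀ a ∈ A, ∀ b ∈ G \ (A ∪ R), ¬ L2.Adj a b) : sv γ G A R z = 0 := by
  rw [sv, ← Pr_empty_set (fun _ => γ) (G \ (A ∪ R))]
  apply Pr_congr
  intro ω hω
  simp only [Set.mem_empty_iff_false, iff_false]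
  rintro ⟨a, ha, h1⟩
  obtain ⟨u, v, h2, h3, h4, h5⟩ := h1.exit (A := (A : Set (ℤ × ℤ))) (by exact_mod_cast ha)
    (by exact_mod_cast hz)
  rcases h4 with h4 | h4
  · exact h3 h4
  · exact h u (by exact_mod_cast h2) v (hω (by exact_mod_cast h4)) h5

/-- **The recursion.** -/
lemma sv_rec {γ : ℝ} {G A R : Finset (ℤ × ℤ)} {z a b : ℤ × ℤ} (ha : a ∈ A)
    (hb : b ∈ G \ (A ∪ R)) (hab : L2.Adj a b) :
    sv γ G A R z = γ * sv γ G (insert b A) R z + (1 - γ) * sv γ G A (insert b R) z := by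
  rw [mem_sdiff, mem_union, not_or] at hb
  have e1 : G \ (A ∪ R) = insert b (G \ (insert b A ∪ R)) := by
    ext x
    simp only [mem_sdiff, mem_union, mem_insert]
    constructor
    · rintro ⟨h1, h2⟩
      by_cases h3 : x = b
      · exact Or.inl h3
      · exact Or.inr ⟨h1, by tauto⟩
    · rintro (rfl | ⟨h1, h2⟩)
      · exact ⟨hb.1, by tauto⟩
      · exact ⟨h1, by tauto⟩
  have e2 : G \ (A ∪ insert b R) = G \ (insert b A ∪ R) := by
    ext x
    simp only [mem_sdiff, mem_union, mem_insert]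
    tauto
  have e3 : b ∉ G \ (insert b A ∪ R) := by
    simp
  rw [sv, e1, Pr_ins e3, sv, sv, e2]
  congr 2
  · apply Pr_congr
    intro ω _
    simp only [Set.mem_ofPred_eq]
    have e4 : (A : Set (ℤ × ℤ)) ∪ insert b (ω : Set (ℤ × ℤ)) =
        ((insert b A : Finset (ℤ × ℤ)) : Set (ℤ × ℤ)) ∪ ω := by
      rw [Finset.coe_insert]
      ext x
      simp only [Set.mem_union, Set.mem_insert_iff]
      tauto
    constructor
    · rintro ⟨c, hc, h1⟩
      rw [e4] at h1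
      exact ⟨c, mem_insert_of_mem hc, h1⟩
    · rintro ⟨c, hc, h1⟩
      rw [mem_insert] at hc
      rcases hc with rfl | hc
      · refine ⟨a, ha, ?_⟩
        rw [e4]
        refine (RS.step hab (Or.inl ?_) (Or.inl ?_)).trans h1
        · rw [Finset.mem_coe]; exact mem_insert_of_mem ha
        · rw [Finset.mem_coe]; exact mem_insert_self _ _
      · refine ⟨c, hc, ?_⟩
        rw [e4]
        exact h1
  · apply Pr_congr
    intro ω hω
    simp only [Set.mem_ofPred_eq]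
    have e4 : (ω : Set (ℤ × ℤ)) \ {b} = ω := by
      ext x
      simp only [Set.mem_sdiff, Finset.mem_coe, Set.mem_singleton_iff]
      refine ⟨fun h => h.1, fun h => ⟨h, ?_⟩⟩
      rintro rfl
      exact e3 (hω h)
    rw [e4]

lemma sv_le {γ : ℝ} (h0 : 0 ≤ γ) (h1 : γ ≤ 1) {G A R : Finset (ℤ × ℤ)} {z b : ℤ × ℤ} :
    sv γ G A (insert b R) z ≤ sv γ G (insert b A) R z := by
  have e2 : G \ (A ∪ insert b R) = G \ (insert b A ∪ R) := by
    ext x
    simp only [mem_sdiff, mem_union, mem_insert]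
    tauto
  rw [sv, sv, e2]
  exact Pr_mono (wt_g h0 h1) (Ev_mono (subset_insert _ _) z)

lemma sv_start {γ : ℝ} (h0 : 0 ≤ γ) (h1 : γ ≤ 1) {G : Finset (ℤ × ℤ)} {o z : ℤ × ℤ}
    (ho : o ∈ G) : Pr (fun _ => γ) G {ω | RS ω o z} ≤ sv γ G {o} ∅ z := by
  have e1 : G = insert o (G \ {o}) := by
    ext x
    simp only [mem_insert, mem_sdiff, mem_singleton]
    constructor
    · intro h
      by_cases h2 : x = o
      · exact Or.inl h2
      · exact Or.inr ⟨h, h2⟩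
    · rintro (rfl | ⟨h, _⟩)
      · exact ho
      · exact h
  have e2 : o ∉ G \ {o} := by simp
  have e3 : G \ ({o} ∪ ∅) = G \ {o} := by rw [union_empty]
  conv_lhs => rw [e1]
  rw [Pr_ins e2, sv, e3]
  have e4 : Pr (fun _ => γ) (G \ {o}) {S | S \ {o} ∈ {ω : Set (ℤ × ℤ) | RS ω o z}} = 0 := by
    rw [← Pr_empty_set (fun _ => γ) (G \ {o})]
    congr 1
    ext S
    simp only [Set.mem_ofPred_eq, Set.mem_empty_iff_false, iff_false]
    intro h
    exact h.left.2 rfl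
  have e5 : Pr (fun _ => γ) (G \ {o}) {S | insert o S ∈ {ω : Set (ℤ × ℤ) | RS ω o z}} ≤
      Pr (fun _ => γ) (G \ {o}) (Ev {o} z) := by
    apply Pr_mono (wt_g h0 h1)
    intro S hS
    refine ⟨o, mem_singleton_self o, ?_⟩
    refine RS.mono ?_ hS
    intro x hx
    rw [Set.mem_insert_iff] at hx
    rcases hx with rfl | hx
    · exact Or.inl (by simp)
    · exact Or.inr hx
  rw [e4, mul_zero, add_zero]
  have h2 : 0 ≤ Pr (fun _ => γ) (G \ {o}) {S | insert o S ∈ {ω : Set (ℤ × ℤ) | RS ω o z}} :=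
    Pr_nonneg (wt_g h0 h1) _ _
  nlinarith

end

end Pool.Agent.Lib.MP_566bac_pr.Zd
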