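import Pool.Agent.Lib.MP_566bac_pr.Zd.Spr
import Pool.Agent.Lib.MP_566bac_pr.Zd.BoxC
import Pool.Agent.Lib.MP_566bac_pr.Zd.Stat

/-!
# The exploration: geometry and the outcome of one step
-/

open MeasureTheory ProbabilityTheory Finset unitInterval SimpleGraph
open scoped ENNReal

namespace Pool.Agent.Lib.MP_566bac_pr.Zd

variable {d : ℕ}

section
open Classical

/-- the centre of the block `z` -/
def Zc (i1 i2 : Fin d) (h : ℕ) (z : ℤ × ℤ) : V d := (z.1 * h) • uv i1 + (z.2 * h) • uv i2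

/-- geometry of one step, general direction -/
lemma geo' {Z Z' c : V d} {m n : ℕ} (i : Fin d) (u : ℤˣ)
    (hZ : Z' = Z + ((u : ℤ) * (n + m + 1 : ℕ)) • uv i) (hc : dst c Z ≤ n + m + 1) :
    ∃ τ : Fin d → ℤˣ, ∀ x ∈ Fc c i τ n, dst (seedC x i (τ i) m) Z' ≤ n + m + 1 := by
  refine ⟨fun j => if j = i then u else if 0 < c j - Z j then -1 else 1, ?_⟩
  intro x hx
  rw [Fc, mem_filter, mem_Lam, dst_le] at hx
  obtain ⟨h1, h2, h3⟩ := hx
  rw [dst_le] at hc ⊢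
  intro j
  have hcj := hc j
  have h1j := h1 j
  have h3j := h3 j
  simp only [if_true] at h2 ⊢
  rw [abs_le] at hcj h1j ⊢
  have e1 : seedC x i u m j = x j + if j = i then (u : ℤ) * (m + 1) else 0 := by
    rw [seedC, Pi.add_apply, smul_uv_apply]
  have e2 : Z' j = Z j + if j = i then (u : ℤ) * (n + m + 1 : ℕ) else 0 := by
    rw [hZ, Pi.add_apply, smul_uv_apply]
  rw [e1, e2]
  rcases eq_or_ne j i with rfl | hj
  · simp only [if_true]
    rcases Int.units_eq_one_or u with rfl | rfl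
    · simp only [Units.val_one, one_mul] at h2 ⊢
      push_cast at *
      omega
    · simp only [Units.val_neg, Units.val_one, neg_mul, one_mul] at h2 ⊢
      push_cast at *
      omega
  · simp only [if_neg hj, add_zero] at h3j ⊢
    by_cases h4 : 0 < c j - Z j
    · rw [if_pos h4] at h3j
      simp only [Units.val_neg, Units.val_one, neg_mul, one_mul] at h3j
      push_cast at *
      omega
    · rw [if_neg h4] at h3j
      simp only [Units.val_one, one_mul] at h3j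
      push_cast at *
      omega

lemma Zc_step {i1 i2 : Fin d} {h : ℕ} {z z' : ℤ × ℤ} (hadj : L2.Adj z z') :
    ∃ (i : Fin d) (u : ℤˣ), Zc i1 i2 h z' = Zc i1 i2 h z + ((u : ℤ) * h) • uv i := by
  obtain ⟨a, b⟩ := z
  rw [Pool.Agent.Lib.MP_566bac_pr.lattice_adj_iff] at hadj
  rcases hadj with rfl | rfl | rfl | rfl
  · refine ⟨i1, 1, ?_⟩
    simp only [Zc, Units.val_one, one_mul]
    module
  · refine ⟨i1, -1, ?_⟩
    simp only [Zc, Units.val_neg, Units.val_one, neg_mul, one_mul]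
    module
  · refine ⟨i2, 1, ?_⟩
    simp only [Zc, Units.val_one, one_mul]
    module
  · refine ⟨i2, -1, ?_⟩
    simp only [Zc, Units.val_neg, Units.val_one, neg_mul, one_mul]
    module

/-- geometry of one step -/
lemma geo {i1 i2 : Fin d} {z z' : ℤ × ℤ} (hadj : L2.Adj z z') {m n : ℕ} {c : V d}
    (hc : dst c (Zc i1 i2 (n + m + 1) z) ≤ n + m + 1) :
    ∃ (i : Fin d) (τ : Fin d → ℤˣ), ∀ x ∈ Fc c i τ n,
      dst (seedC x i (τ i) m) (Zc i1 i2 (n + m + 1) z') ≤ n + m + 1 := by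
  obtain ⟨i, u, h⟩ := Zc_step (i1 := i1) (i2 := i2) (h := n + m + 1) hadj
  obtain ⟨τ, hτ⟩ := geo' i u h hc
  exact ⟨i, τ, hτ⟩

lemma Zc_near {i1 i2 : Fin d} {h : ℕ} {z z' : ℤ × ℤ} (hadj : L2.Adj z z') :
    dst (Zc i1 i2 h z) (Zc i1 i2 h z') ≤ h := by
  obtain ⟨i, u, hZ⟩ := Zc_step (i1 := i1) (i2 := i2) (h := h) hadj
  rw [hZ, dst_comm]
  have h1 := dst_smul_uv (Zc i1 i2 h z) ((u : ℤ) * h) i
  rw [unit_natAbs, Int.natAbs_natCast] at h1
  exact h1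

/-! ### coordinates -/

/-- the labels which may be used for the edge `e`, and the base coordinate -/
noncomputable def Jc (G : Finset (ℤ × ℤ)) (Z : ℤ × ℤ → V d) (h : ℕ) (e : Ed d) : Finset (Co d) :=
  insert (bc e) (((G.filter fun z => e ∈ Ein (Lam (Z z) (3 * h))) ×ˢ (univ : Finset Bool)).image
    fun q => lc q.1 q.2 e)

lemma mem_Jc {G : Finset (ℤ × ℤ)} {Z : ℤ × ℤ → V d} {h : ℕ} {e : Ed d} {q : Co d} :
    q ∈ Jc G Z h e ↔ q = bc e ∨ ∃ z ∈ G, e ∈ Ein (Lam (Z z) (3 * h)) ∧ ∃ b, q = lc z b e := by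
  simp only [Jc, mem_insert, mem_image, mem_product, mem_filter, mem_univ, and_true]
  constructor
  · rintro (h1 | ⟨⟨z, b⟩, h1, h2⟩)
    · exact Or.inl h1
    · exact Or.inr ⟨z, h1.1, h1.2, b, h2.symm⟩
  · rintro (h1 | ⟨z, h1, h2, b, h3⟩)
    · exact Or.inl h1
    · exact Or.inr ⟨(z, b), ⟨h1, h2⟩, h3.symm⟩

/-- all the coordinates -/
noncomputable def UU (G : Finset (ℤ × ℤ)) (Z : ℤ × ℤ → V d) (h : ℕ) (W : Finset (V d)) :
    Finset (Co d) := (Ein W).biUnion (Jc G Z h)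

/-- the final configuration -/
def fin (G : Finset (ℤ × ℤ)) (Z : ℤ × ℤ → V d) (h : ℕ) (W : Finset (V d)) (ω : Set (Co d)) :
    Set (Ed d) := {e | e ∈ Ein W ∧ ∃ q ∈ Jc G Z h e, q ∈ ω}

variable {G : Finset (ℤ × ℤ)} {Z : ℤ × ℤ → V d} {h : ℕ} {W : Finset (V d)}

lemma bc_mem_UU {e : Ed d} (he : e ∈ Ein W) : bc e ∈ UU G Z h W :=
  mem_biUnion.mpr ⟨e, he, mem_Jc.mpr (Or.inl rfl)⟩

lemma lc_mem_UU {e : Ed d} (he : e ∈ Ein W) {z : ℤ × ℤ} (hz : z ∈ G)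
    (he' : e ∈ Ein (Lam (Z z) (3 * h))) (b : Bool) : lc z b e ∈ UU G Z h W :=
  mem_biUnion.mpr ⟨e, he, mem_Jc.mpr (Or.inr ⟨z, hz, he', b, rfl⟩)⟩

lemma fin_of_bs {e : Ed d} (he : e ∈ Ein W) {ω : Set (Co d)} (h1 : e ∈ bs ω) :
    e ∈ fin G Z h W ω := ⟨he, bc e, mem_Jc.mpr (Or.inl rfl), h1⟩

lemma fin_of_lb {e : Ed d} (he : e ∈ Ein W) {z : ℤ × ℤ} (hz : z ∈ G)
    (he' : e ∈ Ein (Lam (Z z) (3 * h))) {b : Bool} {ω : Set (Co d)} (h1 : e ∈ lb ω z b) :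
    e ∈ fin G Z h W ω := ⟨he, lc z b e, mem_Jc.mpr (Or.inr ⟨z, hz, he', b, rfl⟩), h1⟩

/-- a base connection is a connection of the final configuration -/
lemma fin_Cn {A : Finset (V d)} (hA : A ⊆ W) {ω : Set (Co d)} {x y : V d}
    (h1 : Cn (bs ω) (A : Set (V d)) x y) : Cn (fin G Z h W ω) (W : Set (V d)) x y := by
  refine h1.induct (fun b => Cn (fin G Z h W ω) (W : Set (V d)) x b) (Cn.refl _ _ _) ?_
  intro a b h2 ha hb hab hs
  have ha' : a ∈ W := hA (by exact_mod_cast ha)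
  have hb' : b ∈ W := hA (by exact_mod_cast hb)
  exact h2.trans (Cn.step hab (fin_of_bs (mem_Ein.mpr ⟨ha', hb', hab⟩) hs)
    (by exact_mod_cast ha') (by exact_mod_cast hb'))

/-! ### the outcome of a step -/

/-- reached vertices -/
noncomputable def Xf (C : Finset (V d)) (c : V d) (n : ℕ) (z : ℤ × ℤ) (ω : Set (Co d)) :
    Finset (V d) := (Rg C c n).filter fun x => x ∈ Xp C c n z ω

/-- reached vertices of the face with an open seed -/
noncomputable def Yf (C : Finset (V d)) (c : V d) (z : ℤ × ℤ) (i : Fin d) (τ : Fin d → ℤˣ)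
    (m n : ℕ) (ω : Set (Co d)) : Finset (V d) :=
  (Fc c i τ n).filter fun x => (x ∈ C ∨ x ∈ Xp C c n z ω) ∧ SO x i (τ i) m z ω

lemma mem_Xf {C : Finset (V d)} {c : V d} {n : ℕ} {z : ℤ × ℤ} {ω : Set (Co d)} {x : V d} :
    x ∈ Xf C c n z ω ↔ x ∈ Xp C c n z ω := by
  rw [Xf, mem_filter]
  exact ⟨fun h => h.2, fun h => ⟨h.1, h⟩⟩

lemma suc_iff {C : Finset (V d)} {c : V d} {z : ℤ × ℤ} {i : Fin d} {τ : Fin d → ℤˣ} {m n : ℕ}
    {ω : Set (Co d)} : ω ∈ Suc C c z i τ m n ↔ (Yf C c z i τ m n ω).Nonempty := by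
  constructor
  · rintro ⟨x, hx, h1, h2⟩
    exact ⟨x, mem_filter.mpr ⟨hx, h1, h2⟩⟩
  · rintro ⟨x, hx⟩
    obtain ⟨h1, h2, h3⟩ := mem_filter.mp hx
    exact ⟨x, h1, h2, h3⟩

lemma Rg_sub (C : Finset (V d)) (c : V d) (n : ℕ) : Rg C c n ⊆ Lam c n := sdiff_subset

lemma Ent_congr {C : Finset (V d)} {c : V d} {n : ℕ} {z : ℤ × ℤ} {ω ω' : Set (Co d)}
    (h1 : ∀ q ∈ coE c z n, (q ∈ ω ↔ q ∈ ω')) : Ent C c n z ω = Ent C c n z ω' := by
  ext w
  refine and_congr_right fun hw => exists_congr fun u => and_congr_right fun _ =>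
    and_congr_right fun hu => and_congr_right fun hadj => ?_
  exact h1 (lc z false s(u, w)) (mem_image_of_mem _ (mem_Ein.mpr ⟨hu, Rg_sub C c n hw, hadj⟩))

lemma Xp_congr {C : Finset (V d)} {c : V d} {n : ℕ} {z : ℤ × ℤ} {ω ω' : Set (Co d)}
    (h1 : ∀ q ∈ coE c z n, (q ∈ ω ↔ q ∈ ω'))
    (h2 : ∀ e ∈ Ein (Rg C c n), (∃ x ∈ e, x ∈ Xp C c n z ω) → (bc e ∈ ω ↔ bc e ∈ ω')) :
    Xp C c n z ω' = Xp C c n z ω := by
  have hE := Ent_congr (C := C) h1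
  ext x
  constructor
  · rintro ⟨hx, w, hw, hc⟩
    rw [← hE] at hw
    refine ⟨hx, w, hw, ?_⟩
    refine hc.induct (fun b => Cn (bs ω) (Rg C c n : Set (V d)) w b) (Cn.refl _ _ _) ?_
    intro a b h3 ha hb hab hs
    have ha' : a ∈ Rg C c n := by exact_mod_cast ha
    have hb' : b ∈ Rg C c n := by exact_mod_cast hb
    have h4 : s(a, b) ∈ bs ω :=
      (h2 s(a, b) (mem_Ein.mpr ⟨ha', hb', hab⟩) ⟨a, Sym2.mem_mk_left a b, ha', w, hw, h3⟩).mpr hs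
    exact h3.trans (Cn.step hab h4 ha hb)
  · rintro ⟨hx, w, hw, hc⟩
    refine ⟨hx, w, by rw [← hE]; exact hw, ?_⟩
    have key := hc.induct (fun b => Cn (bs ω) (Rg C c n : Set (V d)) w b ∧
      Cn (bs ω') (Rg C c n : Set (V d)) w b) ⟨Cn.refl _ _ _, Cn.refl _ _ _⟩ (by
      rintro a b ⟨h3, h3'⟩ ha hb hab hs
      have ha' : a ∈ Rg C c n := by exact_mod_cast ha
      have hb' : b ∈ Rg C c n := by exact_mod_cast hb
      have h4 : s(a, b) ∈ bs ω' :=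
        (h2 s(a, b) (mem_Ein.mpr ⟨ha', hb', hab⟩) ⟨a, Sym2.mem_mk_left a b, ha', w, hw, h3⟩).mp hs
      exact ⟨h3.trans (Cn.step hab hs ha hb), h3'.trans (Cn.step hab h4 ha hb)⟩)
    exact key.2

lemma SO_congr {c : V d} {z : ℤ × ℤ} {i : Fin d} {τ : Fin d → ℤˣ} {m n : ℕ}
    {ω ω' : Set (Co d)} (h3 : ∀ q ∈ coS c z i τ m n, (q ∈ ω ↔ q ∈ ω')) {x : V d}
    (hx : x ∈ Fc c i τ n) : SO x i (τ i) m z ω ↔ SO x i (τ i) m z ω' := by
  refine forall₂_congr fun e he => ?_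
  exact h3 (lc z true e) (mem_biUnion.mpr ⟨x, hx, mem_image_of_mem _ he⟩)

lemma outcome_det {C : Finset (V d)} {c : V d} {z : ℤ × ℤ} {i : Fin d} {τ : Fin d → ℤˣ} {m n : ℕ}
    (X Y : Finset (V d)) (D : Finset (Co d)) (h1 : coE c z n ⊆ D) (h3 : coS c z i τ m n ⊆ D)
    (h2 : ∀ e ∈ Ein (Rg C c n), (∃ x ∈ e, x ∈ X) → bc e ∈ D) :
    Det D {ω | Xf C c n z ω = X ∧ Yf C c z i τ m n ω = Y} := by
  rintro ω ω' h ⟨hX, hY⟩
  have e1 : Xp C c n z ω' = Xp C c n z ω := by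
    apply Xp_congr
    · exact fun q hq => h q (h1 hq)
    · rintro e he ⟨x, hx, hxX⟩
      refine h _ (h2 e he ⟨x, hx, ?_⟩)
      rw [← hX]
      exact mem_Xf.mpr hxX
  refine ⟨?_, ?_⟩
  · rw [← hX, Xf, Xf, e1]
  · rw [← hY, Yf, Yf, e1]
    apply filter_congr
    intro x hx
    rw [SO_congr (fun q hq => (h q (h3 hq)).symm) hx]

lemma suc_det {C : Finset (V d)} {c : V d} {z : ℤ × ℤ} {i : Fin d} {τ : Fin d → ℤˣ} {m n : ℕ} :
    Det ((Ein (Rg C c n)).image bc ∪ (coE c z n ∪ coS c z i τ m n)) (Suc C c z i τ m n) := by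
  apply det_of
  intro ω ω' h
  have e1 : Xp C c n z ω' = Xp C c n z ω := by
    apply Xp_congr
    · exact fun q hq => h q (mem_union_right _ (mem_union_left _ hq))
    · exact fun e he _ => h _ (mem_union_left _ (mem_image_of_mem _ he))
  rw [suc_iff, suc_iff]
  have e2 : Yf C c z i τ m n ω = Yf C c z i τ m n ω' := by
    rw [Yf, Yf, e1]
    apply filter_congr
    intro x hx
    rw [SO_congr (fun q hq => h q (mem_union_right _ (mem_union_right _ hq))) hx]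
  rw [e2]

end

end Pool.Agent.Lib.MP_566bac_pr.Zd
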