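import Pool.Agent.Lib.MP_566bac_pr.Zd.ExplA

/-!
# The exploration: the induction
-/

open MeasureTheory ProbabilityTheory Finset unitInterval SimpleGraph
open scoped ENNReal

namespace Pool.Agent.Lib.MP_566bac_pr.Zd

variable {d : ℕ}

section
open Classical

/-- the explored coordinates -/
noncomputable def kn (U : Finset (Co d)) (C : Finset (V d)) (D : Finset (ℤ × ℤ)) : Finset (Co d) :=
  U.filter fun q => (q.2 = none ∧ ∃ x ∈ C, x ∈ q.1) ∨ ∃ z ∈ D, ∃ b, q.2 = some (z, b)

lemma kn_mono {U : Finset (Co d)} {C C' : Finset (V d)} {D D' : Finset (ℤ × ℤ)} (hC : C ⊆ C')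
    (hD : D ⊆ D') : kn U C D ⊆ kn U C' D' := by
  intro q hq
  rw [kn, mem_filter] at hq ⊢
  refine ⟨hq.1, hq.2.imp ?_ ?_⟩
  · rintro ⟨h1, x, hx, h2⟩
    exact ⟨h1, x, hC hx, h2⟩
  · rintro ⟨z, hz, b, h1⟩
    exact ⟨z, hD hz, b, h1⟩

variable {G : Finset (ℤ × ℤ)} {Z : ℤ × ℤ → V d} {h m n : ℕ} {W : Finset (V d)}

/-- the facts about one step -/
structure StepOk (G : Finset (ℤ × ℤ)) (Z : ℤ × ℤ → V d) (h m n : ℕ) (W : Finset (V d)) (c : V d)
    (b : ℤ × ℤ) (i : Fin d) (τ : Fin d → ℤˣ) : Prop where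
  bG : b ∈ G
  subW : Lam c n ⊆ W
  sub3 : Lam c n ⊆ Lam (Z b) (3 * h)
  new : ∀ x ∈ Fc c i τ n, dst (seedC x i (τ i) m) (Z b) ≤ h
  newW : ∀ x ∈ Fc c i τ n, Lam (seedC x i (τ i) m) m ⊆ W
  new3 : ∀ x ∈ Fc c i τ n, Lam (seedC x i (τ i) m) m ⊆ Lam (Z b) (3 * h)

variable {c : V d} {b : ℤ × ℤ} {i : Fin d} {τ : Fin d → ℤˣ}

lemma Fc_sub (c : V d) (i : Fin d) (τ : Fin d → ℤˣ) (n : ℕ) : Fc c i τ n ⊆ Lam c n :=
  filter_subset _ _

/-- the first vertex of the seed -/
lemma link_mem (x : V d) (i : Fin d) (u : ℤˣ) (m : ℕ) :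
    x + (u : ℤ) • uv i ∈ Lam (seedC x i u m) m := by
  rw [mem_Lam, dst_le]
  intro j
  rw [seedC, Pi.add_apply, Pi.add_apply, smul_uv_apply, smul_uv_apply]
  split_ifs
  · rw [show x j + (u : ℤ) - (x j + (u : ℤ) * (m + 1)) = (u : ℤ) * (-m) by ring, abs_unit_mul,
      abs_neg, Nat.abs_cast]
  · simp

lemma StepOk.seed (hs : StepOk G Z h m n W c b i τ) {x : V d} (hx : x ∈ Fc c i τ n) {e : Ed d}
    (he : e ∈ seedE x i (τ i) m) : e ∈ Ein W ∧ e ∈ Ein (Lam (Z b) (3 * h)) := by
  rw [seedE, mem_insert] at he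
  rcases he with rfl | he
  · have h1 := link_mem x i (τ i) m
    have h2 := Fc_sub c i τ n hx
    exact ⟨mem_Ein.mpr ⟨hs.subW h2, hs.newW x hx h1, adj_unit x i (τ i)⟩,
      mem_Ein.mpr ⟨hs.sub3 h2, hs.new3 x hx h1, adj_unit x i (τ i)⟩⟩
  · exact ⟨Ein_mono (hs.newW x hx) he, Ein_mono (hs.new3 x hx) he⟩

lemma StepOk.U1 (hs : StepOk G Z h m n W c b i τ) :
    (Ein (Lam c n)).image bc ⊆ UU G Z h W := by
  intro q hq
  obtain ⟨e, he, rfl⟩ := mem_image.mp hq
  exact bc_mem_UU (Ein_mono hs.subW he)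

lemma StepOk.U2 (hs : StepOk G Z h m n W c b i τ) : coS c b i τ m n ⊆ UU G Z h W := by
  intro q hq
  obtain ⟨x, hx, hq⟩ := mem_biUnion.mp hq
  obtain ⟨e, he, rfl⟩ := mem_image.mp hq
  obtain ⟨h1, h2⟩ := hs.seed hx he
  exact lc_mem_UU h1 hs.bG h2 true

lemma StepOk.U3 (hs : StepOk G Z h m n W c b i τ) : coE c b n ⊆ UU G Z h W := by
  intro q hq
  obtain ⟨e, he, rfl⟩ := mem_image.mp hq
  exact lc_mem_UU (Ein_mono hs.subW he) hs.bG (Ein_mono hs.sub3 he) false

lemma conn_X (hs : StepOk G Z h m n W c b i τ) {C : Finset (V d)} {r : V d} {ω : Set (Co d)}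
    (hC : ∀ x ∈ C, Cn (fin G Z h W ω) (W : Set (V d)) r x) {x : V d} (hx : x ∈ Xp C c n b ω) :
    Cn (fin G Z h W ω) (W : Set (V d)) r x := by
  obtain ⟨hxR, w, ⟨hwR, u, huC, huL, hadj, hu⟩, hc⟩ := hx
  have hwL : w ∈ Lam c n := Rg_sub C c n hwR
  have huW : u ∈ W := hs.subW huL
  have hwW : w ∈ W := hs.subW hwL
  have h1 : s(u, w) ∈ fin G Z h W ω :=
    fin_of_lb (mem_Ein.mpr ⟨huW, hwW, hadj⟩) hs.bG
      (mem_Ein.mpr ⟨hs.sub3 huL, hs.sub3 hwL, hadj⟩) hu
  exact ((hC u huC).trans (Cn.step hadj h1 (by exact_mod_cast huW) (by exact_mod_cast hwW))).trans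
    (fin_Cn ((Rg_sub C c n).trans hs.subW) hc)

lemma conn_seed (hs : StepOk G Z h m n W c b i τ) {C : Finset (V d)} {r : V d} {ω : Set (Co d)}
    (hC : ∀ x ∈ C, Cn (fin G Z h W ω) (W : Set (V d)) r x) {x : V d}
    (hx : x ∈ Yf C c b i τ m n ω) {y : V d} (hy : y ∈ Lam (seedC x i (τ i) m) m) :
    Cn (fin G Z h W ω) (W : Set (V d)) r y := by
  obtain ⟨hxF, hx1, hx2⟩ := mem_filter.mp hx
  have h1 : Cn (fin G Z h W ω) (W : Set (V d)) r x := by
    rcases hx1 with hx1 | hx1
    · exact hC x hx1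
    · exact conn_X hs hC hx1
  have h2 : ∀ e ∈ seedE x i (τ i) m, e ∈ fin G Z h W ω := by
    intro e he
    obtain ⟨h3, h4⟩ := hs.seed hxF he
    exact fin_of_lb h3 hs.bG h4 (hx2 e he)
  have hxW : x ∈ W := hs.subW (Fc_sub c i τ n hxF)
  have hlW : x + ((τ i : ℤˣ) : ℤ) • uv i ∈ W := hs.newW x hxF (link_mem x i (τ i) m)
  have h3 : Cn (fin G Z h W ω) (W : Set (V d)) x (x + ((τ i : ℤˣ) : ℤ) • uv i) :=
    Cn.step (adj_unit x i (τ i)) (h2 _ (mem_insert_self _ _)) (by exact_mod_cast hxW)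
      (by exact_mod_cast hlW)
  have h4 : Cn (fin G Z h W ω) (Lam (seedC x i (τ i) m) m : Set (V d))
      (x + ((τ i : ℤˣ) : ℤ) • uv i) y :=
    lam_conn (fun e he => h2 e (mem_insert_of_mem he)) (link_mem x i (τ i) m) hy
  exact (h1.trans h3).trans (h4.mono subset_rfl (by exact_mod_cast hs.newW x hxF))

/-- the target event -/
def Tg (G : Finset (ℤ × ℤ)) (Z : ℤ × ℤ → V d) (h : ℕ) (W : Finset (V d)) (r : V d) (zt : ℤ × ℤ) :
    Set (Set (Co d)) :=
  {ω | ∃ y ∈ Lam (Z zt) h, Cn (fin G Z h W ω) (W : Set (V d)) r y}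

/-- **The exploration dominates site percolation.** -/
theorem explore {p δ γ : ℝ} (hp0 : 0 ≤ p) (hp1 : p ≤ 1) (hδ0 : 0 ≤ δ) (hδ1 : δ ≤ 1)
    (hγ0 : 0 ≤ γ) (hγ1 : γ ≤ 1)
    (hstep : ∀ (C : Finset (V d)) (c : V d) (z : ℤ × ℤ) (i : Fin d) (τ : Fin d → ℤˣ)
      (U : Finset (Co d)), Lam c m ⊆ C → (Ein (Lam c n)).image bc ⊆ U →
      coS c z i τ m n ⊆ U → coE c z n ⊆ U → γ ≤ Pr (cw p δ) U (Suc C c z i τ m n))
    (hgeo : ∀ a ∈ G, ∀ b ∈ G, L2.Adj a b → ∀ c : V d, dst c (Z a) ≤ h →
      ∃ (i : Fin d) (τ : Fin d → ℤˣ), StepOk G Z h m n W c b i τ) (zt : ℤ × ℤ) (r : V d) :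
    ∀ (k : ℕ) (A R : Finset (ℤ × ℤ)), A ⊆ G → R ⊆ G → (G \ (A ∪ R)).card = k →
      ∀ (C : Finset (V d)) (cen : ℤ × ℤ → V d) (B : Set (Set (Co d))), C ⊆ W →
        (∀ z ∈ A, dst (cen z) (Z z) ≤ h ∧ Lam (cen z) m ⊆ C) →
        Det (kn (UU G Z h W) C (A ∪ R)) B →
        (∀ ω ∈ B, ∀ x ∈ C, Cn (fin G Z h W ω) (W : Set (V d)) r x) →
        Pr (cw p δ) (UU G Z h W) B * sv γ G A R zt ≤
          Pr (cw p δ) (UU G Z h W) (B ∩ Tg G Z h W r zt) := by
  have hw : Wt (cw (d := d) p δ) := wt_cw hp0 hp1 hδ0 hδ1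
  set U := UU G Z h W with hU
  intro k
  induction k with
  | zero =>
    intro A R hA hR hk C cen B hCW hcen hB hconn
    by_cases hzt : zt ∈ A
    · have h1 : B ⊆ B ∩ Tg G Z h W r zt := by
        intro ω hω
        refine ⟨hω, cen zt, ?_, hconn ω hω _ ((hcen zt hzt).2 (self_mem_Lam _ _))⟩
        rw [mem_Lam]
        exact (hcen zt hzt).1
      have h2 := Pr_mono hw (E := U) h1
      have h3 := sv_le_one hγ0 hγ1 G A R zt
      have h4 := Pr_nonneg hw U B
      nlinarith
    · have h1 : sv γ G A R zt = 0 := by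
        apply sv_zero hzt
        intro a _ b hb
        rw [card_eq_zero.mp hk] at hb
        exact absurd hb (notMem_empty _)
      rw [h1, mul_zero]
      exact Pr_nonneg hw _ _
  | succ k ih =>
    intro A R hA hR hk C cen B hCW hcen hB hconn
    by_cases hzt : zt ∈ A
    · have h1 : B ⊆ B ∩ Tg G Z h W r zt := by
        intro ω hω
        refine ⟨hω, cen zt, ?_, hconn ω hω _ ((hcen zt hzt).2 (self_mem_Lam _ _))⟩
        rw [mem_Lam]
        exact (hcen zt hzt).1
      have h2 := Pr_mono hw (E := U) h1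
      have h3 := sv_le_one hγ0 hγ1 G A R zt
      have h4 := Pr_nonneg hw U B
      nlinarith
    by_cases hex : ∃ a ∈ A, ∃ b ∈ G \ (A ∪ R), L2.Adj a b
    swap
    · have h1 : sv γ G A R zt = 0 := by
        apply sv_zero hzt
        intro a ha b hb hab
        exact hex ⟨a, ha, b, hb, hab⟩
      rw [h1, mul_zero]
      exact Pr_nonneg hw _ _
    obtain ⟨a, ha, b, hb, hab⟩ := hex
    have hb' := hb
    rw [mem_sdiff, mem_union, not_or] at hb'
    obtain ⟨hbG, hbA, hbR⟩ := hb'
    set c := cen a with hc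
    obtain ⟨i, τ, hs⟩ := hgeo a (hA ha) b hbG hab c (hcen a ha).1
    set S := Suc C c b i τ m n with hSdef
    have hS : γ ≤ Pr (cw p δ) U S := hstep C c b i τ U (hcen a ha).2 hs.U1 hs.U2 hs.U3
    -- independence
    have hind : Pr (cw p δ) U (B ∩ S) = Pr (cw p δ) U B * Pr (cw p δ) U S := by
      refine Pr_indep (E := kn U C (A ∪ R))
        (F := (Ein (Rg C c n)).image bc ∪ (coE c b n ∪ coS c b i τ m n)) (filter_subset _ _)
        ?_ ?_ hB suc_det
      · apply union_subset
        · exact (image_subset_image (Ein_mono (Rg_sub C c n))).trans hs.U1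
        · exact union_subset hs.U3 hs.U2
      · rw [Finset.disjoint_left]
        intro q hq hq'
        rw [kn, mem_filter] at hq
        rcases mem_union.mp hq' with h1 | h1
        · obtain ⟨e, he, rfl⟩ := mem_image.mp h1
          rcases hq.2 with ⟨_, x, hx, hxe⟩ | ⟨z, _, b', h2⟩
          · induction e using Sym2.ind with
            | _ v w =>
              rw [mem_Ein] at he
              simp only [bc, Sym2.mem_iff] at hxe
              rcases hxe with rfl | rfl
              · exact (mem_sdiff.mp he.1).2 hx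
              · exact (mem_sdiff.mp he.2.1).2 hx
          · simp [bc] at h2
        · have h3 : ∃ b', q.2 = some (b, b') := by
            rcases mem_union.mp h1 with h1 | h1
            · obtain ⟨e, _, rfl⟩ := mem_image.mp h1
              exact ⟨false, rfl⟩
            · obtain ⟨x, _, h1⟩ := mem_biUnion.mp h1
              obtain ⟨e, _, rfl⟩ := mem_image.mp h1
              exact ⟨true, rfl⟩
          obtain ⟨b', h3⟩ := h3
          rcases hq.2 with ⟨h4, _⟩ | ⟨z, hz, b'', h4⟩
          · rw [h3] at h4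
            exact absurd h4 (by simp)
          · rw [h3] at h4
            have h5 : b = z := (Prod.mk.inj (Option.some.inj h4)).1
            rw [← h5, mem_union] at hz
            rcases hz with hz | hz
            · exact hbA hz
            · exact hbR hz
    -- the outcomes
    set s : Finset (Finset (V d) × Finset (V d)) := (Rg C c n).powerset ×ˢ (Fc c i τ n).powerset
      with hsdef
    set f : Set (Co d) → Finset (V d) × Finset (V d) :=
      fun ω => (Xf C c n b ω, Yf C c b i τ m n ω) with hf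
    have hfs : ∀ ω, f ω ∈ s := by
      intro ω
      rw [hsdef, mem_product, mem_powerset, mem_powerset]
      exact ⟨filter_subset _ _, filter_subset _ _⟩
    set v1 := sv γ G (insert b A) R zt with hv1
    set v2 := sv γ G A (insert b R) zt with hv2
    have hcard1 : (G \ (insert b A ∪ R)).card = k := by
      have e1 : G \ (insert b A ∪ R) = (G \ (A ∪ R)).erase b := by
        ext x
        simp only [mem_sdiff, mem_union, mem_insert, mem_erase]
        tauto
      rw [e1, card_erase_of_mem hb, hk]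
      rfl
    have hcard2 : (G \ (A ∪ insert b R)).card = k := by
      have e1 : G \ (A ∪ insert b R) = (G \ (A ∪ R)).erase b := by
        ext x
        simp only [mem_sdiff, mem_union, mem_insert, mem_erase]
        tauto
      rw [e1, card_erase_of_mem hb, hk]
      rfl
    -- the coordinates
    have hD1 : ∀ (C' : Finset (V d)) (D' : Finset (ℤ × ℤ)), b ∈ D' → coE c b n ⊆ kn U C' D' := by
      intro C' D' hbD q hq
      rw [kn, mem_filter]
      refine ⟨hs.U3 hq, Or.inr ⟨b, hbD, false, ?_⟩⟩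
      obtain ⟨e, _, rfl⟩ := mem_image.mp hq
      rfl
    have hD2 : ∀ (C' : Finset (V d)) (D' : Finset (ℤ × ℤ)), b ∈ D' →
        coS c b i τ m n ⊆ kn U C' D' := by
      intro C' D' hbD q hq
      rw [kn, mem_filter]
      refine ⟨hs.U2 hq, Or.inr ⟨b, hbD, true, ?_⟩⟩
      obtain ⟨x, _, hq⟩ := mem_biUnion.mp hq
      obtain ⟨e, _, rfl⟩ := mem_image.mp hq
      rfl
    have hD3 : ∀ (X C' : Finset (V d)) (D' : Finset (ℤ × ℤ)), X ⊆ C' →
        ∀ e ∈ Ein (Rg C c n), (∃ x ∈ e, x ∈ X) → bc e ∈ kn U C' D' := by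
      intro X C' D' hX e he hex
      obtain ⟨x, hxe, hx⟩ := hex
      rw [kn, mem_filter]
      exact ⟨hs.U1 (mem_image_of_mem _ (Ein_mono (Rg_sub C c n) he)),
        Or.inl ⟨rfl, x, hX hx, hxe⟩⟩
    have key : ∀ o ∈ s, Pr (cw p δ) U (B ∩ {ω | f ω = o}) * (if o.2.Nonempty then v1 else v2) ≤
        Pr (cw p δ) U ((B ∩ Tg G Z h W r zt) ∩ {ω | f ω = o}) := by
      rintro ⟨X, Y⟩ ho
      rw [hsdef, mem_product, mem_powerset, mem_powerset] at ho
      obtain ⟨hX, hY⟩ := ho
      simp only at hX hY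
      have hXW : X ⊆ W := hX.trans ((Rg_sub C c n).trans hs.subW)
      have e0 : (B ∩ Tg G Z h W r zt) ∩ {ω | f ω = (X, Y)} =
          (B ∩ {ω | f ω = (X, Y)}) ∩ Tg G Z h W r zt := by
        ext ω
        simp only [Set.mem_inter_iff]
        tauto
      rw [e0]
      have efo : {ω : Set (Co d) | f ω = (X, Y)} =
          {ω | Xf C c n b ω = X ∧ Yf C c b i τ m n ω = Y} := by
        ext ω
        simp only [hf, Set.mem_ofPred_eq, Prod.mk.injEq]
      by_cases hYn : Y.Nonempty
      · rw [if_pos hYn]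
        set x1 := hYn.choose with hx1def
        have hx1 : x1 ∈ Y := hYn.choose_spec
        have hx1F : x1 ∈ Fc c i τ n := hY hx1
        set c' := seedC x1 i (τ i) m with hc'
        apply ih (insert b A) R (insert_subset hbG hA) hR hcard1 (C ∪ X ∪ Lam c' m)
          (Function.update cen b c')
        · exact union_subset (union_subset hCW hXW) (hs.newW x1 hx1F)
        · intro z hz
          rw [mem_insert] at hz
          rcases hz with rfl | hz
          · rw [Function.update_self]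
            exact ⟨hs.new x1 hx1F, subset_union_right⟩
          · have hne : z ≠ b := by
              rintro rfl
              exact hbA hz
            rw [Function.update_of_ne hne]
            exact ⟨(hcen z hz).1, (hcen z hz).2.trans
              (subset_union_left.trans subset_union_left)⟩
        · apply det_inter
          · refine det_mono (kn_mono ?_ ?_) hB
            · exact subset_union_left.trans subset_union_left
            · exact union_subset_union (subset_insert _ _) subset_rfl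
          · rw [efo]
            apply outcome_det X Y
            · exact hD1 _ _ (mem_union_left _ (mem_insert_self _ _))
            · exact hD2 _ _ (mem_union_left _ (mem_insert_self _ _))
            · exact hD3 X _ _ (subset_union_right.trans subset_union_left)
        · rintro ω ⟨hωB, hωf⟩ x hx
          rw [efo] at hωf
          obtain ⟨hfX, hfY⟩ := hωf
          rw [mem_union, mem_union] at hx
          rcases hx with (hx | hx) | hx
          · exact hconn ω hωB x hx
          · rw [← hfX] at hx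
            exact conn_X hs (hconn ω hωB) (mem_Xf.mp hx)
          · refine conn_seed hs (hconn ω hωB) (x := x1) ?_ hx
            rw [hfY]
            exact hx1
      · rw [if_neg hYn]
        apply ih A (insert b R) hA (insert_subset hbG hR) hcard2 (C ∪ X) cen
        · exact union_subset hCW hXW
        · intro z hz
          exact ⟨(hcen z hz).1, (hcen z hz).2.trans subset_union_left⟩
        · apply det_inter
          · refine det_mono (kn_mono subset_union_left ?_) hB
            exact union_subset_union subset_rfl (subset_insert _ _)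
          · rw [efo]
            apply outcome_det X Y
            · exact hD1 _ _ (mem_union_right _ (mem_insert_self _ _))
            · exact hD2 _ _ (mem_union_right _ (mem_insert_self _ _))
            · exact hD3 X _ _ subset_union_right
        · rintro ω ⟨hωB, hωf⟩ x hx
          rw [efo] at hωf
          obtain ⟨hfX, hfY⟩ := hωf
          rw [mem_union] at hx
          rcases hx with hx | hx
          · exact hconn ω hωB x hx
          · rw [← hfX] at hx
            exact conn_X hs (hconn ω hωB) (mem_Xf.mp hx)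
    -- summation
    have hsum1 : Pr (cw p δ) U (B ∩ Tg G Z h W r zt) =
        ∑ o ∈ s, Pr (cw p δ) U ((B ∩ Tg G Z h W r zt) ∩ {ω | f ω = o}) :=
      Pr_partition _ U s f _ fun ω _ _ => hfs ω
    have hsum2 : Pr (cw p δ) U B = ∑ o ∈ s, Pr (cw p δ) U (B ∩ {ω | f ω = o}) :=
      Pr_partition _ U s f _ fun ω _ _ => hfs ω
    have hsum3 : Pr (cw p δ) U (B ∩ S) =
        ∑ o ∈ s, (if o.2.Nonempty then Pr (cw p δ) U (B ∩ {ω | f ω = o}) else 0) := by
      rw [Pr_partition _ U s f (B ∩ S) fun ω _ _ => hfs ω]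
      apply sum_congr rfl
      intro o _
      split_ifs with ho
      · congr 1
        ext ω
        simp only [Set.mem_inter_iff, Set.mem_ofPred_eq]
        constructor
        · rintro ⟨⟨h1, _⟩, h2⟩
          exact ⟨h1, h2⟩
        · rintro ⟨h1, h2⟩
          refine ⟨⟨h1, ?_⟩, h2⟩
          rw [hSdef, suc_iff]
          rw [← h2] at ho
          exact ho
      · rw [← Pr_empty_set (cw p δ) U]
        congr 1
        ext ω
        simp only [Set.mem_inter_iff, Set.mem_ofPred_eq, Set.mem_empty_iff_false, iff_false]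
        rintro ⟨⟨_, h1⟩, h2⟩
        rw [hSdef, suc_iff] at h1
        rw [← h2] at ho
        exact ho h1
    have hfinal : v1 * Pr (cw p δ) U (B ∩ S) + v2 * (Pr (cw p δ) U B - Pr (cw p δ) U (B ∩ S)) ≤
        Pr (cw p δ) U (B ∩ Tg G Z h W r zt) := by
      rw [hsum1, hsum2, hsum3, ← sum_sub_distrib, mul_sum, mul_sum, ← sum_add_distrib]
      apply sum_le_sum
      intro o ho
      refine le_trans (le_of_eq ?_) (key o ho)
      split_ifs <;> ring
    have hv : v2 ≤ v1 := sv_le hγ0 hγ1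
    rw [sv_rec ha hb hab, ← hv1, ← hv2]
    have hB0 := Pr_nonneg hw U B
    have h5 : γ * Pr (cw p δ) U B ≤ Pr (cw p δ) U (B ∩ S) := by
      rw [hind, mul_comm]
      exact mul_le_mul_of_nonneg_left hS hB0
    nlinarith

end

end Pool.Agent.Lib.MP_566bac_pr.Zd
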