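import Pool.Agent.Lib.MP_566bac_pr.Zd.Erg
import Pool.Agent.Lib.MP_566bac_pr.Zd.Cond

/-!
# Many connections from a box to each part of the faces of a larger box
-/

open MeasureTheory ProbabilityTheory Finset unitInterval SimpleGraph
open scoped ENNReal

namespace Pool.Agent.Lib.MP_566bac_pr.Zd

variable {d : ℕ}

section
open Classical

/-- the boundary vertices connected to the small box -/
noncomputable def bd (m n : ℕ) (S : Set (Ed d)) : Finset (V d) :=
  (Lam 0 n).filter fun y => dst y 0 = n ∧ ∃ x ∈ Lam (0 : V d) m, Cn S (Lam (0 : V d) n : Set (V d)) x y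

lemma mem_bd {m n : ℕ} {S : Set (Ed d)} {y : V d} : y ∈ bd m n S ↔
    dst y 0 = n ∧ ∃ x ∈ Lam (0 : V d) m, Cn S (Lam (0 : V d) n : Set (V d)) x y := by
  rw [bd, mem_filter, mem_Lam]
  exact ⟨fun h => h.2, fun h => ⟨h.1.le, h⟩⟩

lemma out_iff {m n : ℕ} {S : Set (Ed d)} : S ∈ Out d m n ↔ (bd m n S).Nonempty := by
  constructor
  · rintro ⟨x, hx, y, hy, h⟩
    exact ⟨y, mem_bd.mpr ⟨hy, x, hx, h⟩⟩
  · rintro ⟨y, hy⟩
    obtain ⟨h1, x, hx, h⟩ := mem_bd.mp hy
    exact ⟨x, hx, y, h1, h⟩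

lemma out_anti {m n n' : ℕ} (hmn : m ≤ n) (h : n ≤ n') : Out d m n' ⊆ Out d m n := by
  rintro S ⟨x, hx, y, hy, hc⟩
  obtain ⟨z, h1, h2⟩ := reach_boundary (c := 0) hc.reachable ((mem_Lam.mp hx).trans hmn)
    (by omega : n ≤ dst y 0)
  exact ⟨x, hx, z, h1, h2⟩

lemma bd_congr {m n : ℕ} {S S' : Set (Ed d)} (h : ∀ e ∈ Ein (Lam (0 : V d) n), (e ∈ S ↔ e ∈ S')) :
    bd m n S = bd m n S' := by
  ext y
  rw [mem_bd, mem_bd]
  unfold Cn
  rw [res_congr_Ein h]

/-- the edges from a set of vertices to its complement in a box -/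
noncomputable def Eout (Y W : Finset (V d)) : Finset (Ed d) :=
  Y.biUnion fun y => ((nbr y).filter fun z => z ∉ W).image fun z => s(y, z)

lemma mem_Eout {Y W : Finset (V d)} {e : Ed d} :
    e ∈ Eout Y W ↔ ∃ y ∈ Y, ∃ z, (lattice d).Adj y z ∧ z ∉ W ∧ e = s(y, z) := by
  simp only [Eout, mem_biUnion, mem_image, mem_filter, mem_nbr]
  constructor
  · rintro ⟨y, hy, z, ⟨h1, h2⟩, rfl⟩
    exact ⟨y, hy, z, h1, h2, rfl⟩
  · rintro ⟨y, hy, z, h1, h2, rfl⟩
    exact ⟨y, hy, z, ⟨h1, h2⟩, rfl⟩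

lemma card_Eout (Y W : Finset (V d)) : (Eout Y W).card ≤ 2 * d * Y.card := by
  unfold Eout
  refine card_biUnion_le.trans ?_
  calc ∑ y ∈ Y, (((nbr y).filter fun z => z ∉ W).image fun z => s(y, z)).card
      ≤ ∑ y ∈ Y, 2 * d := sum_le_sum fun y _ =>
        card_image_le.trans ((card_filter_le _ _).trans (card_nbr y))
    _ = 2 * d * Y.card := by rw [sum_const, smul_eq_mul, mul_comm]

lemma Eout_disjoint (Y W : Finset (V d)) : Disjoint (Ein W) (Eout Y W) := by
  rw [Finset.disjoint_left]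
  intro e h1 h2
  obtain ⟨y, _, z, _, hz, rfl⟩ := mem_Eout.mp h2
  exact hz (mem_Ein.mp h1).2.1

/-- the cluster dies between the distances `n` and `n + 1` -/
lemma die_bound {p : I} (t m n : ℕ) (hmn : m ≤ n) :
    (1 - (p : ℝ)) ^ (2 * d * t) * (perc p).real {S | 0 < (bd (d := d) m n S).card ∧ (bd m n S).card ≤ t} ≤
      (perc p).real (Out d m n \ Out d m (n + 1)) := by
  set G : Set (Set (Ed d)) := {S | 0 < (bd m n S).card ∧ (bd m n S).card ≤ t} with hG
  set K := Ein (Lam (0 : V d) n) with hKdef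
  set U := K ∪ Eout (Lam (0 : V d) n) (Lam 0 n) with hU
  have hp0 : (0 : ℝ) ≤ 1 - p := by linarith [p.2.2]
  have hp1 : 1 - (p : ℝ) ≤ 1 := by linarith [p.2.1]
  have hdG : Det K G := by
    apply det_of
    intro S S' h
    simp only [hG, Set.mem_ofPred_eq, bd_congr h]
  have hKlat : Lat K := lat_Ein _
  have hUlat : Lat U := by
    apply lat_union hKlat
    intro e he
    obtain ⟨y, _, z, h, _, rfl⟩ := mem_Eout.mp he
    exact h
  -- closing the edges
  have h1 := Pr_closed_ge (wt_const (d := d) p) (K := K) (U := U) subset_union_left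
    (fun S => bd m n S) ((Lam (0 : V d) n).powerset.filter fun Y => Y.card ≤ t) G
    (by
      intro ω _ hω
      rw [mem_filter, mem_powerset]
      exact ⟨filter_subset _ _, hω.2⟩)
    (by
      intro Y _
      apply det_of
      intro S S' h
      simp only [hG, Set.mem_inter_iff, Set.mem_ofPred_eq, bd_congr h])
    (fun Y => Eout Y (Lam (0 : V d) n))
    (by
      intro Y hY
      rw [mem_filter, mem_powerset] at hY
      refine ⟨?_, Eout_disjoint _ _⟩
      refine subset_trans ?_ subset_union_right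
      intro e he
      obtain ⟨y, hy, z, h1, h2, rfl⟩ := mem_Eout.mp he
      exact mem_Eout.mpr ⟨y, hY.1 hy, z, h1, h2, rfl⟩)
    (c := (1 - (p : ℝ)) ^ (2 * d * t))
    (by
      intro Y hY
      rw [mem_filter, mem_powerset] at hY
      rw [prod_const]
      apply pow_le_pow_of_le_one hp0 hp1
      exact (card_Eout _ _).trans (Nat.mul_le_mul_left _ hY.2))
  have h2 : Det U (G ∩ {S | ∀ e ∈ Eout (bd m n S) (Lam (0 : V d) n), e ∉ S}) := by
    apply det_of
    intro S S' h
    have h3 : bd m n S = bd m n S' := bd_congr fun e he => h e (mem_union_left _ he)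
    simp only [hG, Set.mem_inter_iff, Set.mem_ofPred_eq, h3]
    refine and_congr_right fun _ => forall₂_congr fun e he => ?_
    rw [h e]
    apply mem_union_right
    obtain ⟨y, hy, z, h4, h5, rfl⟩ := mem_Eout.mp he
    exact mem_Eout.mpr ⟨y, (filter_subset _ _) hy, z, h4, h5, rfl⟩
  rw [perc_det p hUlat (det_mono subset_union_left hdG)]
  refine h1.trans ?_
  change P0 p U _ ≤ _
  rw [← perc_det p hUlat h2]
  apply perc_mono
  rintro S ⟨h3, h4⟩
  refine ⟨out_iff.mpr (card_pos.mp h3.1), ?_⟩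
  rintro ⟨x, hx, y, hy, hc⟩
  have hxn : dst x 0 ≤ n := (mem_Lam.mp hx).trans hmn
  obtain ⟨u, v, h5, h6, -, -, h7, h8, h9⟩ := Cn.exit (A := (Lam (0 : V d) n : Set (V d))) hc
    (by rw [Finset.mem_coe, mem_Lam]; exact hxn) (by rw [Finset.mem_coe, mem_Lam]; omega)
  rw [Finset.mem_coe, mem_Lam] at h5 h6
  have h10 := dst_adj h7.symm
  have h11 := dst_tri v u 0
  have h12 : u ∈ bd m n S := by
    rw [mem_bd]
    exact ⟨by omega, x, hx, h9.mono subset_rfl Set.inter_subset_right⟩
  refine h4 s(u, v) (mem_Eout.mpr ⟨u, h12, v, h7, ?_, rfl⟩) h8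
  rw [mem_Lam]
  omega

lemma die_tendsto {p : I} (m : ℕ) : ∀ ε : ℝ, 0 < ε → ∃ n0, m ≤ n0 ∧ ∀ n ≥ n0,
    (perc p).real (Out d m n \ Out d m (n + 1)) < ε := by
  intro ε hε
  -- the sequence of probabilities is decreasing and bounded below
  set a : ℕ → ℝ := fun k => (perc p).real (Out d m (m + k)) with ha
  have hanti : Antitone a := by
    intro k l h
    exact perc_mono p (out_anti (by omega) (by omega))
  have hbdd : BddBelow (Set.range a) := ⟨0, by
    rintro _ ⟨k, rfl⟩
    exact measureReal_nonneg⟩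
  have hlim := tendsto_atTop_ciInf hanti hbdd
  set l := ⨅ i, a i
  have h1 := hlim.eventually (gt_mem_nhds (show l < l + ε by linarith))
  obtain ⟨k0, hk0⟩ := Filter.eventually_atTop.mp h1
  refine ⟨m + k0, by omega, ?_⟩
  intro n hn
  obtain ⟨k, rfl⟩ : ∃ k, n = m + k := ⟨n - m, by omega⟩
  have h2 : (perc p).real (Out d m (m + k) \ Out d m (m + k + 1)) = a k - a (k + 1) := by
    rw [ha]
    simp only
    rw [← measureReal_sdiff (out_anti (by omega) (by omega)) (out_loc (m := m) (n := m + (k+1))).meas]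
    rfl
  rw [h2]
  have h3 := hk0 k (by omega)
  have h4 : l ≤ a (k + 1) := ciInf_le hbdd (k + 1)
  linarith

/-- the part of the boundary of the box of radius `n` around `c` where the coordinate `i` is
extremal and the signs of the relative coordinates are those of `τ` -/
noncomputable def Fc (c : V d) (i : Fin d) (τ : Fin d → ℤˣ) (n : ℕ) : Finset (V d) :=
  (Lam c n).filter fun x => (τ i : ℤ) * (x i - c i) = n ∧ ∀ j, 0 ≤ (τ j : ℤ) * (x j - c j)

/-- the vertices of `Fc` connected to the small box -/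
noncomputable def hits (m n : ℕ) (i : Fin d) (τ : Fin d → ℤˣ) (S : Set (Ed d)) : Finset (V d) :=
  (Fc 0 i τ n).filter fun y => ∃ x ∈ Lam (0 : V d) m, Cn S (Lam (0 : V d) n : Set (V d)) x y

lemma bd_subset (hd : 0 < d) (m n : ℕ) (S : Set (Ed d)) :
    bd m n S ⊆ (univ : Finset (Fin d × (Fin d → ℤˣ))).biUnion fun q => hits m n q.1 q.2 S := by
  intro y hy
  obtain ⟨h1, h2⟩ := mem_bd.mp hy
  obtain ⟨i, hi⟩ := exists_dst hd y 0
  rw [mem_biUnion]
  refine ⟨(i, fun j => if 0 ≤ y j then 1 else -1), mem_univ _, ?_⟩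
  rw [hits, mem_filter, Fc, mem_filter, mem_Lam]
  have h3 : ∀ j, ((if 0 ≤ y j then (1 : ℤˣ) else -1 : ℤˣ) : ℤ) * (y j - (0 : V d) j) = |y j| := by
    intro j
    rw [Pi.zero_apply, sub_zero]
    split_ifs with h
    · rw [abs_of_nonneg h]; simp
    · rw [abs_of_neg (not_le.mp h)]; simp
  refine ⟨⟨h1.le, ?_, ?_⟩, h2⟩
  · simp only
    rw [h3, ← h1, hi, Pi.zero_apply, sub_zero]
  · intro j
    simp only
    rw [h3]
    exact abs_nonneg _

/-- the number of parts -/
def Nq (d : ℕ) : ℕ := Fintype.card (Fin d × (Fin d → ℤˣ))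

lemma card_bd_le (hd : 0 < d) (m n t : ℕ) (S : Set (Ed d))
    (h : ∀ q : Fin d × (Fin d → ℤˣ), (hits m n q.1 q.2 S).card < t) :
    (bd m n S).card ≤ Nq d * t := by
  refine (card_le_card (bd_subset hd m n S)).trans (card_biUnion_le.trans ?_)
  calc ∑ q : Fin d × (Fin d → ℤˣ), (hits m n q.1 q.2 S).card
      ≤ ∑ q : Fin d × (Fin d → ℤˣ), t := sum_le_sum fun q _ => (h q).le
    _ = Nq d * t := by rw [sum_const, smul_eq_mul, card_univ, Nq]

lemma hits_congr {m n : ℕ} {i : Fin d} {τ : Fin d → ℤˣ} {S S' : Set (Ed d)}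
    (h : ∀ e ∈ Ein (Lam (0 : V d) n), (e ∈ S ↔ e ∈ S')) : hits m n i τ S = hits m n i τ S' := by
  unfold hits Cn
  rw [res_congr_Ein h]

lemma hits_mono {m n : ℕ} {i : Fin d} {τ : Fin d → ℤˣ} {S S' : Set (Ed d)} (h : S ⊆ S') :
    hits m n i τ S ⊆ hits m n i τ S' := by
  intro y hy
  rw [hits, mem_filter] at hy ⊢
  obtain ⟨h1, x, hx, h2⟩ := hy
  exact ⟨h1, x, hx, h2.mono h subset_rfl⟩

lemma hits_loc (m n t : ℕ) (i : Fin d) (τ : Fin d → ℤˣ) :
    Loc {S : Set (Ed d) | t ≤ (hits m n i τ S).card} := by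
  refine ⟨Ein (Lam 0 n), lat_Ein _, ?_⟩
  apply det_of
  intro S S' h
  simp only [Set.mem_ofPred_eq, hits_congr h]

lemma hits_sym (m n t : ℕ) (i i0 : Fin d) (τ : Fin d → ℤˣ) (p : I) :
    (perc p).real {S : Set (Ed d) | t ≤ (hits m n i τ S).card} =
      (perc p).real {S : Set (Ed d) | t ≤ (hits m n i0 (fun _ => 1) S).card} := by
  set φ := symE (Equiv.swap i i0) τ with hφ
  have hauto : IsAuto φ := isAuto_symE _ _
  rw [← perc_pull hauto p (hits_loc m n t i0 fun _ => 1).meas]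
  congr 1
  ext S
  simp only [Set.mem_ofPred_eq, Set.mem_preimage]
  have hdst : ∀ x : V d, dst (φ x) 0 = dst x 0 := by
    intro x
    apply le_antisymm
    · rw [dst_le]
      intro j
      rw [hφ, symE_apply, Pi.zero_apply, sub_zero, abs_unit_mul]
      have := le_dst x 0 (Equiv.swap i i0 j)
      rwa [Pi.zero_apply, sub_zero] at this
    · rw [dst_le]
      intro j
      have := le_dst (φ x) 0 ((Equiv.swap i i0).symm j)
      rw [hφ, symE_apply, Pi.zero_apply, sub_zero, abs_unit_mul, Equiv.apply_symm_apply] at this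
      rwa [Pi.zero_apply, sub_zero]
  have himg : ∀ k, φ '' (Lam (0 : V d) k : Set (V d)) = (Lam (0 : V d) k : Set (V d)) := by
    intro k
    ext y
    rw [Set.mem_image]
    constructor
    · rintro ⟨x, hx, rfl⟩
      rw [Finset.mem_coe, mem_Lam] at hx ⊢
      rw [hdst]
      exact hx
    · intro hy
      refine ⟨φ.symm y, ?_, φ.apply_symm_apply y⟩
      rw [Finset.mem_coe, mem_Lam] at hy ⊢
      rw [← hdst, φ.apply_symm_apply]
      exact hy
  have hFc : ∀ x : V d, φ x ∈ Fc 0 i τ n ↔ x ∈ Fc 0 i0 (fun _ => 1) n := by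
    intro x
    rw [Fc, Fc, mem_filter, mem_filter, mem_Lam, mem_Lam, hdst]
    have h1 : ∀ j, (τ j : ℤ) * φ x j = x (Equiv.swap i i0 j) := by
      intro j
      rw [hφ, symE_apply, ← mul_assoc, ← Units.val_mul,
        Int.units_mul_self, Units.val_one, one_mul]
    simp only [Pi.zero_apply, sub_zero, h1, Equiv.swap_apply_left, Units.val_one, one_mul]
    refine and_congr_right fun _ => and_congr_right fun _ => ?_
    constructor
    · intro h j
      have := h ((Equiv.swap i i0).symm j)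
      rwa [Equiv.apply_symm_apply] at this
    · intro h j
      exact h _
  have hcard : hits m n i τ S = (hits m n i0 (fun _ => 1) (pull φ S)).map φ.toEmbedding := by
    ext y
    rw [mem_map]
    simp only [Equiv.coe_toEmbedding, hits, mem_filter]
    constructor
    · rintro ⟨h1, x, hx, h2⟩
      refine ⟨φ.symm y, ⟨?_, φ.symm x, ?_, ?_⟩, φ.apply_symm_apply y⟩
      · rw [← hFc, φ.apply_symm_apply]
        exact h1
      · rw [mem_Lam, ← hdst, φ.apply_symm_apply]
        exact mem_Lam.mp hx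
      · rw [pull_Cn hauto, himg, φ.apply_symm_apply, φ.apply_symm_apply]
        exact h2
    · rintro ⟨z, ⟨h1, x, hx, h2⟩, rfl⟩
      refine ⟨(hFc z).mpr h1, φ x, ?_, ?_⟩
      · rw [mem_Lam, hdst]
        exact mem_Lam.mp hx
      · rw [pull_Cn hauto, himg] at h2
        exact h2
  rw [hcard, card_map]

/-- **Many connections to each part of the boundary.** -/
theorem face_prob (hd : 0 < d) {p : I} (hp : criticalProbability d < p) (hp1 : (p : ℝ) < 1)
    {ε : ℝ} (hε : 0 < ε) : ∃ m0, ∀ m ≥ m0, ∀ t, ∃ n0, m ≤ n0 ∧ ∀ n ≥ n0, ∀ i τ,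
      1 - ε ≤ (perc p).real {S : Set (Ed d) | t ≤ (hits m n i τ S).card} := by
  set N := Nq d with hN
  have hNpos : 0 < N := by
    rw [hN, Nq, Fintype.card_pos_iff]
    exact ⟨(⟨0, hd⟩, fun _ => 1)⟩
  have hε' : 0 < ε ^ N / 2 := by positivity
  obtain ⟨m0, hm0⟩ := out_prob hd hp hε'
  refine ⟨m0, fun m hm t => ?_⟩
  have hp0 : (0 : ℝ) < 1 - p := by linarith
  set c := (1 - (p : ℝ)) ^ (2 * d * (N * t)) with hc
  have hcpos : 0 < c := by positivity
  obtain ⟨n0, hmn0, hn0⟩ := die_tendsto (d := d) (p := p) m (c * (ε ^ N / 2)) (by positivity)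
  refine ⟨n0, hmn0, fun n hn i τ => ?_⟩
  have hmn : m ≤ n := hmn0.trans hn
  -- few boundary vertices are unlikely
  have h1 : (perc p).real {S : Set (Ed d) | (bd m n S).card ≤ N * t} ≤ ε ^ N := by
    have e1 : {S : Set (Ed d) | (bd m n S).card ≤ N * t} ⊆
        (Out d m n)ᶜ ∪ {S | 0 < (bd m n S).card ∧ (bd m n S).card ≤ N * t} := by
      intro S hS
      by_cases h : S ∈ Out d m n
      · exact Or.inr ⟨card_pos.mpr (out_iff.mp h), hS⟩
      · exact Or.inl h
    have e2 : (perc p).real (Out d m n)ᶜ ≤ ε ^ N / 2 := by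
      rw [probReal_compl_eq_one_sub out_loc.meas]
      linarith [hm0 m hm n hmn]
    have e3 : (perc p).real {S : Set (Ed d) | 0 < (bd m n S).card ∧ (bd m n S).card ≤ N * t} ≤
        ε ^ N / 2 := by
      have h2 := die_bound (d := d) (p := p) (N * t) m n hmn
      have h3 := hn0 n hn
      rw [← hc] at h2
      have h4 := h2.trans h3.le
      exact le_of_mul_le_mul_left h4 hcpos
    refine (perc_mono p e1).trans ((measureReal_union_le _ _).trans ?_)
    linarith
  -- positive association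
  set P1 := (perc p).real {S : Set (Ed d) | t ≤ (hits m n i τ S).card} with hP1
  set E := Ein (Lam (0 : V d) n) with hE
  have hdet : ∀ q : Fin d × (Fin d → ℤˣ),
      Det E {S : Set (Ed d) | (hits m n q.1 q.2 S).card < t} := by
    intro q
    apply det_of
    intro S S' h
    simp only [Set.mem_ofPred_eq, hits_congr h]
  have hall : ∀ q : Fin d × (Fin d → ℤˣ),
      Pr (fun _ => (p : ℝ)) E {S : Set (Ed d) | (hits m n q.1 q.2 S).card < t} = 1 - P1 := by
    intro q
    have e1 := perc_det p (lat_Ein (Lam (0 : V d) n)) (hdet q)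
    rw [P0] at e1
    rw [← e1]
    have e2 : {S : Set (Ed d) | (hits m n q.1 q.2 S).card < t} =
        {S : Set (Ed d) | t ≤ (hits m n q.1 q.2 S).card}ᶜ := by
      ext S
      simp
    rw [e2, probReal_compl_eq_one_sub (hits_loc m n t q.1 q.2).meas, hP1,
      hits_sym m n t q.1 ⟨0, hd⟩ q.2 p, hits_sym m n t i ⟨0, hd⟩ τ p]
  have h2 := Pr_fkg_dec_prod (wt_const (d := d) p) E (univ : Finset (Fin d × (Fin d → ℤˣ)))
    (fun q => {S : Set (Ed d) | (hits m n q.1 q.2 S).card < t}) (by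
      intro q _ S S' h h3 h4
      apply h3
      simp only [Set.mem_ofPred_eq] at h4 ⊢
      exact lt_of_le_of_lt (card_le_card (hits_mono h)) h4)
  rw [prod_congr rfl fun q _ => hall q, prod_const, card_univ] at h2
  have h3 : Pr (fun _ => (p : ℝ)) E {S : Set (Ed d) | ∀ q ∈ (univ : Finset (Fin d × (Fin d → ℤˣ))),
      S ∈ {S : Set (Ed d) | (hits m n q.1 q.2 S).card < t}} ≤ ε ^ N := by
    refine le_trans (Pr_mono (wt_const p) (B := {S : Set (Ed d) | (bd m n S).card ≤ N * t}) ?_) ?_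
    · intro S hS
      exact card_bd_le hd m n t S fun q => hS q (mem_univ q)
    · have e1 : Det E {S : Set (Ed d) | (bd m n S).card ≤ N * t} := by
        apply det_of
        intro S S' h
        simp only [Set.mem_ofPred_eq, bd_congr h]
      have e2 := perc_det p (lat_Ein (Lam (0 : V d) n)) e1
      rw [P0] at e2
      rw [← e2]
      exact h1
  have h4 : (1 - P1) ^ N ≤ ε ^ N := h2.trans h3
  have h5 : 1 - P1 ≤ ε := le_of_pow_le_pow_left₀ hNpos.ne' hε.le h4
  linarith

end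

end Pool.Agent.Lib.MP_566bac_pr.Zd
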