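import Pool.Agent.Lib.MP_566bac_pr.Critical
import Pool.Agent.Lib.MP_566bac_pr.Hd.DefsC

/-!
# Transfer of the planar theorem from `ℤ × ℤ` to `Fin 2 → ℤ`
-/

open MeasureTheory ProbabilityTheory unitInterval SimpleGraph Filter

namespace Pool.Agent.Lib.MP_566bac_pr.Zd

/-- the bijection between the two versions of the plane -/
def psi : ℤ × ℤ ≃ (Fin 2 → ℤ) := (finTwoArrowEquiv ℤ).symm

lemma psi_zero (z : ℤ × ℤ) : psi z 0 = z.1 := rfl

lemma psi_one (z : ℤ × ℤ) : psi z 1 = z.2 := rfl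

lemma psi_adj (x y : ℤ × ℤ) :
    (Hd.lattice 2).Adj (psi x) (psi y) ↔ Pool.Agent.Lib.MP_566bac_pr.lattice.Adj x y := by
  change ∑ i, |psi x i - psi y i| = 1 ↔ |x.1 - y.1| + |x.2 - y.2| = 1
  rw [Fin.sum_univ_two]
  rfl

/-- the configuration seen in `ℤ × ℤ` -/
def tp (S : Set (Sym2 (Fin 2 → ℤ))) : Set (Sym2 (ℤ × ℤ)) := Sym2.map psi ⁻¹' S

lemma measurable_tp : Measurable tp := by
  rw [measurable_set_iff]
  intro e
  exact measurable_set_mem (Sym2.map psi e)

lemma tp_measurePreserving (p : I) :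
    MeasurePreserving tp (setBernoulli (Hd.lattice 2).edgeSet p)
      (setBernoulli Pool.Agent.Lib.MP_566bac_pr.lattice.edgeSet p) := by
  classical
  let τ : Sym2 (ℤ × ℤ) ≃ Sym2 (Fin 2 → ℤ) :=
    { toFun := Sym2.map psi
      invFun := Sym2.map psi.symm
      left_inv := by intro e; rw [Sym2.map_map]; simp
      right_inv := by intro e; rw [Sym2.map_map]; simp }
  have hτ : ∀ e, τ e = Sym2.map psi e := fun e => rfl
  have hmem : ∀ e, (τ e ∈ (Hd.lattice 2).edgeSet) =
      (e ∈ Pool.Agent.Lib.MP_566bac_pr.lattice.edgeSet) := by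
    intro e
    rw [hτ]
    induction e using Sym2.ind with
    | _ a b =>
      rw [Sym2.map_mk, SimpleGraph.mem_edgeSet, SimpleGraph.mem_edgeSet]
      exact propext (psi_adj a b)
  have hmem' : ∀ e, (τ.symm e ∈ Pool.Agent.Lib.MP_566bac_pr.lattice.edgeSet) =
      (e ∈ (Hd.lattice 2).edgeSet) := by
    intro e
    rw [← hmem, τ.apply_symm_apply]
  refine ⟨measurable_tp, ?_⟩
  set ν : Sym2 (ℤ × ℤ) → Measure Prop := fun i =>
    toNNReal p • Measure.dirac (i ∈ Pool.Agent.Lib.MP_566bac_pr.lattice.edgeSet) +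
      toNNReal (unitInterval.symm p) • Measure.dirac False with hν
  set ν' : Sym2 (Fin 2 → ℤ) → Measure Prop := fun i =>
    toNNReal p • Measure.dirac (i ∈ (Hd.lattice 2).edgeSet) +
      toNNReal (unitInterval.symm p) • Measure.dirac False with hν'
  have hP : setBernoulli Pool.Agent.Lib.MP_566bac_pr.lattice.edgeSet p =
      (Measure.infinitePi ν).map (fun P : Sym2 (ℤ × ℤ) → Prop ↦ {i | P i}) :=
    setBernoulli_eq_map _ _
  have hP' : setBernoulli (Hd.lattice 2).edgeSet p =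
      (Measure.infinitePi ν').map (fun P : Sym2 (Fin 2 → ℤ) → Prop ↦ {i | P i}) :=
    setBernoulli_eq_map _ _
  have hmeas : Measurable (fun P : Sym2 (ℤ × ℤ) → Prop ↦ {i | P i}) :=
    MeasurableEquiv.setOfPred.measurable
  have hmeas' : Measurable (fun P : Sym2 (Fin 2 → ℤ) → Prop ↦ {i | P i}) :=
    MeasurableEquiv.setOfPred.measurable
  have hprob : ∀ i, IsProbabilityMeasure (ν i) := by
    intro i
    rw [hν]
    infer_instance
  have hre : (Measure.infinitePi ν').map (fun P e => P (τ e)) = Measure.infinitePi ν := by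
    have h1 := Measure.infinitePi_map_piCongrLeft ν τ.symm
    have h2 : (fun i => ν (τ.symm i)) = ν' := by
      ext1 i
      simp only [hν, hν', hmem']
    rw [h2] at h1
    rw [← h1]
    congr 1
    ext P e
    have h3 := MeasurableEquiv.piCongrLeft_apply_apply (β := fun _ => Prop) τ.symm P (τ e)
    rw [τ.symm_apply_apply] at h3
    exact iff_of_eq h3.symm
  have hre_meas : Measurable (fun (P : Sym2 (Fin 2 → ℤ) → Prop) e => P (τ e)) := by
    fun_prop
  rw [hP, hP', Measure.map_map measurable_tp hmeas', ← hre, Measure.map_map hmeas hre_meas]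
  rfl

lemma tp_adj (S : Set (Sym2 (Fin 2 → ℤ))) (x y : ℤ × ℤ) :
    (Pool.Agent.Lib.MP_566bac_pr.openGraph (tp S)).Adj x y ↔
      (Hd.openGraph S).Adj (psi x) (psi y) := by
  change Pool.Agent.Lib.MP_566bac_pr.lattice.Adj x y ∧ Sym2.map psi s(x, y) ∈ S ↔
    (Hd.lattice 2).Adj (psi x) (psi y) ∧ s(psi x, psi y) ∈ S
  rw [psi_adj, Sym2.map_mk]

lemma tp_reach (S : Set (Sym2 (Fin 2 → ℤ))) (x y : ℤ × ℤ) :
    (Pool.Agent.Lib.MP_566bac_pr.openGraph (tp S)).Reachable x y ↔
      (Hd.openGraph S).Reachable (psi x) (psi y) := by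
  let f : Pool.Agent.Lib.MP_566bac_pr.openGraph (tp S) ≃g Hd.openGraph S := ⟨psi, by
    intro a b
    exact (tp_adj S a b).symm⟩
  exact (SimpleGraph.Iso.reachable_iff (φ := f)).symm

lemma tp_cluster (S : Set (Sym2 (Fin 2 → ℤ))) (C : Set (Fin 2 → ℤ)) :
    Hd.IsInfiniteCluster S C ↔
      Pool.Agent.Lib.MP_566bac_pr.IsInfiniteCluster (tp S) (psi ⁻¹' C) := by
  constructor
  · rintro ⟨h1, x, rfl⟩
    refine ⟨h1.preimage (by simp), psi.symm x, ?_⟩
    ext y
    simp only [Set.mem_preimage, Set.mem_ofPred_eq]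
    rw [tp_reach, Equiv.apply_symm_apply]
  · rintro ⟨h1, x, hx⟩
    refine ⟨?_, psi x, ?_⟩
    · intro h2
      exact h1 (h2.preimage psi.injective.injOn)
    · ext y
      have h2 : psi.symm y ∈ psi ⁻¹' C ↔
          psi.symm y ∈ {y | (Pool.Agent.Lib.MP_566bac_pr.openGraph (tp S)).Reachable x y} := by
        rw [hx]
      simp only [Set.mem_preimage, Equiv.apply_symm_apply, Set.mem_ofPred_eq] at h2
      rw [h2, tp_reach, Equiv.apply_symm_apply]
      rfl

lemma tp_harmonic (S : Set (Sym2 (Fin 2 → ℤ))) (C : Set (Fin 2 → ℤ)) (h : ℤ × ℤ → ℝ)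
    (hh : Pool.Agent.Lib.MP_566bac_pr.IsHarmonicOn (tp S) (psi ⁻¹' C) h) :
    Hd.IsHarmonicOn S C (fun x => h (psi.symm x)) := by
  intro x hx
  have h1 := hh (psi.symm x) (by rw [Set.mem_preimage, Equiv.apply_symm_apply]; exact hx)
  have h2 : (Hd.openGraph S).neighborSet x =
      psi '' (Pool.Agent.Lib.MP_566bac_pr.openGraph (tp S)).neighborSet (psi.symm x) := by
    ext y
    rw [Set.mem_image]
    constructor
    · intro hy
      refine ⟨psi.symm y, ?_, Equiv.apply_symm_apply _ _⟩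
      rw [SimpleGraph.mem_neighborSet] at hy ⊢
      rw [tp_adj, Equiv.apply_symm_apply, Equiv.apply_symm_apply]
      exact hy
    · rintro ⟨z, hz, rfl⟩
      rw [SimpleGraph.mem_neighborSet] at hz ⊢
      rw [tp_adj, Equiv.apply_symm_apply] at hz
      exact hz
  simp only
  rw [h1, h2, Set.ncard_image_of_injective _ psi.injective]
  congr 1
  rw [finsum_mem_image psi.injective.injOn]
  simp only [Equiv.symm_apply_apply]

lemma tp_density (A : Set (Fin 2 → ℤ))
    (hA : Pool.Agent.Lib.MP_566bac_pr.HasPositiveDensity (psi ⁻¹' A)) :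
    Hd.HasPositiveDensity A := by
  unfold Pool.Agent.Lib.MP_566bac_pr.HasPositiveDensity at hA
  unfold Hd.HasPositiveDensity
  have hb : ∀ N : ℕ, Hd.ball 2 N = psi '' Pool.Agent.Lib.MP_566bac_pr.ball N := by
    intro N
    ext x
    rw [Set.mem_image]
    constructor
    · intro hx
      exact ⟨psi.symm x, ⟨hx 0, hx 1⟩, Equiv.apply_symm_apply _ _⟩
    · rintro ⟨z, ⟨h1, h2⟩, rfl⟩
      intro i
      fin_cases i
      · exact h1
      · exact h2
  have hab : ∀ N : ℕ, A ∩ Hd.ball 2 N =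
      psi '' ((psi ⁻¹' A) ∩ Pool.Agent.Lib.MP_566bac_pr.ball N) := by
    intro N
    rw [hb, Set.image_preimage_inter]
  have h1 : ∀ N : ℕ, ((A ∩ Hd.ball 2 N).ncard : ℝ) / ((Hd.ball 2 N).ncard : ℝ) =
      (((psi ⁻¹' A) ∩ Pool.Agent.Lib.MP_566bac_pr.ball N).ncard : ℝ) /
        ((Pool.Agent.Lib.MP_566bac_pr.ball N).ncard : ℝ) := by
    intro N
    rw [hab, hb, Set.ncard_image_of_injective _ psi.injective,
      Set.ncard_image_of_injective _ psi.injective]
  simp only [h1]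
  exact hA

lemma crit_planar {p : I} (hp : Hd.criticalProbability 2 < p) :
    Pool.Agent.Lib.MP_566bac_pr.criticalProbability < (p : ℝ) := by
  obtain ⟨q, hq, hqp⟩ := sInf_lt_iff.mp hp
  refine lt_of_le_of_lt (csInf_le ⟨0, fun x hx => hx.1.1⟩ ?_) (show (q : ℝ) < p from hqp)
  refine ⟨q.2, lt_of_lt_of_le hq ?_⟩
  have h1 := (tp_measurePreserving q)
  have h2 : {S : Set (Sym2 (Fin 2 → ℤ)) | ∃ C, Hd.IsInfiniteCluster S C} ⊆
      tp ⁻¹' {S | ∃ C, Pool.Agent.Lib.MP_566bac_pr.IsInfiniteCluster S C} := by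
    rintro S ⟨C, hC⟩
    exact ⟨_, (tp_cluster S C).mp hC⟩
  refine (measure_mono h2).trans ?_
  have h3 := Measure.le_map_apply (μ := setBernoulli (Hd.lattice 2).edgeSet q)
    measurable_tp.aemeasurable {S | ∃ C, Pool.Agent.Lib.MP_566bac_pr.IsInfiniteCluster S C}
  rw [h1.map_eq] at h3
  exact h3

/-- **The planar case.** -/
theorem planar {p : I} (hp : Hd.criticalProbability 2 < p) :
    ∀ᵐ S ∂(setBernoulli (Hd.lattice 2).edgeSet p),
      ∃ C : Set (Fin 2 → ℤ), Hd.IsInfiniteCluster S C ∧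
        (∀ C' : Set (Fin 2 → ℤ), Hd.IsInfiniteCluster S C' → C' = C) ∧
        ∃ h : (Fin 2 → ℤ) → ℝ, Hd.IsHarmonicOn S C h ∧ (∃ x ∈ C, ∃ y ∈ C, h x ≠ h y) ∧
          Hd.HasPositiveDensity {x | x ∈ C ∧ |h x| ≤ 1} := by
  have h1 : 1 / 2 < (p : ℝ) := by
    rw [← criticalProbability_eq]
    exact crit_planar hp
  have h2 := main h1
  have h3 := (tp_measurePreserving p).quasiMeasurePreserving.ae h2
  filter_upwards [h3] with S hS
  obtain ⟨C, hC, huniq, h, hh, ⟨x, hx, y, hy, hxy⟩, -, hpos⟩ := hS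
  have e1 : psi ⁻¹' (psi '' C) = C := Set.preimage_image_eq _ psi.injective
  refine ⟨psi '' C, ?_, ?_, fun x => h (psi.symm x), ?_, ?_, ?_⟩
  · rw [tp_cluster, e1]
    exact hC
  · intro C' hC'
    have h4 := huniq _ ((tp_cluster S C').mp hC')
    rw [← h4, Set.image_preimage_eq _ psi.surjective]
  · apply tp_harmonic
    rw [e1]
    exact hh
  · refine ⟨psi x, Set.mem_image_of_mem _ hx, psi y, Set.mem_image_of_mem _ hy, ?_⟩
    simp only [Equiv.symm_apply_apply]
    exact hxy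
  · apply tp_density
    convert hpos using 1
    ext z
    simp only [Set.mem_preimage, Set.mem_ofPred_eq, Equiv.symm_apply_apply]
    rw [psi.injective.mem_set_image]

end Pool.Agent.Lib.MP_566bac_pr.Zd
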