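import Pool.Agent.Lib.MP_566bac_pr.Zd.Face

/-!
# Seeds

Each edge has a base coordinate and two coordinates for every label; the seeds are attached to the
vertices of a face by means of the coordinates of a label.
-/

open MeasureTheory ProbabilityTheory Finset unitInterval SimpleGraph
open scoped ENNReal

namespace Pool.Agent.Lib.MP_566bac_pr.Zd

variable {d : ℕ}

/-- the labels: `none` for the base configuration; the label `z` has two configurations, the first
one (`false`) for the boundary edges and the second one (`true`) for the seeds -/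
abbrev Lb : Type := Option ((ℤ × ℤ) × Bool)

/-- the coordinates -/
abbrev Co (d : ℕ) : Type := Ed d × Lb

/-- the weights of the coordinates -/
noncomputable def cw (p δ : ℝ) : Co d → ℝ := fun q => if q.2 = none then p else δ

/-- the base configuration -/
def bs (ω : Set (Co d)) : Set (Ed d) := {e | (e, none) ∈ ω}

/-- the configurations of the label `z` -/
def lb (ω : Set (Co d)) (z : ℤ × ℤ) (b : Bool) : Set (Ed d) := {e | (e, some (z, b)) ∈ ω}

lemma wt_cw {p δ : ℝ} (hp0 : 0 ≤ p) (hp1 : p ≤ 1) (hδ0 : 0 ≤ δ) (hδ1 : δ ≤ 1) :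
    Wt (cw (d := d) p δ) := by
  intro q
  unfold cw
  split_ifs
  · exact ⟨hp0, hp1⟩
  · exact ⟨hδ0, hδ1⟩

/-- the center of the seed attached to `x` in the direction of the coordinate `i` -/
def seedC (x : V d) (i : Fin d) (u : ℤˣ) (m : ℕ) : V d := x + ((u : ℤ) * (m + 1)) • uv i

section
open Classical

/-- the edges of the seed attached to `x` -/
noncomputable def seedE (x : V d) (i : Fin d) (u : ℤˣ) (m : ℕ) : Finset (Ed d) :=
  insert s(x, x + (u : ℤ) • uv i) (Ein (Lam (seedC x i u m) m))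

lemma adj_unit (x : V d) (i : Fin d) (u : ℤˣ) : (lattice d).Adj x (x + (u : ℤ) • uv i) := by
  rw [adj_iff]
  rcases Int.units_eq_one_or u with rfl | rfl
  · exact ⟨i, Or.inl (by simp)⟩
  · exact ⟨i, Or.inr (by simp [sub_eq_add_neg])⟩

lemma seedE_lat (x : V d) (i : Fin d) (u : ℤˣ) (m : ℕ) : Lat (seedE x i u m) := by
  intro e he
  rw [seedE, mem_insert] at he
  rcases he with rfl | he
  · exact adj_unit x i u
  · exact lat_Ein _ e he

/-- bound for the number of the edges of a seed -/
def sM (d m : ℕ) : ℕ := ((2 * m + 1) ^ d * (2 * m + 1) ^ d) + 1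

lemma card_seedE (x : V d) (i : Fin d) (u : ℤˣ) (m : ℕ) : (seedE x i u m).card ≤ sM d m := by
  unfold seedE sM
  refine (card_insert_le _ _).trans ?_
  apply Nat.add_le_add_right
  unfold Ein
  refine (card_filter_le _ _).trans (card_image_le.trans ?_)
  rw [card_product, card_Lam]

lemma smul_uv_apply (a : ℤ) (i j : Fin d) : (a • uv i : V d) j = if j = i then a else 0 := by
  rw [Pi.smul_apply, smul_eq_mul]
  split_ifs with h
  · rw [h, uv_same, mul_one]
  · rw [uv_ne h, mul_zero]

lemma dst_smul_uv (x : V d) (a : ℤ) (i : Fin d) : dst (x + a • uv i) x ≤ a.natAbs := by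
  rw [dst_le]
  intro j
  rw [Pi.add_apply, smul_uv_apply, add_sub_cancel_left]
  split_ifs
  · rw [Int.abs_eq_natAbs]
  · rw [abs_zero]; positivity

lemma unit_natAbs (u : ℤˣ) (a : ℤ) : ((u : ℤ) * a).natAbs = a.natAbs := by
  rcases Int.units_eq_one_or u with rfl | rfl <;> simp

/-- the edges of the seed attached to `x` are close to `x` -/
lemma seedE_near {x : V d} {i : Fin d} {u : ℤˣ} {m : ℕ} {e : Ed d} (he : e ∈ seedE x i u m)
    {v : V d} (hv : v ∈ e) : dst v x ≤ 2 * m + 1 := by
  rw [seedE, mem_insert] at he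
  rcases he with rfl | he
  · rw [Sym2.mem_iff] at hv
    rcases hv with rfl | rfl
    · rw [dst_self]; omega
    · have h1 := dst_smul_uv x (u : ℤ) i
      have h2 := unit_natAbs u 1
      rw [mul_one] at h2
      rw [h2] at h1
      have h3 : (1 : ℤ).natAbs = 1 := rfl
      omega
  · have h1 : v ∈ Lam (seedC x i u m) m := by
      induction e using Sym2.ind with
      | _ a b =>
        rw [mem_Ein] at he
        rw [Sym2.mem_iff] at hv
        rcases hv with rfl | rfl
        · exact he.1
        · exact he.2.1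
    rw [mem_Lam] at h1
    have h2 := dst_smul_uv x ((u : ℤ) * (m + 1)) i
    rw [unit_natAbs] at h2
    have h3 : ((m : ℤ) + 1).natAbs = m + 1 := by omega
    rw [h3] at h2
    have h4 := dst_tri v (seedC x i u m) x
    unfold seedC at h1 h4
    omega

lemma seedE_disjoint {x y : V d} {i : Fin d} {u : ℤˣ} {m : ℕ} (h : 4 * m + 2 < dst x y) :
    Disjoint (seedE x i u m) (seedE y i u m) := by
  rw [Finset.disjoint_left]
  intro e h1 h2
  induction e using Sym2.ind with
  | _ a b =>
    have h3 := seedE_near h1 (Sym2.mem_mk_left a b)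
    have h4 := seedE_near h2 (Sym2.mem_mk_left a b)
    have h5 := dst_tri x a y
    rw [dst_comm x a] at h5
    omega

/-- a separated subset -/
lemma exists_sep (Y : Finset (V d)) (r : ℕ) : ∃ Y' ⊆ Y,
    (∀ x ∈ Y', ∀ y ∈ Y', x ≠ y → r < dst x y) ∧ Y.card ≤ Y'.card * (2 * r + 1) ^ d := by
  set F := Y.powerset.filter fun Z => ∀ x ∈ Z, ∀ y ∈ Z, x ≠ y → r < dst x y with hF
  have hne : F.Nonempty := ⟨∅, by simp [hF]⟩
  obtain ⟨Z, hZ, hmax⟩ := exists_max_image F card hne
  rw [hF, mem_filter, mem_powerset] at hZ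
  refine ⟨Z, hZ.1, hZ.2, ?_⟩
  have hcov : Y ⊆ Z.biUnion fun z => Lam z r := by
    intro y hy
    rw [mem_biUnion]
    by_contra hcon
    push Not at hcon
    have hyZ : y ∉ Z := fun h => hcon y h (self_mem_Lam y r)
    have h1 : insert y Z ∈ F := by
      rw [hF, mem_filter, mem_powerset]
      refine ⟨insert_subset hy hZ.1, ?_⟩
      intro a ha b hb hab
      rw [mem_insert] at ha hb
      rcases ha with rfl | ha <;> rcases hb with rfl | hb
      · exact absurd rfl hab
      · have := hcon b hb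
        rw [mem_Lam] at this
        omega
      · have := hcon a ha
        rw [mem_Lam] at this
        rw [dst_comm]
        omega
      · exact hZ.2 a ha b hb hab
    have h2 := hmax _ h1
    rw [card_insert_of_notMem hyZ] at h2
    omega
  refine (card_le_card hcov).trans (card_biUnion_le.trans ?_)
  rw [sum_congr rfl fun z _ => card_Lam z r, sum_const, smul_eq_mul]

/-- independent groups of coordinates, none of which is completely present -/
lemma Pr_no_group {ι κ : Type*} {w : ι → ℝ} (hw : Wt w) {U : Finset ι} (s : Finset κ)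
    (J : κ → Finset ι) (hJ : ∀ k ∈ s, J k ⊆ U) (hd : ∀ k ∈ s, ∀ l ∈ s, k ≠ l → Disjoint (J k) (J l))
    {c : ℝ} (hc : ∀ k ∈ s, c ≤ ∏ e ∈ J k, w e) (hc1 : c ≤ 1) :
    Pr w U {S | ∀ k ∈ s, ¬ ∀ e ∈ J k, e ∈ S} ≤ (1 - c) ^ s.card := by
  induction s using Finset.induction_on with
  | empty =>
    simp only [notMem_empty, false_imp_iff, implies_true, card_empty, pow_zero]
    exact Pr_le_one hw _ _
  | insert k s hk ih =>
    have ih' := ih (fun l hl => hJ l (mem_insert_of_mem hl))
      (fun l hl l' hl' => hd l (mem_insert_of_mem hl) l' (mem_insert_of_mem hl'))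
      (fun l hl => hc l (mem_insert_of_mem hl))
    have e1 : {S : Set ι | ∀ l ∈ insert k s, ¬ ∀ e ∈ J l, e ∈ S} =
        {S | ∀ e ∈ J k, e ∈ S}ᶜ ∩ {S | ∀ l ∈ s, ¬ ∀ e ∈ J l, e ∈ S} := by
      ext S
      simp only [mem_insert, forall_eq_or_imp, Set.mem_ofPred_eq, Set.mem_inter_iff,
        Set.mem_compl_iff]
    have d1 : Det (J k) ({S : Set ι | ∀ e ∈ J k, e ∈ S}ᶜ) := by
      apply det_compl
      intro S S' h h1 e he
      exact (h e he).mp (h1 e he)
    have d2 : Det (s.biUnion J) {S : Set ι | ∀ l ∈ s, ¬ ∀ e ∈ J l, e ∈ S} := by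
      apply det_of
      intro S S' h
      refine forall₂_congr fun l hl => not_congr (forall₂_congr fun e he => ?_)
      exact h e (mem_biUnion.mpr ⟨l, hl, he⟩)
    have hdis : Disjoint (J k) (s.biUnion J) := by
      rw [disjoint_biUnion_right]
      intro l hl
      refine hd k (mem_insert_self _ _) l (mem_insert_of_mem hl) ?_
      rintro rfl
      exact hk hl
    rw [e1, Pr_indep (hJ k (mem_insert_self _ _)) (biUnion_subset.mpr fun l hl =>
      hJ l (mem_insert_of_mem hl)) hdis d1 d2, Pr_compl, Pr_all w (hJ k (mem_insert_self _ _)),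
      card_insert_of_notMem hk, pow_succ, mul_comm]
    have h1 := hc k (mem_insert_self _ _)
    have h2 : 0 ≤ Pr w U {S : Set ι | ∀ l ∈ s, ¬ ∀ e ∈ J l, e ∈ S} := Pr_nonneg hw _ _
    apply mul_le_mul ih' (by linarith)
    · have h3 : ∏ e ∈ J k, w e ≤ 1 := prod_le_one (fun e _ => (hw e).1) fun e _ => (hw e).2
      linarith
    · exact pow_nonneg (by linarith) _

/-- a relabeling of the coordinates -/
lemma Pr_map' {ι κ : Type*} (w : ι → ℝ) (j : κ → ι) (hj : Function.Injective j) (E : Finset κ) :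
    ∀ A : Set (Set κ), Pr w (E.image j) {ω | j ⁻¹' ω ∈ A} = Pr (fun k => w (j k)) E A := by
  induction E using Finset.induction_on with
  | empty =>
    intro A
    rw [image_empty, Pr_empty, Pr_empty]
    simp
  | insert k E hk ih =>
    intro A
    have h1 : j k ∉ E.image j := by
      intro h
      obtain ⟨l, hl, hlk⟩ := mem_image.mp h
      rw [hj hlk] at hl
      exact hk hl
    rw [image_insert, Pr_insert h1, Pr_insert hk, ← ih, ← ih]
    congr 2
    · congr 1
      ext S
      simp only [Set.mem_ofPred_eq]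
      have : j ⁻¹' insert (j k) S = insert k (j ⁻¹' S) := by
        ext l
        simp only [Set.mem_preimage, Set.mem_insert_iff, hj.eq_iff]
      rw [this]
    · congr 1
      ext S
      simp only [Set.mem_ofPred_eq]
      have : j ⁻¹' (S \ {j k}) = (j ⁻¹' S) \ {k} := by
        ext l
        simp only [Set.mem_preimage, Set.mem_sdiff, Set.mem_singleton_iff, hj.eq_iff]
      rw [this]

lemma Pr_map {ι κ : Type*} [hdec : DecidableEq ι] (w : ι → ℝ) (j : κ → ι) (hj : Function.Injective j)
    (E : Finset κ) (A : Set (Set κ)) :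
    Pr w (E.image j) {ω | j ⁻¹' ω ∈ A} = Pr (fun k => w (j k)) E A := by
  have hi : hdec = fun a b => Classical.propDecidable (a = b) := Subsingleton.elim _ _
  subst hi
  exact Pr_map' w j hj E A

/-- base coordinates -/
def bc (e : Ed d) : Co d := (e, none)

/-- label coordinates -/
def lc (z : ℤ × ℤ) (b : Bool) (e : Ed d) : Co d := (e, some (z, b))

lemma bc_inj : Function.Injective (bc (d := d)) := fun _ _ h => (Prod.mk.inj h).1

lemma lc_inj (z : ℤ × ℤ) (b : Bool) : Function.Injective (lc (d := d) z b) :=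
  fun _ _ h => (Prod.mk.inj h).1

lemma det_bs {E : Finset (Ed d)} {A : Set (Set (Ed d))} (hA : Det E A) :
    Det (E.image bc) {ω : Set (Co d) | bs ω ∈ A} := by
  intro ω ω' h h1
  refine hA (bs ω) (bs ω') ?_ h1
  intro e he
  exact h (bc e) (mem_image_of_mem _ he)

lemma Pr_bs {p : I} {δ : ℝ} {E : Finset (Ed d)} (hE : Lat E) {A : Set (Set (Ed d))} (hA : Det E A)
    {U : Finset (Co d)} (hU : E.image bc ⊆ U) :
    Pr (cw p δ) U {ω : Set (Co d) | bs ω ∈ A} = (perc p).real A := by
  rw [Pr_extend hU (det_bs hA), perc_det p hE hA]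
  have h1 := Pr_map (cw (d := d) p δ) bc bc_inj E A
  have h2 : {ω : Set (Co d) | bs ω ∈ A} = {ω | bc ⁻¹' ω ∈ A} := rfl
  rw [h2, h1]
  apply Pr_congr_w
  intro e _
  simp [cw, bc]

/-! ### the seeds -/

/-- the vertices of the face of the box around `c` which are connected to the small box -/
noncomputable def hitsC (c : V d) (m n : ℕ) (i : Fin d) (τ : Fin d → ℤˣ) (S : Set (Ed d)) :
    Finset (V d) :=
  (Fc c i τ n).filter fun y => ∃ x ∈ Lam c m, Cn S (Lam c n : Set (V d)) x y

lemma hitsC_congr {c : V d} {m n : ℕ} {i : Fin d} {τ : Fin d → ℤˣ} {S S' : Set (Ed d)}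
    (h : ∀ e ∈ Ein (Lam c n), (e ∈ S ↔ e ∈ S')) : hitsC c m n i τ S = hitsC c m n i τ S' := by
  unfold hitsC Cn
  rw [res_congr_Ein h]

lemma hitsC_det (c : V d) (m n t : ℕ) (i : Fin d) (τ : Fin d → ℤˣ) :
    Det (Ein (Lam c n)) {S : Set (Ed d) | t ≤ (hitsC c m n i τ S).card} := by
  apply det_of
  intro S S' h
  simp only [Set.mem_ofPred_eq, hitsC_congr h]

lemma hitsC_shift (c : V d) (m n t : ℕ) (i : Fin d) (τ : Fin d → ℤˣ) (p : I) :
    (perc p).real {S : Set (Ed d) | t ≤ (hitsC c m n i τ S).card} =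
      (perc p).real {S : Set (Ed d) | t ≤ (hits m n i τ S).card} := by
  rw [← perc_pull (isAuto_transE c) p (hits_loc m n t i τ).meas]
  congr 1
  ext S
  simp only [Set.mem_ofPred_eq, Set.mem_preimage]
  have hdst : ∀ x : V d, dst (transE c x) c = dst x 0 := by
    intro x
    unfold dst
    congr 1
    ext j
    rw [transE_apply, Pi.add_apply, Pi.zero_apply, sub_zero, add_sub_cancel_right]
  have himg : ∀ k, transE c '' (Lam (0 : V d) k : Set (V d)) = (Lam c k : Set (V d)) := by
    intro k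
    ext y
    rw [Set.mem_image]
    constructor
    · rintro ⟨x, hx, rfl⟩
      rw [Finset.mem_coe, mem_Lam] at hx ⊢
      rw [hdst]
      exact hx
    · intro hy
      refine ⟨(transE c).symm y, ?_, (transE c).apply_symm_apply y⟩
      rw [Finset.mem_coe, mem_Lam] at hy ⊢
      rw [← hdst, (transE c).apply_symm_apply]
      exact hy
  have hFc : ∀ x : V d, transE c x ∈ Fc c i τ n ↔ x ∈ Fc 0 i τ n := by
    intro x
    rw [Fc, Fc, mem_filter, mem_filter, mem_Lam, mem_Lam, hdst]
    simp only [transE_apply, Pi.add_apply, add_sub_cancel_right, Pi.zero_apply, sub_zero]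
  have hcard : hitsC c m n i τ S = (hits m n i τ (pull (transE c) S)).map (transE c).toEmbedding := by
    ext y
    rw [mem_map]
    simp only [Equiv.coe_toEmbedding, hits, hitsC, mem_filter]
    constructor
    · rintro ⟨h1, x, hx, h2⟩
      refine ⟨(transE c).symm y, ⟨?_, (transE c).symm x, ?_, ?_⟩, (transE c).apply_symm_apply y⟩
      · rw [← hFc, (transE c).apply_symm_apply]
        exact h1
      · rw [mem_Lam, ← hdst, (transE c).apply_symm_apply]
        exact mem_Lam.mp hx
      · rw [pull_Cn (isAuto_transE c), himg, (transE c).apply_symm_apply,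
          (transE c).apply_symm_apply]
        exact h2
    · rintro ⟨z, ⟨h1, x, hx, h2⟩, rfl⟩
      refine ⟨(hFc z).mpr h1, transE c x, ?_, ?_⟩
      · rw [mem_Lam, hdst]
        exact mem_Lam.mp hx
      · rw [pull_Cn (isAuto_transE c), himg] at h2
        exact h2
  rw [hcard, card_map]

/-- a vertex of the face connected to the small box has an open seed -/
def SG (c : V d) (z : ℤ × ℤ) (i : Fin d) (τ : Fin d → ℤˣ) (m n : ℕ) : Set (Set (Co d)) :=
  {ω | ∃ x ∈ Fc c i τ n, (∃ y ∈ Lam c m, Cn (bs ω) (Lam c n : Set (V d)) y x) ∧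
    ∀ e ∈ seedE x i (τ i) m, e ∈ lb ω z true}

/-- the coordinates used by the seed event -/
noncomputable def coS (c : V d) (z : ℤ × ℤ) (i : Fin d) (τ : Fin d → ℤˣ) (m n : ℕ) :
    Finset (Co d) :=
  (Fc c i τ n).biUnion fun x => (seedE x i (τ i) m).image (lc z true)

/-- **Seeds.** -/
theorem seed_prob (hd : 0 < d) {p : I} (hp : criticalProbability d < p) (hp1 : (p : ℝ) < 1)
    {δ : ℝ} (hδ : 0 < δ) (hδ1 : δ ≤ 1) {η : ℝ} (hη : 0 < η) :
    ∃ m n, m ≤ n ∧ ∀ c z i τ (U : Finset (Co d)), (Ein (Lam c n)).image bc ⊆ U →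
      coS c z i τ m n ⊆ U → 1 - η ≤ Pr (cw p δ) U (SG c z i τ m n) := by
  obtain ⟨m, hm⟩ := face_prob hd hp hp1 (half_pos hη)
  have hm := hm m le_rfl
  -- number of points
  set c0 := δ ^ sM d m with hc0
  have hc0pos : 0 < c0 := by positivity
  have hc01 : c0 ≤ 1 := pow_le_one₀ hδ.le hδ1
  obtain ⟨t', ht'⟩ := exists_pow_lt_of_lt_one (half_pos hη) (show 1 - c0 < 1 by linarith)
  obtain ⟨n, hmn, hn⟩ := hm (t' * (2 * (4 * m + 2) + 1) ^ d)
  refine ⟨m, n, hmn, ?_⟩
  intro c z i τ U hU1 hU2
  have hw : Wt (cw (d := d) p δ) := wt_cw p.2.1 p.2.2 hδ.le hδ1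
  set t := t' * (2 * (4 * m + 2) + 1) ^ d with ht
  have h1 : 1 - η / 2 ≤ Pr (cw (d := d) p δ) U {ω | t ≤ (hitsC c m n i τ (bs ω)).card} := by
    have e1 := Pr_bs (p := p) (δ := δ) (lat_Ein _) (hitsC_det c m n t i τ) hU1
    have e2 : {ω : Set (Co d) | bs ω ∈ {S : Set (Ed d) | t ≤ (hitsC c m n i τ S).card}} =
        {ω | t ≤ (hitsC c m n i τ (bs ω)).card} := rfl
    rw [← e2, e1, hitsC_shift]
    exact hn n le_rfl i τ
  -- no seed
  have h2 : Pr (cw (d := d) p δ) U ({ω | t ≤ (hitsC c m n i τ (bs ω)).card} ∩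
      {ω | ω ∈ (fun Y : Finset (V d) => {ω : Set (Co d) | ∀ x ∈ Y, ¬ ∀ e ∈ (seedE x i (τ i) m).image (lc z true), e ∈ ω})
        (hitsC c m n i τ (bs ω))}) ≤ η / 2 * Pr (cw (d := d) p δ) U {ω | t ≤ (hitsC c m n i τ (bs ω)).card} := by
    refine Pr_cond_le (κ := Finset (V d)) hw hU1 (fun ω => hitsC c m n i τ (bs ω))
      ((Fc c i τ n).powerset.filter fun Y => t ≤ Y.card)
      {ω | t ≤ (hitsC c m n i τ (bs ω)).card} ?_ ?_
      (fun Y : Finset (V d) => {ω : Set (Co d) | ∀ x ∈ Y, ¬ ∀ e ∈
        (seedE x i (τ i) m).image (lc z true), e ∈ ω})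
      (fun Y => Y.biUnion fun x => (seedE x i (τ i) m).image (lc z true)) ?_ ?_ ?_
    · intro ω _ h
      rw [mem_filter, mem_powerset]
      exact ⟨filter_subset _ _, h⟩
    · intro Y _
      apply det_of
      intro ω ω' h
      have : hitsC c m n i τ (bs ω) = hitsC c m n i τ (bs ω') := by
        apply hitsC_congr
        intro e he
        exact h (bc e) (mem_image_of_mem _ he)
      simp only [Set.mem_inter_iff, Set.mem_ofPred_eq, this]
    · intro Y hY
      rw [mem_filter, mem_powerset] at hY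
      constructor
      · refine subset_trans ?_ hU2
        exact biUnion_subset_biUnion_of_subset_left _ hY.1
      · rw [Finset.disjoint_left]
        intro q hq hq'
        obtain ⟨e, _, rfl⟩ := mem_image.mp hq
        obtain ⟨x, _, hx⟩ := mem_biUnion.mp hq'
        obtain ⟨f, _, hf⟩ := mem_image.mp hx
        simp [lc, bc] at hf
    · intro Y _
      apply det_of
      intro ω ω' h
      refine forall₂_congr fun x hx => not_congr (forall₂_congr fun e he => ?_)
      exact h e (mem_biUnion.mpr ⟨x, hx, he⟩)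
    · intro Y hY
      rw [mem_filter, mem_powerset] at hY
      obtain ⟨Y', hY', hsep, hcard⟩ := exists_sep Y (4 * m + 2)
      have h3 : t' ≤ Y'.card := by
        have h4 : t' * (2 * (4 * m + 2) + 1) ^ d ≤ Y'.card * (2 * (4 * m + 2) + 1) ^ d :=
          hY.2.trans hcard
        exact Nat.le_of_mul_le_mul_right h4 (by positivity)
      refine le_trans (Pr_mono hw (B := {ω : Set (Co d) | ∀ x ∈ Y', ¬ ∀ e ∈
        (seedE x i (τ i) m).image (lc z true), e ∈ ω}) ?_) ?_
      · intro ω hω x hx
        exact hω x (hY' hx)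
      · refine (Pr_no_group hw Y' (fun x => (seedE x i (τ i) m).image (lc z true)) ?_ ?_ (c := c0)
          ?_ hc01).trans ?_
        · intro x hx
          refine subset_trans ?_ hU2
          exact subset_biUnion_of_mem (fun x => (seedE x i (τ i) m).image (lc z true))
            (hY.1 (hY' hx))
        · intro x hx y hy hxy
          rw [Finset.disjoint_image (lc_inj z true)]
          exact seedE_disjoint (hsep x hx y hy hxy)
        · intro x _
          rw [prod_image (fun a _ b _ h => lc_inj z true h)]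
          have h5 : ∀ e ∈ seedE x i (τ i) m, cw (d := d) p δ (lc z true e) = δ := by
            intro e _
            simp [cw, lc]
          rw [prod_congr rfl h5, prod_const]
          exact pow_le_pow_of_le_one hδ.le hδ1 (card_seedE x i (τ i) m)
        · exact (pow_le_pow_of_le_one (by linarith) (by linarith) h3).trans ht'.le
  have h3 : (SG c z i τ m n)ᶜ ⊆ {ω | t ≤ (hitsC c m n i τ (bs ω)).card}ᶜ ∪
      ({ω | t ≤ (hitsC c m n i τ (bs ω)).card} ∩
      {ω | ω ∈ (fun Y : Finset (V d) => {ω : Set (Co d) | ∀ x ∈ Y, ¬ ∀ e ∈ (seedE x i (τ i) m).image (lc z true), e ∈ ω})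
        (hitsC c m n i τ (bs ω))}) := by
    intro ω hω
    by_cases h : t ≤ (hitsC c m n i τ (bs ω)).card
    · right
      refine ⟨h, ?_⟩
      intro x hx hcon
      apply hω
      rw [hitsC, mem_filter] at hx
      refine ⟨x, hx.1, hx.2, ?_⟩
      intro e he
      exact hcon (lc z true e) (mem_image_of_mem _ he)
    · exact Or.inl h
  have h4 := Pr_mono hw (E := U) h3
  have h5 := Pr_union_le hw U {ω | t ≤ (hitsC c m n i τ (bs ω)).card}ᶜ
      ({ω | t ≤ (hitsC c m n i τ (bs ω)).card} ∩
      {ω | ω ∈ (fun Y : Finset (V d) => {ω : Set (Co d) | ∀ x ∈ Y, ¬ ∀ e ∈ (seedE x i (τ i) m).image (lc z true), e ∈ ω})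
        (hitsC c m n i τ (bs ω))})
  rw [Pr_compl] at h4 h5
  have h6 := Pr_le_one hw U {ω | t ≤ (hitsC c m n i τ (bs ω)).card}
  have h7 : η / 2 * Pr (cw (d := d) p δ) U {ω | t ≤ (hitsC c m n i τ (bs ω)).card} ≤ η / 2 := by
    nlinarith
  linarith

end

end Pool.Agent.Lib.MP_566bac_pr.Zd
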