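import Pool.Agent.Lib.MP_566bac_pr.Zd.Slab

/-!
# Connections in shells
-/

open MeasureTheory ProbabilityTheory Finset unitInterval SimpleGraph
open scoped ENNReal

namespace Pool.Agent.Lib.MP_566bac_pr.Zd

variable {d : ℕ}

section
open Classical

/-- the conclusion of the theorem about slabs -/
def SlabC (d : ℕ) (p : I) (h : ℕ) (δ : ℝ) : Prop :=
  ∀ {i1 i2 : Fin d}, i1 ≠ i2 → ∀ (K : ℕ) (lo : V d)
      (W : Finset (V d)),
      (∀ x : V d, (∀ j, lo j ≤ x j ∧
        x j ≤ lo j + (if j = i1 ∨ j = i2 then (3 ^ K + 3) * (h : ℤ) else 4 * h)) → x ∈ W) →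
      ∀ x y : V d, (∀ j, lo j ≤ x j ∧
        x j ≤ lo j + (if j = i1 ∨ j = i2 then (3 ^ K + 3) * (h : ℤ) else 4 * h)) →
      (∀ j, lo j ≤ y j ∧
        y j ≤ lo j + (if j = i1 ∨ j = i2 then (3 ^ K + 3) * (h : ℤ) else 4 * h)) →
      δ ≤ (perc p).real {S | Cn S (W : Set (V d)) x y}

/-- a shell -/
noncomputable def Shl (d r R : ℕ) : Finset (V d) := Lam 0 R \ Lam 0 r

lemma mem_Shl {r R : ℕ} {x : V d} :
    x ∈ Shl d r R ↔ (∀ i, -(R : ℤ) ≤ x i ∧ x i ≤ R) ∧ ∃ i, (r : ℤ) < |x i| := by
  rw [Shl, mem_sdiff, mem_Lam', mem_Lam, dst_le]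
  simp only [Pi.zero_apply, zero_sub, zero_add, sub_zero, not_forall, not_le]

/-- the assumptions on the scales -/
structure Sc (h K r R : ℕ) : Prop where
  hR : R = r + 4 * h + 1
  h1 : (R : ℤ) ≤ (3 ^ K + 3) * h
  h2 : (3 ^ K + 3) * (h : ℤ) ≤ 2 * R

lemma hop (hd : 3 ≤ d) {p : I} {h : ℕ} {δ : ℝ} (hs : SlabC d p h δ) {K r R : ℕ}
    (hsc : Sc h K r R) {v : V d} {i a : Fin d} (hai : a ≠ i) (hv : v ∈ Shl d r R)
    (hvi : (r : ℤ) < |v i|) {t : ℤ} (ht1 : -(R : ℤ) ≤ t) (ht2 : t ≤ R)
    (hst : (0 ≤ v a ∧ 0 ≤ t) ∨ (v a ≤ 0 ∧ t ≤ 0)) :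
    δ ≤ (perc p).real {S | Cn S (Shl d r R : Set (V d)) v (Function.update v a t)} := by
  obtain ⟨b, hbi, hba⟩ : ∃ b : Fin d, b ≠ i ∧ b ≠ a := by
    have h1 : ({i, a} : Finset (Fin d)).card < (univ : Finset (Fin d)).card := by
      rw [card_univ, Fintype.card_fin]
      exact lt_of_le_of_lt card_le_two (by omega)
    obtain ⟨b, _, hb⟩ := exists_mem_notMem_of_card_lt_card h1
    simp only [mem_insert, mem_singleton, not_or] at hb
    exact ⟨b, hb.1, hb.2⟩
  obtain ⟨hR, hK1, hK2⟩ := hsc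
  rw [mem_Shl] at hv
  obtain ⟨hvR, -⟩ := hv
  have hRZ : (R : ℤ) = r + 4 * h + 1 := by exact_mod_cast hR
  generalize hℓ : (3 ^ K + 3) * (h : ℤ) = ℓ at hK1 hK2
  set lo : V d := fun j =>
    if j = a then (if 0 ≤ v a ∧ 0 ≤ t then (R : ℤ) - ℓ else -R)
    else if j = b then (if 0 ≤ v b then (R : ℤ) - ℓ else -R)
    else if j = i then (if 0 < v i then (r : ℤ) + 1 else -R)
    else min (v j) (R - 4 * h) with hlo
  refine hs (Ne.symm hba) K lo (Shl d r R) ?_ v (Function.update v a t) ?_ ?_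
  · intro x hx
    rw [hℓ] at hx
    rw [mem_Shl]
    constructor
    · intro j
      have hxj := hx j
      have hvj := hvR j
      simp only [hlo] at hxj
      by_cases hja : j = a
      · subst hja
        simp only [if_true, true_or] at hxj
        split_ifs at hxj <;> omega
      · by_cases hjb : j = b
        · subst hjb
          simp only [if_neg hja, if_true, or_true] at hxj
          split_ifs at hxj <;> omega
        · by_cases hji : j = i
          · subst hji
            simp only [if_neg hja, if_neg hjb, if_true, hja, hjb, or_self, if_false] at hxj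
            split_ifs at hxj <;> omega
          · simp only [if_neg hja, if_neg hjb, if_neg hji, hja, hjb, or_self, if_false] at hxj
            omega
    · refine ⟨i, ?_⟩
      have hxj := hx i
      simp only [hlo] at hxj
      simp only [if_neg hai.symm, if_neg hbi.symm, if_true, hai.symm, hbi.symm, or_self,
        if_false] at hxj
      rw [lt_abs]
      split_ifs at hxj <;> omega
  · intro j
    rw [hℓ]
    have hvj := hvR j
    simp only [hlo]
    by_cases hja : j = a
    · subst hja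
      simp only [if_true, true_or]
      split_ifs <;> omega
    · by_cases hjb : j = b
      · subst hjb
        simp only [if_neg hja, if_true, or_true]
        split_ifs <;> omega
      · by_cases hji : j = i
        · subst hji
          simp only [if_neg hja, if_neg hjb, if_true, hja, hjb, or_self, if_false]
          rw [lt_abs] at hvi
          split_ifs <;> omega
        · simp only [if_neg hja, if_neg hjb, if_neg hji, hja, hjb, or_self, if_false]
          omega
  · intro j
    rw [hℓ]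
    have hvj := hvR j
    simp only [hlo]
    by_cases hja : j = a
    · subst hja
      rw [Function.update_self]
      simp only [if_true, true_or]
      split_ifs <;> omega
    · rw [Function.update_of_ne hja]
      by_cases hjb : j = b
      · subst hjb
        simp only [if_neg hja, if_true, or_true]
        split_ifs <;> omega
      · by_cases hji : j = i
        · subst hji
          simp only [if_neg hja, if_neg hjb, if_true, hja, hjb, or_self, if_false]
          rw [lt_abs] at hvi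
          split_ifs <;> omega
        · simp only [if_neg hja, if_neg hjb, if_neg hji, hja, hjb, or_self, if_false]
          omega

lemma perc_trans (p : I) (W : Finset (V d)) (x y z : V d) :
    (perc p).real {S | Cn S (W : Set (V d)) x y} * (perc p).real {S | Cn S (W : Set (V d)) y z} ≤
      (perc p).real {S | Cn S (W : Set (V d)) x z} := by
  refine (perc_fkg p ⟨_, lat_Ein W, det_Cn W x y⟩ ⟨_, lat_Ein W, det_Cn W y z⟩ (inc_Cn _ x y)
    (inc_Cn _ y z)).trans (perc_mono p ?_)
  rintro S ⟨h1, h2⟩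
  exact h1.trans h2

lemma update_Shl {r R : ℕ} {v : V d} {i a : Fin d} (hai : a ≠ i) (hv : v ∈ Shl d r R)
    (hvi : (r : ℤ) < |v i|) {t : ℤ} (ht1 : -(R : ℤ) ≤ t) (ht2 : t ≤ R) :
    Function.update v a t ∈ Shl d r R := by
  rw [mem_Shl] at hv ⊢
  constructor
  · intro j
    by_cases hja : j = a
    · subst hja
      rw [Function.update_self]
      exact ⟨ht1, ht2⟩
    · rw [Function.update_of_ne hja]
      exact hv.1 j
  · exact ⟨i, by rw [Function.update_of_ne hai.symm]; exact hvi⟩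

/-- two hops: a coordinate is moved to `R` -/
lemma move (hd : 3 ≤ d) {p : I} {h : ℕ} {δ : ℝ} (hδ : 0 < δ) (hs : SlabC d p h δ) {K r R : ℕ}
    (hsc : Sc h K r R) {v : V d} {i a : Fin d} (hai : a ≠ i) (hv : v ∈ Shl d r R)
    (hvi : (r : ℤ) < |v i|) :
    δ ^ 2 ≤ (perc p).real {S | Cn S (Shl d r R : Set (V d)) v (Function.update v a R)} := by
  have h1 := hop hd hs hsc hai hv hvi (t := 0) (by omega) (by omega)
    (by rcases le_total 0 (v a) with h | h
        · exact Or.inl ⟨h, le_rfl⟩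
        · exact Or.inr ⟨h, le_rfl⟩)
  have hv' := update_Shl hai hv hvi (t := 0) (by omega) (by omega)
  have h2 := hop hd hs hsc hai hv' (by rw [Function.update_of_ne hai.symm]; exact hvi)
    (t := R) (by omega) le_rfl (by
      rw [Function.update_self]
      exact Or.inl ⟨le_rfl, by omega⟩)
  rw [Function.update_idem] at h2
  rw [sq]
  exact (mul_le_mul h1 h2 hδ.le measureReal_nonneg).trans (perc_trans p _ _ _ _)

lemma corner (hd : 3 ≤ d) {p : I} {h : ℕ} {δ : ℝ} (hδ : 0 < δ) (hδ1 : δ ≤ 1)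
    (hs : SlabC d p h δ) {K r R : ℕ} (hsc : Sc h K r R) :
    ∀ (n : ℕ) (v : V d), v ∈ Shl d r R → (univ.filter fun j => v j ≠ R).card ≤ n →
      (δ ^ 2) ^ n ≤ (perc p).real {S | Cn S (Shl d r R : Set (V d)) v fun _ => R} := by
  intro n
  induction n with
  | zero =>
    intro v hv hn
    have h1 : v = fun _ => (R : ℤ) := by
      ext j
      by_contra hj
      have : j ∈ univ.filter fun j => v j ≠ R := mem_filter.mpr ⟨mem_univ _, hj⟩
      rw [card_eq_zero.mp (Nat.le_zero.mp hn)] at this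
      exact notMem_empty _ this
    rw [← h1, pow_zero]
    have h2 : {S : Set (Ed d) | Cn S (Shl d r R : Set (V d)) v v} = Set.univ := by
      ext S
      simp only [Set.mem_ofPred_eq, Set.mem_univ, iff_true]
      exact Cn.refl _ _ _
    rw [h2, probReal_univ]
  | succ n ih =>
    intro v hv hn
    by_cases h0 : (univ.filter fun j => v j ≠ R).card ≤ n
    · refine le_trans ?_ (ih v hv h0)
      rw [pow_succ]
      exact mul_le_of_le_one_right (by positivity) (by nlinarith)
    -- a coordinate to be moved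
    have hR := hsc.hR
    obtain ⟨i, a, hai, hvi, hva⟩ : ∃ i a, a ≠ i ∧ (r : ℤ) < |v i| ∧ v a ≠ R := by
      obtain ⟨i, hi⟩ := (mem_Shl.mp hv).2
      by_cases h1 : ∃ a, a ≠ i ∧ v a ≠ R
      · obtain ⟨a, h2, h3⟩ := h1
        exact ⟨i, a, h2, hi, h3⟩
      · push Not at h1
        obtain ⟨b, hb⟩ : ∃ b : Fin d, b ≠ i := by
          have h1 : ({i} : Finset (Fin d)).card < (univ : Finset (Fin d)).card := by
            rw [card_univ, Fintype.card_fin, card_singleton]
            omega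
          obtain ⟨b, _, hb⟩ := exists_mem_notMem_of_card_lt_card h1
          exact ⟨b, by simpa using hb⟩
        refine ⟨b, i, hb.symm, ?_, ?_⟩
        · rw [h1 b hb, Nat.abs_cast]
          omega
        · intro h2
          apply h0
          have h3 : (univ.filter fun j => v j ≠ R) = ∅ := by
            rw [filter_eq_empty_iff]
            intro j _
            rw [not_not]
            by_cases hj : j = i
            · rw [hj]; exact h2
            · exact h1 j hj
          rw [h3]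
          simp
    have h1 := move hd hδ hs hsc hai hv hvi
    have hv' := update_Shl hai hv hvi (t := R) (by omega) le_rfl
    have h2 := ih (Function.update v a R) hv' (by
      have h3 : (univ.filter fun j => Function.update v a (R : ℤ) j ≠ R) ⊆
          (univ.filter fun j => v j ≠ R).erase a := by
        intro j hj
        rw [mem_filter] at hj
        have hja : j ≠ a := by
          rintro rfl
          exact hj.2 (Function.update_self _ _ _)
        rw [mem_erase, mem_filter]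
        refine ⟨hja, mem_univ _, ?_⟩
        have := hj.2
        rwa [Function.update_of_ne hja] at this
      have h4 := card_le_card h3
      have h5 : a ∈ univ.filter fun j => v j ≠ R := mem_filter.mpr ⟨mem_univ _, hva⟩
      rw [card_erase_of_mem h5] at h4
      omega)
    rw [pow_succ']
    exact (mul_le_mul h1 h2 (by positivity) measureReal_nonneg).trans (perc_trans p _ _ _ _)

/-- **Connections in shells.** -/
theorem shell_conn (hd : 3 ≤ d) {p : I} {h : ℕ} {δ : ℝ} (hδ : 0 < δ) (hδ1 : δ ≤ 1)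
    (hs : SlabC d p h δ) {K r R : ℕ} (hsc : Sc h K r R) {u v : V d} (hu : u ∈ Shl d r R)
    (hv : v ∈ Shl d r R) :
    (δ ^ 2) ^ d * (δ ^ 2) ^ d ≤ (perc p).real {S | Cn S (Shl d r R : Set (V d)) u v} := by
  have hc : ∀ w : V d, (univ.filter fun j => w j ≠ R).card ≤ d := by
    intro w
    refine (card_filter_le _ _).trans ?_
    rw [card_univ, Fintype.card_fin]
  have h1 := corner hd hδ hδ1 hs hsc d u hu (hc u)
  have h2 := corner hd hδ hδ1 hs hsc d v hv (hc v)
  have h3 : (perc p).real {S | Cn S (Shl d r R : Set (V d)) v fun _ => (R : ℤ)} =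
      (perc p).real {S | Cn S (Shl d r R : Set (V d)) (fun _ => (R : ℤ)) v} := by
    congr 1
    ext S
    exact ⟨fun h => h.symm, fun h => h.symm⟩
  rw [h3] at h2
  exact (mul_le_mul h1 h2 (by positivity) measureReal_nonneg).trans (perc_trans p _ _ _ _)

/-! ### the recursion -/

/-- first exit from a box -/
def Exr (r : ℕ) (x : V d) (S : Set (Ed d)) (u : V d) : Prop :=
  u ∉ Lam (0 : V d) r ∧ ∃ w ∈ Lam (0 : V d) r, Cn S (Lam (0 : V d) r : Set (V d)) x w ∧
    (lattice d).Adj w u ∧ s(w, u) ∈ S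

/-- two clusters reach the outside, but are not connected -/
def BadE (r : ℕ) (x y : V d) : Set (Set (Ed d)) :=
  {S | (∃ u, Exr r x S u) ∧ (∃ u, Exr r y S u) ∧ ¬ Cn S (Lam (0 : V d) r : Set (V d)) x y}

lemma Exr_congr {r : ℕ} {x : V d} {S S' : Set (Ed d)} {U : Finset (Ed d)}
    (hU : ∀ w ∈ Lam (0 : V d) r, ∀ u, (lattice d).Adj w u → s(w, u) ∈ U)
    (h : ∀ e ∈ U, (e ∈ S ↔ e ∈ S')) : Exr r x S = Exr r x S' := by
  ext u
  unfold Exr
  refine and_congr_right fun _ => exists_congr fun w => and_congr_right fun hw => ?_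
  have h1 : Cn S (Lam (0 : V d) r : Set (V d)) x w ↔ Cn S' (Lam (0 : V d) r : Set (V d)) x w := by
    apply Cn_congr
    intro a ha b _ hab
    exact h _ (hU a (by exact_mod_cast ha) b hab)
  rw [h1]
  refine and_congr_right fun _ => and_congr_right fun hwu => ?_
  exact h _ (hU w hw u hwu)

lemma BadE_congr {r : ℕ} {x y : V d} {S S' : Set (Ed d)} {U : Finset (Ed d)}
    (hU : ∀ w ∈ Lam (0 : V d) r, ∀ u, (lattice d).Adj w u → s(w, u) ∈ U)
    (h : ∀ e ∈ U, (e ∈ S ↔ e ∈ S')) : S ∈ BadE r x y ↔ S' ∈ BadE r x y := by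
  unfold BadE
  simp only [Set.mem_ofPred_eq]
  rw [Exr_congr hU h, Exr_congr hU h, Cn_congr (S := S) (S' := S')]
  intro a ha b _ hab
  exact h _ (hU a (by exact_mod_cast ha) b hab)

lemma near {r : ℕ} {w u : V d} (hw : w ∈ Lam (0 : V d) r) (h : (lattice d).Adj w u) :
    u ∈ Lam (0 : V d) (r + 1) := by
  rw [mem_Lam] at hw ⊢
  have h1 := dst_tri u w 0
  have h2 := dst_adj h.symm
  omega

/-- exits exist -/
lemma exit_of {r R : ℕ} (hrR : r < R) {x : V d} (hx : x ∈ Lam (0 : V d) r) {S : Set (Ed d)}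
    {w : V d} (hw : R ≤ dst w 0) {W : Set (V d)} (hc : Cn S W x w) : ∃ u, Exr r x S u := by
  obtain ⟨u, v, h1, h2, h3, h4, h5, h6, h7⟩ := hc.exit (A := (Lam (0 : V d) r : Set (V d)))
    (by exact_mod_cast hx) (by
      rw [Finset.mem_coe, mem_Lam]
      omega)
  rw [Finset.mem_coe] at h1 h2
  exact ⟨v, h2, u, h1, h7.mono subset_rfl Set.inter_subset_right, h5, h6⟩

lemma BadE_step (hd : 3 ≤ d) {p : I} {h : ℕ} {δ : ℝ} (hδ : 0 < δ) (hδ1 : δ ≤ 1)
    (hs : SlabC d p h δ) {K r R : ℕ} (hsc : Sc h K r R) {x y : V d} (hx : x ∈ Lam (0 : V d) r)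
    (hy : y ∈ Lam (0 : V d) r) :
    (perc p).real (BadE R x y) ≤ (1 - (δ ^ 2) ^ d * (δ ^ 2) ^ d) * (perc p).real (BadE r x y) := by
  have hR := hsc.hR
  set U := Ein (Lam (0 : V d) (R + 1)) with hU
  set J := Ein (Shl d r R) with hJ
  set K' := U \ J with hK'
  have hUR : ∀ w ∈ Lam (0 : V d) R, ∀ u, (lattice d).Adj w u → s(w, u) ∈ U := by
    intro w hw u hwu
    exact mem_Ein.mpr ⟨Lam_mono 0 (by omega) hw, near hw hwu, hwu⟩
  have hUr : ∀ w ∈ Lam (0 : V d) r, ∀ u, (lattice d).Adj w u → s(w, u) ∈ U :=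
    fun w hw => hUR w (Lam_mono 0 (by omega) hw)
  have hKr : ∀ w ∈ Lam (0 : V d) r, ∀ u, (lattice d).Adj w u → s(w, u) ∈ K' := by
    intro w hw u hwu
    rw [hK', mem_sdiff]
    refine ⟨hUr w hw u hwu, ?_⟩
    intro hcon
    have := (mem_Ein.mp hcon).1
    rw [Shl, mem_sdiff] at this
    exact this.2 hw
  have hJU : J ⊆ U := Ein_mono (sdiff_subset.trans (Lam_mono 0 (by omega)))
  set f : Set (Ed d) → V d × V d := fun S =>
    (if hu : ∃ u, Exr r x S u then hu.choose else 0,
      if hu : ∃ u, Exr r y S u then hu.choose else 0) with hf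
  have hfK : ∀ S S' : Set (Ed d), (∀ e ∈ K', (e ∈ S ↔ e ∈ S')) → f S = f S' := by
    intro S S' h
    simp only [hf, Exr_congr hKr h]
  have hfU : ∀ S S' : Set (Ed d), (∀ e ∈ U, (e ∈ S ↔ e ∈ S')) → f S = f S' := by
    intro S S' h
    exact hfK S S' fun e he => h e (sdiff_subset he)
  set B : V d × V d → Set (Set (Ed d)) := fun q =>
    {S | Cn S (Shl d r R : Set (V d)) q.1 q.2}ᶜ with hB
  have hfS : ∀ S ∈ BadE r x y, Exr r x S (f S).1 ∧ Exr r y S (f S).2 := by
    rintro S ⟨h1, h2, h3⟩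
    simp only [hf, dif_pos h1, dif_pos h2]
    exact ⟨h1.choose_spec, h2.choose_spec⟩
  have hExShl : ∀ (z : V d) (S : Set (Ed d)) (u : V d), Exr r z S u → u ∈ Shl d r R := by
    rintro z S u ⟨h1, w, h2, h3, h4, h5⟩
    rw [Shl, mem_sdiff]
    exact ⟨Lam_mono 0 (by omega) (near h2 h4), h1⟩
  -- inclusion
  have hsub : BadE R x y ⊆ BadE r x y ∩ {S | S ∈ B (f S)} := by
    rintro S ⟨⟨u, h1, w, h2, h3, h4, h5⟩, ⟨u', h1', w', h2', h3', h4', h5'⟩, h6⟩
    have hfar : ∀ a b : V d, a ∉ Lam (0 : V d) R → (lattice d).Adj b a → R ≤ dst b 0 := by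
      intro a b ha hab
      rw [mem_Lam] at ha
      have h1 := dst_tri a b 0
      have h2 := dst_adj hab.symm
      omega
    have hmem : S ∈ BadE r x y := by
      refine ⟨exit_of (by omega) hx (hfar u w h1 h4) h3,
        exit_of (by omega) hy (hfar u' w' h1' h4') h3', ?_⟩
      intro hc
      exact h6 (hc.mono subset_rfl (by exact_mod_cast Lam_mono (0 : V d) (by omega : r ≤ R)))
    refine ⟨hmem, ?_⟩
    intro hc
    apply h6
    obtain ⟨⟨g1, w1, g2, g3, g4, g5⟩, ⟨g1', w1', g2', g3', g4', g5'⟩⟩ := hfS S hmem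
    have hsub1 : (Lam (0 : V d) r : Set (V d)) ⊆ (Lam (0 : V d) R : Set (V d)) := by
      exact_mod_cast Lam_mono (0 : V d) (by omega : r ≤ R)
    have hsub2 : (Shl d r R : Set (V d)) ⊆ (Lam (0 : V d) R : Set (V d)) := by
      exact_mod_cast (sdiff_subset : Shl d r R ⊆ Lam 0 R)
    have k1 : Cn S (Lam (0 : V d) R : Set (V d)) w1 (f S).1 :=
      Cn.step g4 g5 (hsub1 (by exact_mod_cast g2))
        (by exact_mod_cast Lam_mono 0 (by omega) (near g2 g4))
    have k2 : Cn S (Lam (0 : V d) R : Set (V d)) w1' (f S).2 :=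
      Cn.step g4' g5' (hsub1 (by exact_mod_cast g2'))
        (by exact_mod_cast Lam_mono 0 (by omega) (near g2' g4'))
    exact ((((g3.mono subset_rfl hsub1).trans k1).trans (hc.mono subset_rfl hsub2)).trans
      k2.symm).trans (g3'.mono subset_rfl hsub1).symm
  have hdet1 : Det U (BadE r x y) := by
    apply det_of
    intro S S' h
    exact BadE_congr hUr h
  have hdet2 : Det U (BadE r x y ∩ {S | S ∈ B (f S)}) := by
    apply det_inter hdet1
    apply det_of
    intro S S' h
    simp only [Set.mem_ofPred_eq, hB, Set.mem_compl_iff]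
    rw [hfU S S' h]
    apply not_congr
    apply Cn_congr
    intro a ha b hb hab
    exact h _ (hJU (mem_Ein.mpr ⟨by exact_mod_cast ha, by exact_mod_cast hb, hab⟩))
  refine (perc_mono p hsub).trans ?_
  rw [perc_det p (lat_Ein _) hdet2, perc_det p (lat_Ein _) hdet1]
  refine Pr_cond_le (κ := V d × V d) (wt_const p) (K := K') (U := U) sdiff_subset f
    (Shl d r R ×ˢ Shl d r R) (BadE r x y) ?_ ?_ B (fun _ => J) ?_ ?_ ?_
  · intro ω _ hω
    obtain ⟨g1, g2⟩ := hfS _ hω
    exact mem_product.mpr ⟨hExShl _ _ _ g1, hExShl _ _ _ g2⟩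
  · intro k _
    apply det_of
    intro S S' h
    simp only [Set.mem_inter_iff, Set.mem_ofPred_eq]
    rw [BadE_congr hKr h, hfK S S' h]
  · intro k _
    exact ⟨hJU, sdiff_disjoint⟩
  · intro k _
    exact det_compl (det_Cn (Shl d r R) k.1 k.2)
  · intro k hk
    rw [mem_product] at hk
    have h1 := shell_conn hd hδ hδ1 hs hsc hk.1 hk.2
    have h2 : Pr (fun _ => (p : ℝ)) U (B k) =
        (perc p).real {S | Cn S (Shl d r R : Set (V d)) k.1 k.2}ᶜ :=
      (perc_det p (lat_Ein _) (det_mono hJU (det_compl (det_Cn (Shl d r R) k.1 k.2)))).symm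
    rw [h2, probReal_compl_eq_one_sub (det_measurable (det_Cn (Shl d r R) k.1 k.2))]
    linarith

/-- **The probability that two clusters are not connected.** -/
theorem BadE_prob (hd : 3 ≤ d) {p : I} {h : ℕ} {δ : ℝ} (hδ : 0 < δ) (hδ1 : δ ≤ 1)
    (hs : SlabC d p h δ) {K n : ℕ} (hn : 4 * (n : ℤ) = (3 ^ K + 3) * h) {x y : V d}
    (hx : x ∈ Lam (0 : V d) (2 * n)) (hy : y ∈ Lam (0 : V d) (2 * n)) :
    ∀ J : ℕ, 2 * n + J * (4 * h + 1) ≤ 4 * n →
      (perc p).real (BadE (2 * n + J * (4 * h + 1)) x y) ≤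
        (1 - (δ ^ 2) ^ d * (δ ^ 2) ^ d) ^ J := by
  have hθ : 0 ≤ 1 - (δ ^ 2) ^ d * (δ ^ 2) ^ d := by
    have h1 : δ ^ 2 ≤ 1 := pow_le_one₀ hδ.le hδ1
    have h2 : (δ ^ 2) ^ d ≤ 1 := pow_le_one₀ (by positivity) h1
    have h3 : 0 ≤ (δ ^ 2) ^ d := by positivity
    nlinarith
  intro J
  induction J with
  | zero =>
    intro _
    rw [pow_zero]
    exact measureReal_le_one
  | succ J ih =>
    intro hJ
    have h1 := ih (by nlinarith)
    have hsc : Sc h K (2 * n + J * (4 * h + 1)) (2 * n + (J + 1) * (4 * h + 1)) := by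
      refine ⟨by ring, ?_, ?_⟩
      · rw [← hn]
        exact_mod_cast hJ
      · rw [← hn]
        push_cast
        nlinarith [mul_nonneg (show (0 : ℤ) ≤ (J : ℤ) + 1 by positivity)
          (show (0 : ℤ) ≤ 4 * (h : ℤ) + 1 by positivity)]
    have h2 := BadE_step hd hδ hδ1 hs hsc (Lam_mono 0 (by omega) hx) (Lam_mono 0 (by omega) hy)
    rw [pow_succ']
    exact h2.trans (mul_le_mul_of_nonneg_left h1 hθ)

end

end Pool.Agent.Lib.MP_566bac_pr.Zd
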