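import Pool.Agent.Lib.MP_566bac_pr.Zd.Expl

/-!
# Site percolation of high density on squares
-/

open Finset SimpleGraph

namespace Pool.Agent.Lib.MP_566bac_pr.Zd

section
open Classical

/-- the nine children of a box -/
def chi (w : ℤ × ℤ) (a : Fin 3 × Fin 3) : ℤ × ℤ :=
  (3 * w.1 + ((a.1 : ℕ) : ℤ), 3 * w.2 + ((a.2 : ℕ) : ℤ))

/-- a box is good if at most one child is bad -/
def Gd (ω : Set (ℤ × ℤ)) : ℕ → ℤ × ℤ → Prop
  | 0, w => w ∈ ω
  | k + 1, w => ∀ a b : Fin 3 × Fin 3, a ≠ b → Gd ω k (chi w a) ∨ Gd ω k (chi w b)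

/-- the core of a box -/
def Core (ω : Set (ℤ × ℤ)) : ℕ → ℤ × ℤ → Set (ℤ × ℤ)
  | 0, w => {w}
  | k + 1, w => {x | ∃ a : Fin 3 × Fin 3, Gd ω k (chi w a) ∧ x ∈ Core ω k (chi w a)}

/-- a `3 × 3` grid without one vertex is connected -/
lemma grid (P : Fin 3 × Fin 3 → Prop) (hP : ∀ a b, a ≠ b → P a ∨ P b)
    (T : Fin 3 × Fin 3 → Fin 3 × Fin 3 → Prop) (hs : ∀ a b, T a b → T b a)
    (ht : ∀ a b c, T a b → T b c → T a c) (hr : ∀ a, P a → T a a)
    (r01 : ∀ r, P (r, 0) → P (r, 1) → T (r, 0) (r, 1))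
    (r12 : ∀ r, P (r, 1) → P (r, 2) → T (r, 1) (r, 2))
    (c01 : ∀ c, P (0, c) → P (1, c) → T (0, c) (1, c))
    (c12 : ∀ c, P (1, c) → P (2, c) → T (1, c) (2, c)) {a b : Fin 3 × Fin 3} (ha : P a) (hb : P b) :
    T a b := by
  have hrow : ∀ r, (∀ c, P (r, c)) → ∀ c c', T (r, c) (r, c') := by
    intro r h c c'
    have h1 := r01 r (h 0) (h 1)
    have h2 := r12 r (h 1) (h 2)
    fin_cases c <;> fin_cases c'
    · exact hr _ (h 0)
    · exact h1
    · exact ht _ _ _ h1 h2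
    · exact hs _ _ h1
    · exact hr _ (h 1)
    · exact h2
    · exact hs _ _ (ht _ _ _ h1 h2)
    · exact hs _ _ h2
    · exact hr _ (h 2)
  have hcol : ∀ c, (∀ r, P (r, c)) → ∀ r r', T (r, c) (r', c) := by
    intro c h r r'
    have h1 := c01 c (h 0) (h 1)
    have h2 := c12 c (h 1) (h 2)
    fin_cases r <;> fin_cases r'
    · exact hr _ (h 0)
    · exact h1
    · exact ht _ _ _ h1 h2
    · exact hs _ _ h1
    · exact hr _ (h 1)
    · exact h2
    · exact hs _ _ (ht _ _ _ h1 h2)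
    · exact hs _ _ h2
    · exact hr _ (h 2)
  obtain ⟨ρ, hρ⟩ : ∃ ρ, ∀ c, P (ρ, c) := by
    by_contra hcon
    push Not at hcon
    obtain ⟨c, hc⟩ := hcon 0
    obtain ⟨c', hc'⟩ := hcon 1
    rcases hP (0, c) (1, c') (by simp) with h | h
    · exact hc h
    · exact hc' h
  obtain ⟨κ, hκ⟩ : ∃ κ, ∀ r, P (r, κ) := by
    by_contra hcon
    push Not at hcon
    obtain ⟨c, hc⟩ := hcon 0
    obtain ⟨c', hc'⟩ := hcon 1
    rcases hP (c, 0) (c', 1) (by simp) with h | h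
    · exact hc h
    · exact hc' h
  have key : ∀ a, P a → T a (ρ, κ) := by
    rintro ⟨r, c⟩ h
    by_cases h1 : ∀ c', P (r, c')
    · exact ht _ _ _ (hrow r h1 c κ) (hcol κ hκ r ρ)
    · push Not at h1
      obtain ⟨c0, h0⟩ := h1
      have h2 : ∀ r', P (r', c) := by
        intro r'
        rcases hP (r, c0) (r', c) (by
          rintro h3
          rw [Prod.mk.injEq] at h3
          rw [h3.2] at h0
          exact h0 h) with h3 | h3
        · exact absurd h3 h0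
        · exact h3
      exact ht _ _ _ (hcol c h2 r ρ) (hrow ρ hρ c κ)
  exact ht _ _ _ (key a ha) (hs _ _ (key b hb))

lemma L2_right (a b : ℤ) : L2.Adj (a, b) (a + 1, b) := by
  rw [Pool.Agent.Lib.MP_566bac_pr.lattice_adj_iff]
  exact Or.inl rfl

lemma L2_up (a b : ℤ) : L2.Adj (a, b) (a, b + 1) := by
  rw [Pool.Agent.Lib.MP_566bac_pr.lattice_adj_iff]
  exact Or.inr (Or.inr (Or.inl rfl))

lemma Gd_child {ω : Set (ℤ × ℤ)} {k : ℕ} {w : ℤ × ℤ} (h : Gd ω (k + 1) w) :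
    ∃ a, Gd ω k (chi w a) := by
  rcases h (0, 0) (0, 1) (by decide) with h1 | h1
  · exact ⟨_, h1⟩
  · exact ⟨_, h1⟩

lemma Core_nonempty {ω : Set (ℤ × ℤ)} : ∀ (k : ℕ) (w : ℤ × ℤ), Gd ω k w → (Core ω k w).Nonempty
  | 0, w, _ => ⟨w, rfl⟩
  | k + 1, w, h => by
    obtain ⟨a, ha⟩ := Gd_child h
    obtain ⟨x, hx⟩ := Core_nonempty k _ ha
    exact ⟨x, a, ha, hx⟩

/-- three pairs of children, of which at most two are spoiled -/
lemma three {P Q : Fin 3 → Prop} (hP : ∀ a b, a ≠ b → P a ∨ P b) (hQ : ∀ a b, a ≠ b → Q a ∨ Q b) :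
    ∃ a, P a ∧ Q a := by
  have h1 := hP 0 1 (by decide)
  have h2 := hP 0 2 (by decide)
  have h3 := hP 1 2 (by decide)
  have h4 := hQ 0 1 (by decide)
  have h5 := hQ 0 2 (by decide)
  have h6 := hQ 1 2 (by decide)
  by_contra hcon
  push Not at hcon
  have h7 := hcon 0
  have h8 := hcon 1
  have h9 := hcon 2
  tauto

/-- adjacent good boxes have adjacent cores -/
lemma Core_adj {ω : Set (ℤ × ℤ)} : ∀ (k : ℕ),
    (∀ a b : ℤ, Gd ω k (a, b) → Gd ω k (a + 1, b) →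
      ∃ x ∈ Core ω k (a, b), ∃ y ∈ Core ω k (a + 1, b), L2.Adj x y) ∧
    (∀ a b : ℤ, Gd ω k (a, b) → Gd ω k (a, b + 1) →
      ∃ x ∈ Core ω k (a, b), ∃ y ∈ Core ω k (a, b + 1), L2.Adj x y)
  | 0 => ⟨fun a b _ _ => ⟨_, rfl, _, rfl, L2_right a b⟩, fun a b _ _ => ⟨_, rfl, _, rfl, L2_up a b⟩⟩
  | k + 1 => by
    obtain ⟨ih1, ih2⟩ := Core_adj (ω := ω) k
    constructor
    · intro a b h1 h2
      obtain ⟨j, hj1, hj2⟩ := three (P := fun j => Gd ω k (chi (a, b) (2, j)))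
        (Q := fun j => Gd ω k (chi (a + 1, b) (0, j)))
        (fun i j hij => h1 _ _ (by simpa using hij)) (fun i j hij => h2 _ _ (by simpa using hij))
      have e1 : chi (a, b) (2, j) = (3 * a + 2, 3 * b + ((j : ℕ) : ℤ)) := rfl
      have e2 : chi (a + 1, b) (0, j) = ((3 * a + 2) + 1, 3 * b + ((j : ℕ) : ℤ)) := by
        simp only [chi, Prod.mk.injEq, and_true]
        have : (((0 : Fin 3) : ℕ) : ℤ) = 0 := rfl
        rw [this]
        ring
      have hj1' := hj1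
      have hj2' := hj2
      rw [e1] at hj1
      rw [e2] at hj2
      obtain ⟨x, hx, y, hy, hxy⟩ := ih1 _ _ hj1 hj2
      exact ⟨x, ⟨_, hj1', by rw [e1]; exact hx⟩, y, ⟨_, hj2', by rw [e2]; exact hy⟩, hxy⟩
    · intro a b h1 h2
      obtain ⟨j, hj1, hj2⟩ := three (P := fun j => Gd ω k (chi (a, b) (j, 2)))
        (Q := fun j => Gd ω k (chi (a, b + 1) (j, 0)))
        (fun i j hij => h1 _ _ (by simpa using hij)) (fun i j hij => h2 _ _ (by simpa using hij))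
      have e1 : chi (a, b) (j, 2) = (3 * a + ((j : ℕ) : ℤ), 3 * b + 2) := rfl
      have e2 : chi (a, b + 1) (j, 0) = (3 * a + ((j : ℕ) : ℤ), (3 * b + 2) + 1) := by
        simp only [chi, Prod.mk.injEq, true_and]
        have : (((0 : Fin 3) : ℕ) : ℤ) = 0 := rfl
        rw [this]
        ring
      have hj1' := hj1
      have hj2' := hj2
      rw [e1] at hj1
      rw [e2] at hj2
      obtain ⟨x, hx, y, hy, hxy⟩ := ih2 _ _ hj1 hj2
      exact ⟨x, ⟨_, hj1', by rw [e1]; exact hx⟩, y, ⟨_, hj2', by rw [e2]; exact hy⟩, hxy⟩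

/-- the core of a good box is connected -/
lemma Core_conn {ω : Set (ℤ × ℤ)} : ∀ (k : ℕ) (w : ℤ × ℤ), Gd ω k w →
    ∀ x ∈ Core ω k w, ∀ y ∈ Core ω k w, RS ω x y
  | 0, w, h => by
    rintro x rfl y rfl
    exact RS.refl h
  | k + 1, w, h => by
    rintro x ⟨a, ha, hx⟩ y ⟨b, hb, hy⟩
    have ih := Core_conn (ω := ω) k
    have hne : ∀ a : Fin 3 × Fin 3, Gd ω k (chi w a) → (Core ω k (chi w a)).Nonempty :=
      fun a ha => Core_nonempty k _ ha
    set rep : Fin 3 × Fin 3 → ℤ × ℤ := fun a =>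
      if ha : (Core ω k (chi w a)).Nonempty then ha.choose else 0 with hrep
    have hrepm : ∀ a : Fin 3 × Fin 3, Gd ω k (chi w a) → rep a ∈ Core ω k (chi w a) := by
      intro a ha
      rw [hrep]
      simp only [dif_pos (hne a ha)]
      exact (hne a ha).choose_spec
    have link : ∀ a b : Fin 3 × Fin 3, Gd ω k (chi w a) → Gd ω k (chi w b) →
        (∃ x ∈ Core ω k (chi w a), ∃ y ∈ Core ω k (chi w b), L2.Adj x y) →
        RS ω (rep a) (rep b) := by
      rintro a b ha hb ⟨x, hx, y, hy, hxy⟩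
      have h1 := ih _ ha _ (hrepm a ha) x hx
      have h2 := ih _ hb y hy _ (hrepm b hb)
      exact (h1.trans (RS.step hxy h1.right h2.left)).trans h2
    obtain ⟨adj1, adj2⟩ := Core_adj (ω := ω) k
    have c1 : ∀ (r c : Fin 3) (r' : Fin 3), ((r' : ℕ) : ℤ) = ((r : ℕ) : ℤ) + 1 →
        Gd ω k (chi w (r, c)) → Gd ω k (chi w (r', c)) → RS ω (rep (r, c)) (rep (r', c)) := by
      intro r c r' hr h1 h2
      apply link _ _ h1 h2
      have e1 : chi w (r', c) = (3 * w.1 + ((r : ℕ) : ℤ) + 1, 3 * w.2 + ((c : ℕ) : ℤ)) := by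
        simp only [chi, Prod.mk.injEq, and_true]
        rw [hr]
        ring
      rw [e1] at h2 ⊢
      exact adj1 _ _ h1 h2
    have c2 : ∀ (r c : Fin 3) (c' : Fin 3), ((c' : ℕ) : ℤ) = ((c : ℕ) : ℤ) + 1 →
        Gd ω k (chi w (r, c)) → Gd ω k (chi w (r, c')) → RS ω (rep (r, c)) (rep (r, c')) := by
      intro r c c' hr h1 h2
      apply link _ _ h1 h2
      have e1 : chi w (r, c') = (3 * w.1 + ((r : ℕ) : ℤ), 3 * w.2 + ((c : ℕ) : ℤ) + 1) := by
        simp only [chi, Prod.mk.injEq, true_and]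
        rw [hr]
        ring
      rw [e1] at h2 ⊢
      exact adj2 _ _ h1 h2
    have hab : RS ω (rep a) (rep b) := by
      refine grid (fun a => Gd ω k (chi w a)) h (fun a b => RS ω (rep a) (rep b))
        (fun _ _ h => h.symm) (fun _ _ _ h1 h2 => h1.trans h2) ?_ ?_ ?_ ?_ ?_ ha hb
      · intro a ha
        exact ih _ ha _ (hrepm a ha) _ (hrepm a ha)
      · exact fun r h1 h2 => c2 r 0 1 (by norm_num) h1 h2
      · exact fun r h1 h2 => c2 r 1 2 (by norm_num) h1 h2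
      · exact fun c h1 h2 => c1 0 c 1 (by norm_num) h1 h2
      · exact fun c h1 h2 => c1 1 c 2 (by norm_num) h1 h2
    exact ((ih _ ha x hx _ (hrepm a ha)).trans hab).trans (ih _ hb _ (hrepm b hb) y hy)

/-- the ancestors of a site -/
def anc (k : ℕ) (z : ℤ × ℤ) : ℤ × ℤ := (z.1 / 3 ^ k, z.2 / 3 ^ k)

lemma anc_child (k : ℕ) (z : ℤ × ℤ) : ∃ a, chi (anc (k + 1) z) a = anc k z := by
  have key : ∀ t : ℤ, ∃ r : Fin 3, 3 * (t / 3 ^ (k + 1)) + ((r : ℕ) : ℤ) = t / 3 ^ k := by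
    intro t
    have h1 : t / 3 ^ (k + 1) = (t / 3 ^ k) / 3 := by
      rw [pow_succ, Int.ediv_ediv_of_nonneg (by positivity)]
    have h2 : 0 ≤ (t / 3 ^ k) % 3 := Int.emod_nonneg _ (by norm_num)
    have h3 : (t / 3 ^ k) % 3 < 3 := Int.emod_lt_of_pos _ (by norm_num)
    refine ⟨⟨((t / 3 ^ k) % 3).toNat, by omega⟩, ?_⟩
    rw [h1]
    simp only [Int.toNat_of_nonneg h2]
    omega
  obtain ⟨r, hr⟩ := key z.1
  obtain ⟨c, hc⟩ := key z.2
  exact ⟨(r, c), by simp only [chi, anc, hr, hc]⟩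

lemma mem_Core {ω : Set (ℤ × ℤ)} {z : ℤ × ℤ} : ∀ (k : ℕ), (∀ j ≤ k, Gd ω j (anc j z)) →
    z ∈ Core ω k (anc k z)
  | 0, _ => by simp [Core, anc]
  | k + 1, h => by
    obtain ⟨a, ha⟩ := anc_child k z
    refine ⟨a, ?_, ?_⟩
    · rw [ha]
      exact h k (by omega)
    · rw [ha]
      exact mem_Core k fun j hj => h j (by omega)

/-! ### probabilities -/

/-- the sites of a box -/
noncomputable def Bxk (k : ℕ) (w : ℤ × ℤ) : Finset (ℤ × ℤ) :=
  Finset.Ico (3 ^ k * w.1) (3 ^ k * (w.1 + 1)) ×ˢ Finset.Ico (3 ^ k * w.2) (3 ^ k * (w.2 + 1))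

lemma mem_Bxk {k : ℕ} {w z : ℤ × ℤ} : z ∈ Bxk k w ↔ anc k z = w := by
  have key : ∀ t u : ℤ, (3 ^ k * u ≤ t ∧ t < 3 ^ k * (u + 1)) ↔ t / 3 ^ k = u := by
    intro t u
    have hpos : (0 : ℤ) < 3 ^ k := by positivity
    constructor
    · rintro ⟨h1, h2⟩
      apply le_antisymm
      · have : t / 3 ^ k < u + 1 := Int.ediv_lt_of_lt_mul hpos (by linarith)
        omega
      · rw [Int.le_ediv_iff_mul_le hpos]
        linarith
    · rintro rfl
      have h1 := Int.mul_ediv_add_emod t (3 ^ k)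
      have h2 := Int.emod_nonneg t hpos.ne'
      have h3 := Int.emod_lt_of_pos t hpos
      constructor <;> nlinarith
  rw [Bxk, mem_product, Finset.mem_Ico, Finset.mem_Ico, key, key, anc]
  exact ⟨fun h => Prod.ext h.1 h.2, fun h => ⟨congrArg Prod.fst h, congrArg Prod.snd h⟩⟩

lemma chi_inj {w : ℤ × ℤ} {a b : Fin 3 × Fin 3} (h : chi w a = chi w b) : a = b := by
  simp only [chi, Prod.mk.injEq, add_right_inj, Nat.cast_inj, Fin.val_inj] at h
  exact Prod.ext h.1 h.2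

lemma anc_chi {k : ℕ} {z w : ℤ × ℤ} {a : Fin 3 × Fin 3} (h : anc k z = chi w a) :
    anc (k + 1) z = w := by
  have key : ∀ (t u : ℤ) (r : Fin 3), t / 3 ^ k = 3 * u + ((r : ℕ) : ℤ) → t / 3 ^ (k + 1) = u := by
    intro t u r hr
    have h1 : t / 3 ^ (k + 1) = (t / 3 ^ k) / 3 := by
      rw [pow_succ, Int.ediv_ediv_of_nonneg (by positivity)]
    have := r.2
    rw [h1, hr]
    omega
  simp only [anc, chi, Prod.mk.injEq] at h ⊢
  exact Prod.ext (key _ _ _ h.1) (key _ _ _ h.2)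

lemma Bxk_sub (k : ℕ) (w : ℤ × ℤ) (a : Fin 3 × Fin 3) : Bxk k (chi w a) ⊆ Bxk (k + 1) w := by
  intro z hz
  rw [mem_Bxk] at hz ⊢
  exact anc_chi hz

lemma Gd_det : ∀ (k : ℕ) (w : ℤ × ℤ), Det (Bxk k w) {ω | Gd ω k w}
  | 0, w => by
    intro ω ω' h h1
    refine (h w ?_).mp h1
    rw [mem_Bxk]
    simp [anc]
  | k + 1, w => by
    intro ω ω' h h1 a b hab
    have key : ∀ a, Gd ω k (chi w a) → Gd ω' k (chi w a) := by
      intro a ha
      exact Gd_det k (chi w a) ω ω' (fun e he => h e (Bxk_sub k w a he)) ha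
    exact (h1 a b hab).imp (key a) (key b)

/-- the density -/
noncomputable def gam : ℝ := 1 - 1 / 162

lemma wt_gam : Wt (fun _ : ℤ × ℤ => gam) := fun _ => by
  unfold gam
  constructor <;> norm_num

lemma bad_prob : ∀ (k : ℕ) (w : ℤ × ℤ) (E : Finset (ℤ × ℤ)), Bxk k w ⊆ E →
    Pr (fun _ => gam) E {ω | Gd ω k w}ᶜ ≤ 1 / (162 * 2 ^ k)
  | 0, w, E, hE => by
    have hwE : w ∈ E := hE (by rw [mem_Bxk]; simp [anc])
    have h1 : ({ω : Set (ℤ × ℤ) | Gd ω 0 w} : Set (Set (ℤ × ℤ))) = {ω | ∀ e ∈ ({w} : Finset (ℤ × ℤ)), e ∈ ω} := by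
      ext ω
      simp [Gd]
    rw [Pr_compl, h1, Pr_all _ (singleton_subset_iff.mpr hwE), prod_singleton]
    unfold gam
    norm_num
  | k + 1, w, E, hE => by
    set s : Finset ((Fin 3 × Fin 3) × (Fin 3 × Fin 3)) := univ.filter fun q => q.1 ≠ q.2 with hs
    set A : (Fin 3 × Fin 3) → Set (Set (ℤ × ℤ)) := fun a => {ω | Gd ω k (chi w a)}ᶜ with hA
    have h1 : ({ω : Set (ℤ × ℤ) | Gd ω (k + 1) w} : Set (Set (ℤ × ℤ)))ᶜ ⊆
        ⋃ q ∈ s, (A q.1 ∩ A q.2) := by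
      intro ω hω
      simp only [Set.mem_compl_iff, Set.mem_ofPred_eq, Gd, not_forall, not_or] at hω
      obtain ⟨a, b, hab, h2, h3⟩ := hω
      rw [Set.mem_iUnion₂]
      exact ⟨(a, b), by rw [hs, mem_filter]; exact ⟨mem_univ _, hab⟩, h2, h3⟩
    refine (Pr_mono wt_gam h1).trans ((Pr_biUnion_le wt_gam E s _).trans ?_)
    have h2 : ∀ q ∈ s, Pr (fun _ => gam) E (A q.1 ∩ A q.2) ≤ (1 / (162 * 2 ^ k)) ^ 2 := by
      rintro ⟨a, b⟩ hq
      rw [hs, mem_filter] at hq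
      have hab : a ≠ b := hq.2
      have h3 : Pr (fun _ => gam) E (A a ∩ A b) =
          Pr (fun _ => gam) E (A a) * Pr (fun _ => gam) E (A b) := by
        refine Pr_indep (E := Bxk k (chi w a)) (F := Bxk k (chi w b))
          ((Bxk_sub k w a).trans hE) ((Bxk_sub k w b).trans hE) ?_
          (det_compl (Gd_det k _)) (det_compl (Gd_det k _))
        rw [Finset.disjoint_left]
        intro z hz hz'
        rw [mem_Bxk] at hz hz'
        exact hab (chi_inj (hz.symm.trans hz'))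
      have h4 := bad_prob k (chi w a) E ((Bxk_sub k w a).trans hE)
      have h5 := bad_prob k (chi w b) E ((Bxk_sub k w b).trans hE)
      change Pr (fun _ => gam) E (A a ∩ A b) ≤ _
      rw [h3, sq]
      exact mul_le_mul h4 h5 (Pr_nonneg wt_gam _ _) (by positivity)
    refine (sum_le_sum h2).trans ?_
    rw [sum_const, nsmul_eq_mul]
    have h3 : s.card ≤ 81 := by
      refine (card_filter_le _ _).trans ?_
      rw [card_univ]
      simp [Fintype.card_prod]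
    have h3' : (s.card : ℝ) ≤ 81 := by exact_mod_cast h3
    have h4 : (1 : ℝ) ≤ 2 ^ k := one_le_pow₀ (by norm_num)
    have h5 : (0 : ℝ) < 162 * 2 ^ k := by positivity
    calc (s.card : ℝ) * (1 / (162 * 2 ^ k)) ^ 2 ≤ 81 * (1 / (162 * 2 ^ k)) ^ 2 :=
          mul_le_mul_of_nonneg_right h3' (by positivity)
      _ = 1 / (162 * 2 ^ (k + 1)) / 2 ^ k := by
          rw [pow_succ]
          field_simp
          ring
      _ ≤ 1 / (162 * 2 ^ (k + 1)) := by
          apply div_le_self (by positivity) h4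

/-- **Connections in squares.** -/
theorem site_perc (K : ℕ) {z : ℤ × ℤ} (hz : z ∈ Gk K) :
    1 / 2 ≤ Pr (fun _ => gam) (Gk K) {ω | RS ω (0, 0) z} := by
  have hsub : ∀ j ≤ K, ∀ z' ∈ Gk K, Bxk j (anc j z') ⊆ Gk K := by
    intro j hj z' hz' x hx
    rw [mem_Bxk] at hx
    rw [Gk, mem_product, Finset.mem_Ico, Finset.mem_Ico] at hz' ⊢
    have key : ∀ t u : ℤ, t / 3 ^ j = u / 3 ^ j → 0 ≤ u ∧ u < 3 ^ K → 0 ≤ t ∧ t < 3 ^ K := by
      intro t u h1 h2
      have hpos : (0 : ℤ) < 3 ^ j := by positivity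
      have h3 : 0 ≤ u / 3 ^ j := Int.ediv_nonneg h2.1 hpos.le
      have h4 : (3 : ℤ) ^ K = 3 ^ (K - j) * 3 ^ j := by rw [← pow_add]; congr 1; omega
      have h5 : u / 3 ^ j < 3 ^ (K - j) := by
        apply Int.ediv_lt_of_lt_mul hpos
        rw [← h4]
        exact h2.2
      rw [← h1] at h3 h5
      constructor
      · by_contra h6
        push Not at h6
        have : t / 3 ^ j < 0 := Int.ediv_neg_of_neg_of_pos h6 hpos
        omega
      · by_contra h6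
        push Not at h6
        have : 3 ^ (K - j) ≤ t / 3 ^ j := by
          rw [Int.le_ediv_iff_mul_le hpos, ← h4]
          exact h6
        omega
    have e1 : x.1 / 3 ^ j = z'.1 / 3 ^ j := congrArg Prod.fst hx
    have e2 : x.2 / 3 ^ j = z'.2 / 3 ^ j := congrArg Prod.snd hx
    exact ⟨key _ _ e1 hz'.1, key _ _ e2 hz'.2⟩
  have h0 : (0, 0) ∈ Gk K := zero_mem_Gk K
  have hK : anc K z = anc K (0, 0) := by
    rw [Gk, mem_product, Finset.mem_Ico, Finset.mem_Ico] at hz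
    simp only [anc, Int.zero_ediv]
    rw [Int.ediv_eq_zero_of_lt hz.1.1 hz.1.2, Int.ediv_eq_zero_of_lt hz.2.1 hz.2.2]
  set A : ℤ × ℤ → ℕ → Set (Set (ℤ × ℤ)) := fun z' j => {ω | Gd ω j (anc j z')}ᶜ with hA
  have h1 : ({ω : Set (ℤ × ℤ) | RS ω (0, 0) z} : Set (Set (ℤ × ℤ)))ᶜ ⊆
      ⋃ j ∈ Finset.range (K + 1), (A (0, 0) j ∪ A z j) := by
    intro ω hω
    by_contra hcon
    simp only [Set.mem_iUnion, Finset.mem_range, not_exists, hA, Set.mem_union,
      Set.mem_compl_iff, Set.mem_ofPred_eq, not_or, not_not] at hcon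
    apply hω
    have g1 := mem_Core (ω := ω) (z := (0, 0)) K fun j hj => (hcon j (by omega)).1
    have g2 := mem_Core (ω := ω) (z := z) K fun j hj => (hcon j (by omega)).2
    rw [hK] at g2
    exact Core_conn K _ (hcon K (by omega)).1 _ g1 _ g2
  have h2 : Pr (fun _ => gam) (Gk K) ({ω : Set (ℤ × ℤ) | RS ω (0, 0) z} : Set (Set (ℤ × ℤ)))ᶜ ≤
      ∑ j ∈ Finset.range (K + 1), (1 / 81 : ℝ) * (1 / 2) ^ j := by
    refine (Pr_mono wt_gam h1).trans ((Pr_biUnion_le wt_gam _ _ _).trans (sum_le_sum ?_))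
    intro j hj
    rw [Finset.mem_range] at hj
    refine (Pr_union_le wt_gam _ _ _).trans ?_
    have g1 := bad_prob j (anc j (0, 0)) (Gk K) (hsub j (by omega) _ h0)
    have g2 := bad_prob j (anc j z) (Gk K) (hsub j (by omega) _ hz)
    have e : (1 / 81 : ℝ) * (1 / 2) ^ j = 1 / (162 * 2 ^ j) + 1 / (162 * 2 ^ j) := by
      rw [one_div_pow]
      field_simp
      ring
    rw [e]
    exact add_le_add g1 g2
  rw [← mul_sum, Pr_compl] at h2
  have h3 : ∑ j ∈ Finset.range (K + 1), (1 / 2 : ℝ) ^ j ≤ 2 := by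
    have := geom_sum_eq (show (1 / 2 : ℝ) ≠ 1 by norm_num) (K + 1)
    rw [this]
    have h4 : (0 : ℝ) ≤ (1 / 2) ^ (K + 1) := by positivity
    rw [div_le_iff_of_neg (by norm_num)]
    linarith
  linarith

end

end Pool.Agent.Lib.MP_566bac_pr.Zd
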