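import Pool.Agent.Lib.MP_566bac_pr.Zd.Site

/-!
# Connections between any two points of a slab
-/

open MeasureTheory ProbabilityTheory Finset unitInterval SimpleGraph
open scoped ENNReal

namespace Pool.Agent.Lib.MP_566bac_pr.Zd

variable {d : ℕ}

section
open Classical

lemma perc_all (p : I) {E : Finset (Ed d)} (hE : Lat E) :
    (perc p).real {S | ∀ e ∈ E, e ∈ S} = (p : ℝ) ^ E.card := by
  have hd : Det E {S : Set (Ed d) | ∀ e ∈ E, e ∈ S} := by
    intro S S' h h1 e he
    exact (h e he).mp (h1 e he)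
  rw [perc_det p hE hd, P0, Pr_all _ subset_rfl, prod_const]

lemma card_Ein (W : Finset (V d)) : (Ein W).card ≤ W.card * W.card := by
  unfold Ein
  refine (card_filter_le _ _).trans (card_image_le.trans ?_)
  rw [card_product]

lemma pick {h : ℕ} (hh : 0 < h) {K : ℕ} {t : ℤ} (h0 : 0 ≤ t) (h1 : t ≤ (3 ^ K + 3) * h) :
    ∃ u : ℤ, 0 ≤ u ∧ u < 3 ^ K ∧ u * h ≤ t ∧ t ≤ u * h + 4 * h := by
  have hpos : (0 : ℤ) < h := by exact_mod_cast hh
  have h3 : (1 : ℤ) ≤ 3 ^ K := one_le_pow₀ (by norm_num)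
  by_cases h2 : t ≤ (3 ^ K - 1) * h
  · refine ⟨t / h, Int.ediv_nonneg h0 hpos.le, ?_, Int.ediv_mul_le t hpos.ne', ?_⟩
    · have : t / h < 3 ^ K - 1 + 1 := Int.ediv_lt_of_lt_mul hpos (by nlinarith)
      omega
    · have h4 := Int.mul_ediv_add_emod t h
      have h5 := Int.emod_lt_of_pos t hpos
      nlinarith
  · push Not at h2
    refine ⟨3 ^ K - 1, by omega, by omega, h2.le, ?_⟩
    nlinarith

/-- **Connections in slabs.** -/
theorem slab (hd : 0 < d) {p : I} (hp : criticalProbability d < p) :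
    ∃ h : ℕ, 0 < h ∧ ∃ δ : ℝ, 0 < δ ∧ δ ≤ 1 ∧ ∀ {i1 i2 : Fin d}, i1 ≠ i2 → ∀ (K : ℕ) (lo : V d)
      (W : Finset (V d)),
      (∀ x : V d, (∀ j, lo j ≤ x j ∧
        x j ≤ lo j + (if j = i1 ∨ j = i2 then (3 ^ K + 3) * (h : ℤ) else 4 * h)) → x ∈ W) →
      ∀ x y : V d, (∀ j, lo j ≤ x j ∧
        x j ≤ lo j + (if j = i1 ∨ j = i2 then (3 ^ K + 3) * (h : ℤ) else 4 * h)) →
      (∀ j, lo j ≤ y j ∧
        y j ≤ lo j + (if j = i1 ∨ j = i2 then (3 ^ K + 3) * (h : ℤ) else 4 * h)) →
      δ ≤ (perc p).real {S | Cn S (W : Set (V d)) x y} := by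
  have hg0 : 0 ≤ gam := (wt_gam (0, 0)).1
  have hg1 : gam < 1 := by unfold gam; norm_num
  obtain ⟨h, hh, β, hβ, hexp⟩ := expl_slab hd hp hg0 hg1 fun K z hz => site_perc K hz
  have hpos : 0 < (p : ℝ) := lt_of_le_of_lt (Real.sInf_nonneg fun x hx => hx.1.1) hp
  have hp1 : (p : ℝ) ≤ 1 := p.2.2
  set N := ((4 * h + 1) ^ d) * ((4 * h + 1) ^ d) with hN
  refine ⟨h, hh, min ((β * (p : ℝ) ^ N) * (β * (p : ℝ) ^ N)) 1, lt_min (by positivity) one_pos,
    min_le_right _ _, ?_⟩
  intro i1 i2 h12 K lo W hW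
  -- the centre
  set c : V d := fun j => lo j + 2 * h with hc
  have hLam : ∀ z ∈ Gk K, Lam (Zc i1 i2 h z + c) (2 * h) ⊆ W := by
    intro z hz y hy
    apply hW
    intro j
    rw [Gk, mem_product, Finset.mem_Ico, Finset.mem_Ico] at hz
    rw [mem_Lam'] at hy
    have hyj := hy j
    rw [Pi.add_apply] at hyj
    simp only [hc] at hyj
    push_cast at hyj
    have hpos : (0 : ℤ) < h := by exact_mod_cast hh
    by_cases hj1 : j = i1
    · subst hj1
      rw [Zc_apply1 h12] at hyj
      rw [if_pos (Or.inl rfl)]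
      have h3 : z.1 ≤ 3 ^ K - 1 := by omega
      constructor
      · nlinarith [mul_nonneg hz.1.1 hpos.le]
      · nlinarith [mul_le_mul_of_nonneg_right h3 hpos.le]
    · by_cases hj2 : j = i2
      · subst hj2
        rw [Zc_apply2 h12] at hyj
        rw [if_pos (Or.inr rfl)]
        have h3 : z.2 ≤ 3 ^ K - 1 := by omega
        constructor
        · nlinarith [mul_nonneg hz.2.1 hpos.le]
        · nlinarith [mul_le_mul_of_nonneg_right h3 hpos.le]
      · rw [Zc_apply_ne hj1 hj2] at hyj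
        rw [if_neg (by tauto)]
        omega
  -- connections from the centre to a big box
  have h1 : ∀ z ∈ Gk K, β ≤ (perc p).real
      {S | ∃ y ∈ Lam (Zc i1 i2 h z + c) h, Cn S (W : Set (V d)) c y} := by
    intro z hz
    set W' : Finset (V d) := W.image fun x => x - c with hW'
    have himg : transE c '' (W' : Set (V d)) = W := by
      ext x
      rw [Set.mem_image]
      constructor
      · rintro ⟨y, hy, rfl⟩
        rw [Finset.mem_coe, hW', mem_image] at hy
        obtain ⟨x, hx, rfl⟩ := hy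
        rw [transE_apply, sub_add_cancel]
        exact hx
      · intro hx
        refine ⟨x - c, ?_, by rw [transE_apply, sub_add_cancel]⟩
        rw [Finset.mem_coe, hW', mem_image]
        exact ⟨x, hx, rfl⟩
    have h2 := hexp h12 K W' (by
      intro z' hz' x hx
      rw [hW', mem_image]
      refine ⟨x + c, hLam z' hz' ?_, by rw [add_sub_cancel_right]⟩
      rw [mem_Lam'] at hx ⊢
      intro j
      have := hx j
      rw [Pi.add_apply, Pi.add_apply]
      omega) z hz
    refine h2.trans (le_of_eq ?_)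
    have hmeas : MeasurableSet {S : Set (Ed d) | ∃ y ∈ Lam (Zc i1 i2 h z) h,
        Cn S (W' : Set (V d)) 0 y} := (loc_res (W := W') fun G =>
      ∃ y ∈ Lam (Zc i1 i2 h z) h, G.Reachable 0 y).meas
    rw [← perc_pull (isAuto_transE c) p hmeas]
    congr 1
    ext S
    simp only [Set.mem_preimage, Set.mem_ofPred_eq]
    constructor
    · rintro ⟨y, hy, hcy⟩
      have h3 := (pull_Cn (isAuto_transE c) S (W' : Set (V d)) 0 y).mp hcy
      rw [himg, transE_apply, transE_apply, zero_add] at h3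
      refine ⟨y + c, ?_, h3⟩
      rw [mem_Lam'] at hy ⊢
      intro j
      have := hy j
      rw [Pi.add_apply, Pi.add_apply]
      omega
    · rintro ⟨y, hy, hcy⟩
      refine ⟨y - c, ?_, ?_⟩
      · rw [mem_Lam'] at hy ⊢
        intro j
        have := hy j
        rw [Pi.add_apply] at this
        rw [Pi.sub_apply]
        omega
      · apply (pull_Cn (isAuto_transE c) S (W' : Set (V d)) 0 (y - c)).mpr
        rw [himg, transE_apply, transE_apply, zero_add, sub_add_cancel]
        exact hcy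
  -- connections from the centre to a point
  have h2 : ∀ x : V d, (∀ j, lo j ≤ x j ∧
      x j ≤ lo j + (if j = i1 ∨ j = i2 then (3 ^ K + 3) * (h : ℤ) else 4 * h)) →
      β * (p : ℝ) ^ N ≤ (perc p).real {S | Cn S (W : Set (V d)) c x} := by
    intro x hx
    obtain ⟨u, hu0, huK, hu1, hu2⟩ := pick hh (K := K) (t := x i1 - lo i1)
      (by have := hx i1; omega) (by have := hx i1; rw [if_pos (Or.inl rfl)] at this; omega)
    obtain ⟨v, hv0, hvK, hv1, hv2⟩ := pick hh (K := K) (t := x i2 - lo i2)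
      (by have := hx i2; omega) (by have := hx i2; rw [if_pos (Or.inr rfl)] at this; omega)
    have hz : (u, v) ∈ Gk K := by
      rw [Gk, mem_product, Finset.mem_Ico, Finset.mem_Ico]
      exact ⟨⟨hu0, huK⟩, ⟨hv0, hvK⟩⟩
    have hxL : x ∈ Lam (Zc i1 i2 h (u, v) + c) (2 * h) := by
      rw [mem_Lam']
      intro j
      rw [Pi.add_apply]
      simp only [hc]
      push_cast
      by_cases hj1 : j = i1
      · subst hj1
        rw [Zc_apply1 h12]
        constructor <;> simp only <;> omega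
      · by_cases hj2 : j = i2
        · subst hj2
          rw [Zc_apply2 h12]
          constructor <;> simp only <;> omega
        · rw [Zc_apply_ne hj1 hj2]
          have := hx j
          rw [if_neg (by tauto)] at this
          constructor <;> omega
    have hE := lat_Ein (Lam (Zc i1 i2 h (u, v) + c) (2 * h))
    have hall := perc_all p hE
    have hcard : (Ein (Lam (Zc i1 i2 h (u, v) + c) (2 * h))).card ≤ N := by
      refine (card_Ein _).trans ?_
      rw [card_Lam, hN, show 2 * (2 * h) + 1 = 4 * h + 1 by ring]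
    have hfkg := perc_fkg p (A := {S | ∃ y ∈ Lam (Zc i1 i2 h (u, v) + c) h,
        Cn S (W : Set (V d)) c y})
      (B := {S | ∀ e ∈ Ein (Lam (Zc i1 i2 h (u, v) + c) (2 * h)), e ∈ S})
      (loc_res (W := W) fun G => ∃ y ∈ Lam (Zc i1 i2 h (u, v) + c) h, G.Reachable c y)
      ⟨_, hE, fun S S' h h1 e he => (h e he).mp (h1 e he)⟩
      (by
        rintro S S' hSS ⟨y, hy, hcy⟩
        exact ⟨y, hy, hcy.mono hSS subset_rfl⟩)
      (fun S S' hSS h1 e he => hSS (h1 e he))
    rw [hall] at hfkg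
    have h3 : β * (p : ℝ) ^ N ≤ (perc p).real {S | ∃ y ∈ Lam (Zc i1 i2 h (u, v) + c) h,
        Cn S (W : Set (V d)) c y} * (p : ℝ) ^ (Ein (Lam (Zc i1 i2 h (u, v) + c) (2 * h))).card :=
      mul_le_mul (h1 _ hz) (pow_le_pow_of_le_one hpos.le hp1 hcard) (by positivity)
        measureReal_nonneg
    refine h3.trans (hfkg.trans (perc_mono p ?_))
    rintro S ⟨⟨y, hy, hcy⟩, hop⟩
    have h4 : Cn S (Lam (Zc i1 i2 h (u, v) + c) (2 * h) : Set (V d)) y x :=
      lam_conn hop (Lam_mono _ (by omega) hy) hxL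
    exact hcy.trans (h4.mono subset_rfl (by exact_mod_cast hLam _ hz))
  intro x y hx hy
  have h3 := perc_fkg p (A := {S | Cn S (W : Set (V d)) c x}) (B := {S | Cn S (W : Set (V d)) c y})
    ⟨_, lat_Ein W, det_Cn W c x⟩ ⟨_, lat_Ein W, det_Cn W c y⟩ (inc_Cn _ c x) (inc_Cn _ c y)
  refine (min_le_left _ _).trans ((mul_le_mul (h2 x hx) (h2 y hy) (by positivity)
    measureReal_nonneg).trans (h3.trans (perc_mono p ?_)))
  rintro S ⟨h4, h5⟩
  exact h4.symm.trans h5

end

end Pool.Agent.Lib.MP_566bac_pr.Zd
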