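import Pool.Agent.Lib.MP_566bac_pr.Zd.Seed

/-!
# The sprinkling lemma
-/

open MeasureTheory ProbabilityTheory Finset unitInterval SimpleGraph
open scoped ENNReal

namespace Pool.Agent.Lib.MP_566bac_pr.Zd

variable {d : ℕ}

section
open Classical

/-- the part of the box outside `C` -/
noncomputable def Rg (C : Finset (V d)) (c : V d) (n : ℕ) : Finset (V d) := Lam c n \ C

/-- the vertices outside `C` which are joined to `C` by a sprinkled edge -/
def Ent (C : Finset (V d)) (c : V d) (n : ℕ) (z : ℤ × ℤ) (ω : Set (Co d)) : Set (V d) :=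
  {w | w ∈ Rg C c n ∧ ∃ u ∈ C, u ∈ Lam c n ∧ (lattice d).Adj u w ∧ s(u, w) ∈ lb ω z false}

/-- the vertices which are reached -/
def Xp (C : Finset (V d)) (c : V d) (n : ℕ) (z : ℤ × ℤ) (ω : Set (Co d)) : Set (V d) :=
  {x | x ∈ Rg C c n ∧ ∃ w ∈ Ent C c n z ω, Cn (bs ω) (Rg C c n : Set (V d)) w x}

/-- the seed at `x` is open -/
def SO (x : V d) (i : Fin d) (u : ℤˣ) (m : ℕ) (z : ℤ × ℤ) (ω : Set (Co d)) : Prop :=
  ∀ e ∈ seedE x i u m, e ∈ lb ω z true

/-- the step is successful -/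
def Suc (C : Finset (V d)) (c : V d) (z : ℤ × ℤ) (i : Fin d) (τ : Fin d → ℤˣ) (m n : ℕ) :
    Set (Set (Co d)) :=
  {ω | ∃ x ∈ Fc c i τ n, (x ∈ C ∨ x ∈ Xp C c n z ω) ∧ SO x i (τ i) m z ω}

/-- the sprinkled coordinates of the box -/
noncomputable def coE (c : V d) (z : ℤ × ℤ) (n : ℕ) : Finset (Co d) :=
  (Ein (Lam c n)).image (lc z false)

/-- the vertices of the face with an open seed -/
noncomputable def Ks (c : V d) (z : ℤ × ℤ) (i : Fin d) (τ : Fin d → ℤˣ) (m n : ℕ)
    (ω : Set (Co d)) : Finset (V d) :=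
  (Fc c i τ n).filter fun x => SO x i (τ i) m z ω

/-- the vertices next to `C` which are connected to a vertex with an open seed -/
noncomputable def Nn (C : Finset (V d)) (c : V d) (z : ℤ × ℤ) (i : Fin d) (τ : Fin d → ℤˣ)
    (m n : ℕ) (ω : Set (Co d)) : Finset (V d) :=
  (Rg C c n).filter fun w => (∃ u ∈ C, u ∈ Lam c n ∧ (lattice d).Adj u w) ∧
    ∃ x ∈ Ks c z i τ m n ω, Cn (bs ω) (Rg C c n : Set (V d)) w x

/-- the coordinates which determine `Nn` -/
noncomputable def coK (C : Finset (V d)) (c : V d) (z : ℤ × ℤ) (i : Fin d) (τ : Fin d → ℤˣ)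
    (m n : ℕ) : Finset (Co d) :=
  (Ein (Rg C c n)).image bc ∪ coS c z i τ m n

lemma Ks_congr {C : Finset (V d)} {c : V d} {z : ℤ × ℤ} {i : Fin d} {τ : Fin d → ℤˣ} {m n : ℕ}
    {ω ω' : Set (Co d)} (h : ∀ e ∈ coK C c z i τ m n, (e ∈ ω ↔ e ∈ ω')) :
    Ks c z i τ m n ω = Ks c z i τ m n ω' := by
  unfold Ks
  apply filter_congr
  intro x hx
  refine forall₂_congr fun e he => ?_
  apply h (lc z true e)
  apply mem_union_right
  exact mem_biUnion.mpr ⟨x, hx, mem_image_of_mem _ he⟩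

lemma Nn_congr {C : Finset (V d)} {c : V d} {z : ℤ × ℤ} {i : Fin d} {τ : Fin d → ℤˣ} {m n : ℕ}
    {ω ω' : Set (Co d)} (h : ∀ e ∈ coK C c z i τ m n, (e ∈ ω ↔ e ∈ ω')) :
    Nn C c z i τ m n ω = Nn C c z i τ m n ω' := by
  unfold Nn Cn
  rw [Ks_congr h, res_congr_Ein (S := bs ω) (S' := bs ω')]
  intro e he
  exact h (bc e) (mem_union_left _ (mem_image_of_mem _ he))

/-- base coordinates of the edges between `Y` and `C` -/
noncomputable def coB (C Y : Finset (V d)) : Finset (Co d) :=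
  (Y.biUnion fun w => ((nbr w).filter fun u => u ∈ C).image fun u => s(w, u)).image bc

lemma mem_coB {C Y : Finset (V d)} {q : Co d} :
    q ∈ coB C Y ↔ ∃ w ∈ Y, ∃ u ∈ C, (lattice d).Adj w u ∧ q = bc s(w, u) := by
  simp only [coB, mem_image, mem_biUnion, mem_filter, mem_nbr]
  constructor
  · rintro ⟨e, ⟨w, hw, u, ⟨h1, h2⟩, rfl⟩, rfl⟩
    exact ⟨w, hw, u, h2, h1, rfl⟩
  · rintro ⟨w, hw, u, h2, h1, rfl⟩
    exact ⟨_, ⟨w, hw, u, ⟨h1, h2⟩, rfl⟩, rfl⟩

lemma card_coB (C Y : Finset (V d)) : (coB C Y).card ≤ 2 * d * Y.card := by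
  unfold coB
  refine card_image_le.trans (card_biUnion_le.trans ?_)
  calc ∑ y ∈ Y, (((nbr y).filter fun z => z ∈ C).image fun z => s(y, z)).card
      ≤ ∑ y ∈ Y, 2 * d := sum_le_sum fun y _ =>
        card_image_le.trans ((card_filter_le _ _).trans (card_nbr y))
    _ = 2 * d * Y.card := by rw [sum_const, smul_eq_mul, mul_comm]

/-- **Sprinkling lemma.** -/
theorem sprinkle {p δ : ℝ} (hp0 : 0 ≤ p) (hp1 : p < 1) (hδ0 : 0 ≤ δ) (hδ1 : δ ≤ 1) {η : ℝ}
    {C : Finset (V d)} {c : V d} {z : ℤ × ℤ} {i : Fin d} {τ : Fin d → ℤˣ} {m n : ℕ}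
    (hC : Lam c m ⊆ C) {U : Finset (Co d)} (hU1 : (Ein (Lam c n)).image bc ⊆ U)
    (hU2 : coS c z i τ m n ⊆ U) (hU3 : coE c z n ⊆ U)
    (hSG : 1 - η ≤ Pr (cw p δ) U (SG c z i τ m n)) (t : ℕ) :
    1 - (η / (1 - p) ^ (2 * d * t) + (1 - δ) ^ t) ≤ Pr (cw p δ) U (Suc C c z i τ m n) := by
  have hw : Wt (cw (d := d) p δ) := wt_cw hp0 hp1.le hδ0 hδ1
  set K := coK C c z i τ m n with hKdef
  have hRL : Rg C c n ⊆ Lam c n := sdiff_subset
  have hKU : K ⊆ U := by
    apply union_subset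
    · exact (image_subset_image (Ein_mono hRL)).trans hU1
    · exact hU2
  -- the event that no seed touches `C`
  set G1 : Set (Set (Co d)) := {ω | ∀ x ∈ Ks c z i τ m n ω, x ∉ C} with hG1
  set Ga : Set (Set (Co d)) := G1 ∩ {ω | (Nn C c z i τ m n ω).card ≤ t} with hGa
  set Gb : Set (Set (Co d)) := G1 ∩ {ω | t < (Nn C c z i τ m n ω).card} with hGb
  have hq : 0 < 1 - p := by linarith
  have hq1 : 1 - p ≤ 1 := by linarith
  -- step 1
  have h1 : (1 - p) ^ (2 * d * t) * Pr (cw p δ) U Ga ≤ η := by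
    have e1 := Pr_closed_ge (κ := Finset (V d)) hw hKU (fun ω => Nn C c z i τ m n ω)
      ((Rg C c n).powerset.filter fun Y => Y.card ≤ t) Ga
      (by
        intro ω _ hω
        rw [mem_filter, mem_powerset]
        exact ⟨filter_subset _ _, hω.2⟩)
      (by
        intro Y _
        apply det_of
        intro ω ω' h
        simp only [hGa, hG1, Set.mem_inter_iff, Set.mem_ofPred_eq, Ks_congr h, Nn_congr h])
      (fun Y => coB (C ∩ Lam c n) Y)
      (by
        intro Y hY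
        rw [mem_filter, mem_powerset] at hY
        constructor
        · intro q hq
          obtain ⟨w, hw, u, hu, hadj, rfl⟩ := mem_coB.mp hq
          exact hU1 (mem_image_of_mem _ (mem_Ein.mpr ⟨hRL (hY.1 hw), (mem_inter.mp hu).2, hadj⟩))
        · rw [Finset.disjoint_left]
          intro q hq hq'
          obtain ⟨w, hw, u, hu, hadj, rfl⟩ := mem_coB.mp hq'
          replace hu := (mem_inter.mp hu).1
          rcases mem_union.mp hq with h | h
          · obtain ⟨e, he, hee⟩ := mem_image.mp h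
            rw [bc_inj hee] at he
            have := (mem_Ein.mp he).2.1
            rw [Rg, mem_sdiff] at this
            exact this.2 hu
          · obtain ⟨x, _, hx⟩ := mem_biUnion.mp h
            obtain ⟨f, _, hf⟩ := mem_image.mp hx
            simp [lc, bc] at hf)
      (c := (1 - p) ^ (2 * d * t))
      (by
        intro Y hY
        rw [mem_filter, mem_powerset] at hY
        have e2 : ∀ q ∈ coB (C ∩ Lam c n) Y, 1 - cw (d := d) p δ q = 1 - p := by
          intro q hq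
          obtain ⟨w, _, u, _, _, rfl⟩ := mem_coB.mp hq
          simp [cw, bc]
        rw [prod_congr rfl e2, prod_const]
        apply pow_le_pow_of_le_one hq.le hq1
        exact (card_coB _ _).trans (Nat.mul_le_mul_left _ hY.2))
    refine e1.trans ?_
    have e3 : Ga ∩ {ω | ∀ e ∈ coB (C ∩ Lam c n) (Nn C c z i τ m n ω), e ∉ ω} ⊆
        (SG c z i τ m n)ᶜ := by
      rintro ω ⟨⟨hω1, -⟩, hω2⟩ ⟨x, hx, ⟨y, hy, hc⟩, hs⟩
      have hxK : x ∈ Ks c z i τ m n ω := by
        rw [Ks, mem_filter]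
        exact ⟨hx, hs⟩
      have hxC : x ∉ C := hω1 x hxK
      obtain ⟨u, v, h3, h4, h5, h6, h7, h8, h9⟩ := Cn.exit_last (A := (C : Set (V d))) hc
        (by exact_mod_cast hC hy) (by exact_mod_cast hxC)
      rw [Finset.mem_coe] at h3 h4 h5 h6
      have hvR : v ∈ Rg C c n := mem_sdiff.mpr ⟨h6, h4⟩
      have hvN : v ∈ Nn C c z i τ m n ω := by
        rw [Nn, mem_filter]
        refine ⟨hvR, ⟨u, h3, h5, h7⟩, x, hxK, ?_⟩
        refine h9.mono subset_rfl ?_
        rintro a ⟨ha1, ha2⟩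
        rw [Finset.mem_coe] at ha1 ⊢
        exact mem_sdiff.mpr ⟨ha1, ha2⟩
      refine hω2 (bc s(v, u)) (mem_coB.mpr ⟨v, hvN, u, mem_inter.mpr ⟨h3, h5⟩, h7.symm, rfl⟩) ?_
      change s(v, u) ∈ bs ω
      rw [Sym2.eq_swap]
      exact h8
    refine (Pr_mono hw e3).trans ?_
    rw [Pr_compl]
    linarith
  -- step 2
  have h2 : Pr (cw p δ) U (Gb ∩ (Suc C c z i τ m n)ᶜ) ≤ (1 - δ) ^ t := by
    -- a neighbour in `C`
    set g : V d → V d := fun w =>
      if h : ∃ u ∈ C, u ∈ Lam c n ∧ (lattice d).Adj u w then h.choose else 0 with hg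
    have hgs : ∀ w, (∃ u ∈ C, u ∈ Lam c n ∧ (lattice d).Adj u w) →
        g w ∈ C ∧ g w ∈ Lam c n ∧ (lattice d).Adj (g w) w := by
      intro w h
      rw [hg]
      simp only [dif_pos h]
      exact h.choose_spec
    have e1 := Pr_closed_le (κ := Finset (V d)) hw hKU (fun ω => Nn C c z i τ m n ω)
      ((Rg C c n).powerset.filter fun Y => t < Y.card ∧
        ∀ w ∈ Y, ∃ u ∈ C, u ∈ Lam c n ∧ (lattice d).Adj u w) Gb
      (by
        intro ω _ hω
        rw [mem_filter, mem_powerset]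
        refine ⟨filter_subset _ _, hω.2, ?_⟩
        intro w hw
        rw [Nn, mem_filter] at hw
        exact hw.2.1)
      (by
        intro Y _
        apply det_of
        intro ω ω' h
        simp only [hGb, hG1, Set.mem_inter_iff, Set.mem_ofPred_eq, Ks_congr h, Nn_congr h])
      (fun Y => Y.image fun w => lc z false s(g w, w))
      (by
        intro Y hY
        rw [mem_filter, mem_powerset] at hY
        constructor
        · intro q hq
          obtain ⟨w, hw, rfl⟩ := mem_image.mp hq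
          obtain ⟨h3, h4, h5⟩ := hgs w (hY.2.2 w hw)
          exact hU3 (mem_image_of_mem _ (mem_Ein.mpr ⟨h4, hRL (hY.1 hw), h5⟩))
        · rw [Finset.disjoint_left]
          intro q hq hq'
          obtain ⟨w, _, rfl⟩ := mem_image.mp hq'
          rcases mem_union.mp hq with h | h
          · obtain ⟨e, he, hee⟩ := mem_image.mp h
            simp [lc, bc] at hee
          · obtain ⟨x, _, hx⟩ := mem_biUnion.mp h
            obtain ⟨f, _, hf⟩ := mem_image.mp hx
            simp [lc] at hf)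
      (c := (1 - δ) ^ t)
      (by
        intro Y hY
        rw [mem_filter, mem_powerset] at hY
        have e2 : ∀ q ∈ Y.image (fun w => lc z false s(g w, w)),
            1 - cw (d := d) p δ q = 1 - δ := by
          intro q hq
          obtain ⟨w, _, rfl⟩ := mem_image.mp hq
          simp [cw, lc]
        rw [prod_congr rfl e2, prod_const]
        apply pow_le_pow_of_le_one (by linarith) (by linarith)
        rw [card_image_of_injOn]
        · exact hY.2.1.le
        · intro w hw w' hw' h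
          have h3 := lc_inj z false h
          rw [Sym2.eq_iff] at h3
          rcases h3 with h3 | h3
          · exact h3.2
          · exfalso
            have h4 := (mem_sdiff.mp (hY.1 hw')).2
            apply h4
            rw [← h3.1]
            exact (hgs w (hY.2.2 w hw)).1)
    have e3 : Gb ∩ (Suc C c z i τ m n)ᶜ ⊆
        Gb ∩ {ω | ∀ e ∈ (Nn C c z i τ m n ω).image (fun w => lc z false s(g w, w)), e ∉ ω} := by
      rintro ω ⟨hω1, hω2⟩
      refine ⟨hω1, ?_⟩
      intro q hq hqω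
      obtain ⟨w, hw, rfl⟩ := mem_image.mp hq
      rw [Nn, mem_filter] at hw
      obtain ⟨hwR, hwu, x, hx, hc⟩ := hw
      obtain ⟨h3, h4, h5⟩ := hgs w hwu
      rw [Ks, mem_filter] at hx
      apply hω2
      refine ⟨x, hx.1, Or.inr ⟨?_, w, ⟨hwR, g w, h3, h4, h5, hqω⟩, hc⟩, hx.2⟩
      exact_mod_cast hc.mem (by exact_mod_cast hwR)
    refine (Pr_mono hw e3).trans (e1.trans ?_)
    have h6 := Pr_le_one hw U Gb
    have h7 : (0 : ℝ) ≤ (1 - δ) ^ t := pow_nonneg (by linarith) _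
    nlinarith
  -- conclusion
  have h3 : (Suc C c z i τ m n)ᶜ ⊆ Ga ∪ (Gb ∩ (Suc C c z i τ m n)ᶜ) := by
    intro ω hω
    have h4 : ω ∈ G1 := by
      intro x hx hxC
      rw [Ks, mem_filter] at hx
      exact hω ⟨x, hx.1, Or.inl hxC, hx.2⟩
    by_cases h5 : (Nn C c z i τ m n ω).card ≤ t
    · exact Or.inl ⟨h4, h5⟩
    · exact Or.inr ⟨⟨h4, not_le.mp h5⟩, hω⟩
  have h4 := Pr_mono hw (E := U) h3
  have h5 := Pr_union_le hw U Ga (Gb ∩ (Suc C c z i τ m n)ᶜ)
  rw [Pr_compl] at h4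
  have h6 : Pr (cw p δ) U Ga ≤ η / (1 - p) ^ (2 * d * t) := by
    rw [le_div_iff₀ (by positivity), mul_comm]
    exact h1
  linarith

/-- **One step of the exploration succeeds with probability close to one.** -/
theorem step_prob (hd : 0 < d) {p : I} (hp : criticalProbability d < p) (hp1 : (p : ℝ) < 1)
    {δ : ℝ} (hδ : 0 < δ) (hδ1 : δ ≤ 1) {ε : ℝ} (hε : 0 < ε) :
    ∃ m n, m ≤ n ∧ ∀ (C : Finset (V d)) (c : V d) (z : ℤ × ℤ) (i : Fin d) (τ : Fin d → ℤˣ)
      (U : Finset (Co d)), Lam c m ⊆ C → (Ein (Lam c n)).image bc ⊆ U →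
      coS c z i τ m n ⊆ U → coE c z n ⊆ U →
      1 - ε ≤ Pr (cw p δ) U (Suc C c z i τ m n) := by
  obtain ⟨t, ht⟩ := exists_pow_lt_of_lt_one (half_pos hε) (show 1 - δ < 1 by linarith)
  have hq : 0 < 1 - (p : ℝ) := by linarith
  have hη : 0 < ε / 2 * (1 - (p : ℝ)) ^ (2 * d * t) := by positivity
  obtain ⟨m, n, hmn, h⟩ := seed_prob hd hp hp1 hδ hδ1 hη
  refine ⟨m, n, hmn, ?_⟩
  intro C c z i τ U hC hU1 hU2 hU3
  have h1 := sprinkle (p := p) (δ := δ) p.2.1 hp1 hδ.le hδ1 hC hU1 hU2 hU3 (h c z i τ U hU1 hU2) t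
  have h2 : ε / 2 * (1 - (p : ℝ)) ^ (2 * d * t) / (1 - (p : ℝ)) ^ (2 * d * t) = ε / 2 := by
    field_simp
  rw [h2] at h1
  linarith

end

end Pool.Agent.Lib.MP_566bac_pr.Zd
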